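import Pool.Agent.H92.Scale

set_option autoImplicit false

open MeasureTheory Filter Topology Set

namespace Pool.Agent.H92

theorem cf_nonneg (i : ℕ) : 0 ≤ cf i := by
  unfold cf
  split_ifs <;> positivity

theorem cf_add6 (i : ℕ) : cf (i + 6) = cf i / 10 := by
  unfold cf
  have h1 : (i + 6) % 6 = i % 6 := by omega
  have h2 : (i + 6) / 6 = i / 6 + 1 := by omega
  rw [h1, h2, pow_succ]
  field_simp

theorem cf_mul6_add (m r : ℕ) : cf (6 * m + r) = cf r / 10 ^ m := by
  induction m with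
  | zero => simp
  | succ m ih =>
    have : 6 * (m + 1) + r = (6 * m + r) + 6 := by ring
    rw [this, cf_add6, ih, pow_succ]
    field_simp

theorem cf_0 : cf 0 = 5 := by simp [cf]
theorem cf_1 : cf 1 = 0 := by simp [cf]
theorem cf_2 : cf 2 = 1 := by simp [cf]
theorem cf_3 : cf 3 = 1 := by simp [cf]
theorem cf_4 : cf 4 = 1 := by simp [cf]
theorem cf_5 : cf 5 = 1 := by simp [cf]

theorem cf_le (i : ℕ) : cf i ≤ 5 / 10 ^ (i / 6) := by
  unfold cf
  refine div_le_div_of_nonneg_right ?_ (by positivity)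
  split_ifs <;> norm_num

theorem cf_summable : Summable cf := by
  have h1 : ∀ r < 6, Summable fun m : ℕ => cf (6 * m + r) := by
    intro r _
    have : (fun m : ℕ => cf (6 * m + r)) = fun m : ℕ => cf r * (1 / 10) ^ m := by
      funext m
      rw [cf_mul6_add, one_div, inv_pow, div_eq_mul_inv]
    rw [this]
    exact (summable_geometric_of_lt_one (by norm_num) (by norm_num)).mul_left _
  -- compare with a geometric series of ratio `10^(-1/6)`: use `i ↦ i / 6` fibres
  have h2 : Summable fun p : ℕ × Fin 6 => cf (6 * p.1 + p.2) := by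
    rw [summable_prod_of_nonneg (fun p => cf_nonneg _)]
    refine ⟨fun m => Summable.of_finite, ?_⟩
    have : (fun m : ℕ => ∑' r : Fin 6, cf (6 * m + r)) = fun m : ℕ => ∑ r : Fin 6, cf (6 * m + r) := by
      funext m
      rw [tsum_fintype]
    rw [this]
    exact summable_sum fun r _ => h1 r r.2
  have e : ℕ ≃ ℕ × Fin 6 := Nat.divModEquiv 6
  have h3 : (fun i : ℕ => cf i) = (fun p : ℕ × Fin 6 => cf (6 * p.1 + p.2)) ∘ (Nat.divModEquiv 6) := by
    funext i
    simp only [Function.comp_apply, Nat.divModEquiv_apply]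
    congr 1
    simp [Nat.div_add_mod]
  have h4 : Summable ((fun p : ℕ × Fin 6 => cf (6 * p.1 + p.2)) ∘ (Nat.divModEquiv 6)) :=
    (Nat.divModEquiv 6).summable_iff.2 h2
  rw [← h3] at h4
  exact h4

/-- tail sums -/
noncomputable def tl (n : ℕ) : ℝ := ∑' j, cf (n + j)

theorem summable_tl (n : ℕ) : Summable fun j => cf (n + j) := by
  have := (summable_nat_add_iff n).2 cf_summable
  simpa [add_comm] using this

theorem tl_succ (n : ℕ) : tl n = cf n + tl (n + 1) := by
  unfold tl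
  rw [(summable_tl n).tsum_eq_zero_add]
  simp only [add_zero]
  congr 1
  refine tsum_congr fun j => ?_
  congr 1
  ring

theorem tl_add6 (n : ℕ) : tl (n + 6) = tl n / 10 := by
  unfold tl
  rw [← tsum_div_const]
  refine tsum_congr fun j => ?_
  rw [← cf_add6]
  congr 1
  ring

theorem tl_0 : tl 0 = 10 := by
  have h := tl_succ 0
  rw [tl_succ 1, tl_succ 2, tl_succ 3, tl_succ 4, tl_succ 5] at h
  have h6 := tl_add6 0
  norm_num at h h6
  rw [h6, cf_0, cf_1, cf_2, cf_3, cf_4, cf_5] at h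
  linarith

theorem tl_6 : tl 6 = 1 := by
  have h6 := tl_add6 0
  norm_num at h6
  rw [h6, tl_0]
  norm_num

theorem tl_5 : tl 5 = 2 := by rw [tl_succ 5, cf_5, tl_6]; norm_num
theorem tl_4 : tl 4 = 3 := by rw [tl_succ 4, cf_4, tl_5]; norm_num
theorem tl_3 : tl 3 = 4 := by rw [tl_succ 3, cf_3, tl_4]; norm_num
theorem tl_2 : tl 2 = 5 := by rw [tl_succ 2, cf_2, tl_3]; norm_num
theorem tl_1 : tl 1 = 5 := by rw [tl_succ 1, cf_1, tl_2]; norm_num

theorem tl_mul6_add (m r : ℕ) : tl (6 * m + r) = tl r / 10 ^ m := by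
  induction m with
  | zero => simp
  | succ m ih =>
    have : 6 * (m + 1) + r = (6 * m + r) + 6 := by ring
    rw [this, tl_add6, ih, pow_succ]
    field_simp

theorem cf_le_tl (i : ℕ) : cf i ≤ tl (i + 1) := by
  obtain ⟨m, r, hr, rfl⟩ : ∃ m r : ℕ, r < 6 ∧ i = 6 * m + r :=
    ⟨i / 6, i % 6, Nat.mod_lt _ (by norm_num), (Nat.div_add_mod i 6).symm⟩
  rw [cf_mul6_add, add_assoc, tl_mul6_add]
  refine div_le_div_of_nonneg_right ?_ (by positivity)
  interval_cases r
  · rw [cf_0, tl_1]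
  · rw [cf_1, tl_2]; norm_num
  · rw [cf_2, tl_3]; norm_num
  · rw [cf_3, tl_4]; norm_num
  · rw [cf_4, tl_5]; norm_num
  · rw [cf_5, tl_6]

theorem tl_pos (n : ℕ) : 0 < tl n := by
  obtain ⟨m, r, hr, rfl⟩ : ∃ m r : ℕ, r < 6 ∧ n = 6 * m + r :=
    ⟨n / 6, n % 6, Nat.mod_lt _ (by norm_num), (Nat.div_add_mod n 6).symm⟩
  rw [tl_mul6_add]
  refine div_pos ?_ (by positivity)
  interval_cases r
  · rw [tl_0]; norm_num
  · rw [tl_1]; norm_num
  · rw [tl_2]; norm_num
  · rw [tl_3]; norm_num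
  · rw [tl_4]; norm_num
  · rw [tl_5]; norm_num

theorem cf_six_mul (m : ℕ) : cf (6 * m) = 5 / 10 ^ m := by
  have := cf_mul6_add m 0
  rw [add_zero, cf_0] at this
  exact this

theorem tl_six_mul (m : ℕ) : tl (6 * m + 1) = 5 / 10 ^ m := by
  rw [tl_mul6_add, tl_1]

end Pool.Agent.H92
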