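import Pool.Agent.H92.Scale

set_option autoImplicit false

open MeasureTheory Filter Topology Set

namespace Pool.Agent.H92

/-- prescribing a linear functional on a linearly independent family -/
theorem exists_lin {K : Type*} [AddCommGroup K] [Module ℚ K] {ι : Type*} {v : ι → K}
    (hv : LinearIndependent ℚ v) (f : ι → ℝ) : ∃ L : K →ₗ[ℚ] ℝ, ∀ i, L (v i) = f i := by
  obtain ⟨L, hL⟩ := LinearMap.exists_extend ((Module.Basis.span hv).constr ℚ f)
  refine ⟨L, fun i => ?_⟩
  have h1 : (⟨v i, Submodule.subset_span (mem_range_self i)⟩ : Submodule.span ℚ (range v)) =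
      Module.Basis.span hv i := by
    ext
    rw [Module.Basis.span_apply]
  have h2 := congrArg (fun f : Submodule.span ℚ (range v) →ₗ[ℚ] ℝ =>
    f ⟨v i, Submodule.subset_span (mem_range_self i)⟩) hL
  simp only [LinearMap.comp_apply, Submodule.subtype_apply] at h2
  rw [h2, h1, Module.Basis.constr_basis]

/-- infinitely separated positive elements are linearly independent over the rationals -/
theorem li_t {K : Type*} [Field K] [LinearOrder K] [IsStrictOrderedRing K] {t : ℕ → K}
    (hpos : ∀ i, 0 < t i) (hsep : ∀ i, ∀ n : ℕ, (n : K) * t (i + 1) < t i) :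
    LinearIndependent ℚ t := by
  have hanti : Antitone t := by
    refine antitone_nat_of_succ_le fun i => ?_
    have := hsep i 1
    rw [Nat.cast_one, one_mul] at this
    exact this.le
  rw [linearIndependent_iff']
  intro s g hsum
  by_contra hcon
  push Not at hcon
  -- minimal index with nonzero coefficient
  classical
  set S := s.filter (fun i => g i ≠ 0) with hS
  have hSne : S.Nonempty := by
    obtain ⟨i, hi, hgi⟩ := hcon
    exact ⟨i, Finset.mem_filter.2 ⟨hi, hgi⟩⟩
  set i₀ := S.min' hSne with hi₀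
  have hi₀S : i₀ ∈ S := S.min'_mem hSne
  have hmin : ∀ i ∈ S, i₀ ≤ i := fun i hi => S.min'_le i hi
  have hg₀ : g i₀ ≠ 0 := (Finset.mem_filter.1 hi₀S).2
  have hsum' : ∑ i ∈ S, g i • t i = 0 := by
    rw [← hsum, hS, Finset.sum_filter]
    refine Finset.sum_congr rfl fun i _ => ?_
    by_cases h : g i = 0
    · simp [h]
    · simp [h]
  have hsplit : g i₀ • t i₀ = -∑ i ∈ S.erase i₀, g i • t i := by
    rw [← Finset.add_sum_erase S _ hi₀S] at hsum'
    exact eq_neg_of_add_eq_zero_left hsum'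
  have hsm : ∀ (q : ℚ) (x : K), q • x = (q : K) * x := fun q x => by
    rw [Algebra.smul_def]
    simp
  have habs : |(g i₀ : K)| * t i₀ ≤ (∑ i ∈ S.erase i₀, |(g i : K)|) * t (i₀ + 1) := by
    have h1 : |(g i₀ : K)| * t i₀ = |g i₀ • t i₀| := by
      rw [hsm, abs_mul, abs_of_pos (hpos i₀)]
    rw [h1, hsplit, abs_neg, Finset.sum_mul]
    refine (Finset.abs_sum_le_sum_abs _ _).trans (Finset.sum_le_sum fun i hi => ?_)
    rw [hsm, abs_mul, abs_of_pos (hpos i)]
    refine mul_le_mul_of_nonneg_left ?_ (abs_nonneg _)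
    have h2 : i₀ ≤ i := hmin i (Finset.mem_of_mem_erase hi)
    have h3 : i ≠ i₀ := Finset.ne_of_mem_erase hi
    exact hanti (by omega)
  -- choose a natural number
  set q : ℚ := (∑ i ∈ S.erase i₀, |g i|) / |g i₀| with hq
  obtain ⟨n, hn⟩ := exists_nat_ge q
  have hg₀' : 0 < |g i₀| := abs_pos.2 hg₀
  have h4 : (∑ i ∈ S.erase i₀, |g i|) ≤ n * |g i₀| := by
    rw [hq, div_le_iff₀ hg₀'] at hn
    exact hn
  have h5 : (∑ i ∈ S.erase i₀, |(g i : K)|) ≤ (n : K) * |(g i₀ : K)| := by
    have : (((∑ i ∈ S.erase i₀, |g i|) : ℚ) : K) ≤ ((n * |g i₀| : ℚ) : K) := by exact_mod_cast h4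
    push_cast at this
    exact this
  have h6 := hsep i₀ n
  have h7 : 0 < |(g i₀ : K)| := abs_pos.2 (by exact_mod_cast hg₀)
  have h8 : (∑ i ∈ S.erase i₀, |(g i : K)|) * t (i₀ + 1) ≤ (n : K) * |(g i₀ : K)| * t (i₀ + 1) :=
    mul_le_mul_of_nonneg_right h5 (hpos _).le
  nlinarith [mul_lt_mul_of_pos_left h6 h7]

/-- a shifted version -/
theorem li_t_shift {K : Type*} [Field K] [LinearOrder K] [IsStrictOrderedRing K] {t : ℕ → K}
    (m : ℕ) (hpos : ∀ i, 0 < t i) (hsep : ∀ i, m ≤ i → ∀ n : ℕ, (n : K) * t (i + 1) < t i) :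
    LinearIndependent ℚ (fun i => t (m + i)) :=
  li_t (t := fun i => t (m + i)) (fun i => hpos _) (fun i n => hsep (m + i) (by omega) n)

end Pool.Agent.H92
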