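import Pool.Agent.H92.Path

set_option autoImplicit false

open MeasureTheory Filter Topology Set

namespace Pool.Agent.H92

section align

variable {K : Type*} [AddCommGroup K]

/-- the transform of the lower part -/
noncomputable def lowF (b : ℕ → ℝ) (y : ℕ → K) (ω : DualG K) : ℂ :=
  ∑' j, (b j : ℂ) * ((ω (y j) : Circle) : ℂ)

theorem lowF_term_norm {b : ℕ → ℝ} (hb : ∀ j, 0 ≤ b j) (y : ℕ → K) (ω : DualG K) (j : ℕ) :
    ‖(b j : ℂ) * ((ω (y j) : Circle) : ℂ)‖ = b j := by
  rw [norm_mul, DualG.norm_eval, mul_one, Complex.norm_real, Real.norm_eq_abs, abs_of_nonneg (hb j)]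

theorem lowF_summable {b : ℕ → ℝ} (hb : ∀ j, 0 ≤ b j) (hbs : Summable b) (y : ℕ → K)
    (ω : DualG K) : Summable fun j => (b j : ℂ) * ((ω (y j) : Circle) : ℂ) :=
  Summable.of_norm (by simpa only [lowF_term_norm hb] using hbs)

theorem continuous_lowF {b : ℕ → ℝ} (hb : ∀ j, 0 ≤ b j) (hbs : Summable b) (y : ℕ → K) :
    Continuous (lowF b y) := by
  refine continuous_tsum (fun j => ?_) hbs (fun j ω => (lowF_term_norm hb y ω j).le)
  exact continuous_const.mul (DualG.continuous_eval' _)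

theorem norm_lowF_le {b : ℕ → ℝ} (hb : ∀ j, 0 ≤ b j) (hbs : Summable b) (y : ℕ → K)
    (ω : DualG K) : ‖lowF b y ω‖ ≤ ∑' j, b j := by
  have := norm_tsum_le_tsum_norm (f := fun j => (b j : ℂ) * ((ω (y j) : Circle) : ℂ))
    (by simpa only [lowF_term_norm hb] using hbs)
  simp only [lowF_term_norm hb] at this
  exact this

/-- turning all lower atoms towards the direction of the sum pushes zeros to the boundary -/
theorem no_zero_inside {h : K → ℂ} {l : K →+ ℝ} (hs : Summable fun x => ‖h x‖)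
    (hl : ∀ x, h x ≠ 0 → 0 ≤ l x) {c : ℝ} (hc : 0 < c) {x : K} {y : ℕ → K} {b : ℕ → ℝ}
    (hb : ∀ j, 0 ≤ b j) (hbs : Summable b) (hcT : c ≤ ∑' j, b j)
    (hL : ∀ α : ℕ → ℝ, ∃ L : K →+ ℝ, L x = 0 ∧ ∀ j, b j ≠ 0 → L (y j) = α j)
    (hA : ∀ (z : ℂ) (ω : DualG K), 0 ≤ z.re → GG h l z ω = 0 →
      (c : ℂ) * Complex.exp (-z) * ((ω x : Circle) : ℂ) + lowF b y ω = 0)
    (hbd : ∀ ω, GG h l 0 ω ≠ 0) :
    ∀ (z : ℂ) (ω : DualG K), 0 < z.re → GG h l z ω ≠ 0 := by
  intro z₀ ω₀ hz₀ h0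
  have hc' : (c : ℂ) ≠ 0 := by exact_mod_cast hc.ne'
  have hA0 := hA z₀ ω₀ hz₀.le h0
  set φ₀ := lowF b y ω₀ with hφ₀
  have hφne : φ₀ ≠ 0 := by
    intro h1
    rw [h1, add_zero] at hA0
    exact mul_ne_zero (mul_ne_zero hc' (Complex.exp_ne_zero _)) (Circle.coe_ne_zero _) hA0
  have hnφ : 0 < ‖φ₀‖ := norm_pos_iff.2 hφne
  set u : ℂ := φ₀ / ‖φ₀‖ with hu
  have hun : ‖u‖ = 1 := by
    rw [hu, norm_div, Complex.norm_real, norm_norm, div_self hnφ.ne']
  have huc : (starRingEnd ℂ) u * u = 1 := by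
    rw [Complex.conj_mul', hun]
    norm_num
  have hucφ : (starRingEnd ℂ) u * φ₀ = ‖φ₀‖ := by
    have h1 : φ₀ = u * ‖φ₀‖ := by
      rw [hu, div_mul_cancel₀]
      exact_mod_cast hnφ.ne'
    calc (starRingEnd ℂ) u * φ₀ = (starRingEnd ℂ) u * (u * ‖φ₀‖) := by rw [← h1]
      _ = ‖φ₀‖ := by rw [← mul_assoc, huc, one_mul]
  -- angles
  set α : ℕ → ℝ := fun j => Complex.arg ((starRingEnd ℂ) u * ((ω₀ (y j) : Circle) : ℂ)) with hα
  have hαe : ∀ j, (starRingEnd ℂ) u * ((ω₀ (y j) : Circle) : ℂ) = Complex.exp (α j * Complex.I) := by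
    intro j
    have h1 := Complex.norm_mul_exp_arg_mul_I ((starRingEnd ℂ) u * ((ω₀ (y j) : Circle) : ℂ))
    rw [norm_mul, Complex.norm_conj, hun, DualG.norm_eval, one_mul, Complex.ofReal_one, one_mul] at h1
    exact h1.symm
  obtain ⟨L, hLx, hLy⟩ := hL (fun j => -α j)
  set w : ℝ → DualG K := fun s => ω₀ * expi L s with hw
  have hwc : Continuous w := continuous_const.mul (continuous_expi L)
  -- the function `conj u * φ(w s)`
  have hterm : ∀ s j, (starRingEnd ℂ) u * ((b j : ℂ) * (((w s) (y j) : Circle) : ℂ)) =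
      (b j : ℂ) * Complex.exp (((1 - s) * α j : ℝ) * Complex.I) := by
    intro s j
    by_cases hbj : b j = 0
    · simp [hbj]
    · have h1 : (((w s) (y j) : Circle) : ℂ) = ((ω₀ (y j) : Circle) : ℂ) *
          Complex.exp ((s * -α j : ℝ) * Complex.I) := by
        rw [hw]
        simp only
        rw [DualG.mul_apply, Circle.coe_mul, expi_apply, hLy j hbj]
      rw [h1]
      have h2 : (starRingEnd ℂ) u * ((b j : ℂ) * (((ω₀ (y j) : Circle) : ℂ) *
          Complex.exp ((s * -α j : ℝ) * Complex.I))) = (b j : ℂ) *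
          (((starRingEnd ℂ) u * ((ω₀ (y j) : Circle) : ℂ)) *
          Complex.exp ((s * -α j : ℝ) * Complex.I)) := by ring
      rw [h2, hαe, ← Complex.exp_add]
      congr 2
      push_cast
      ring
  have hlow : ∀ s, (starRingEnd ℂ) u * lowF b y (w s) =
      ∑' j, (b j : ℂ) * Complex.exp (((1 - s) * α j : ℝ) * Complex.I) := by
    intro s
    unfold lowF
    rw [← tsum_mul_left]
    exact tsum_congr fun j => hterm s j
  have hsumE : ∀ s : ℝ, Summable fun j => (b j : ℂ) * Complex.exp (((1 - s) * α j : ℝ) * Complex.I) := by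
    intro s
    refine Summable.of_norm ?_
    have : ∀ j, ‖(b j : ℂ) * Complex.exp (((1 - s) * α j : ℝ) * Complex.I)‖ = b j := by
      intro j
      rw [norm_mul, Complex.norm_exp_ofReal_mul_I, mul_one, Complex.norm_real, Real.norm_eq_abs,
        abs_of_nonneg (hb j)]
    simpa only [this] using hbs
  have hre : ∀ s, ((starRingEnd ℂ) u * lowF b y (w s)).re = ∑' j, b j * Real.cos ((1 - s) * α j) := by
    intro s
    rw [hlow, Complex.re_tsum (hsumE s)]
    refine tsum_congr fun j => ?_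
    rw [Complex.re_ofReal_mul, Complex.exp_ofReal_mul_I_re]
  have hsumC : ∀ s : ℝ, Summable fun j => b j * Real.cos ((1 - s) * α j) := by
    intro s
    refine Summable.of_norm_bounded hbs (fun j => ?_)
    rw [norm_mul, Real.norm_eq_abs, Real.norm_eq_abs, abs_of_nonneg (hb j)]
    exact mul_le_of_le_one_right (hb j) (Real.abs_cos_le_one _)
  have hw0 : w 0 = ω₀ := by
    rw [hw]
    simp only
    rw [expi_zero, mul_one]
  have hre0 : ((starRingEnd ℂ) u * lowF b y (w 0)).re = ‖φ₀‖ := by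
    rw [hw0, ← hφ₀, hucφ]
    simp
  have hremono : ∀ s ∈ Icc (0 : ℝ) 1, ‖φ₀‖ ≤ ((starRingEnd ℂ) u * lowF b y (w s)).re := by
    intro s hs
    rw [← hre0, hre, hre]
    refine Summable.tsum_le_tsum (fun j => ?_) (hsumC 0) (hsumC s)
    refine mul_le_mul_of_nonneg_left ?_ (hb j)
    rw [← Real.cos_abs ((1 - 0) * α j), ← Real.cos_abs ((1 - s) * α j)]
    refine Real.cos_le_cos_of_nonneg_of_le_pi (abs_nonneg _) ?_ ?_
    · rw [sub_zero, one_mul]
      exact Complex.abs_arg_le_pi _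
    · rw [abs_mul, sub_zero, one_mul, abs_of_nonneg (by linarith [hs.2] : (0 : ℝ) ≤ 1 - s)]
      exact mul_le_of_le_one_left (abs_nonneg _) (by linarith [hs.1])
  have hslit : ∀ s ∈ Icc (0 : ℝ) 1, (starRingEnd ℂ) u * lowF b y (w s) ∈ Complex.slitPlane := by
    intro s hs
    left
    exact hnφ.trans_le (hremono s hs)
  -- the path of zeros
  set z : ℝ → ℂ := fun s => z₀ - (Complex.log ((starRingEnd ℂ) u * lowF b y (w s)) -
    Complex.log ((starRingEnd ℂ) u * lowF b y (w 0))) with hz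
  have hφc : Continuous fun s => (starRingEnd ℂ) u * lowF b y (w s) :=
    continuous_const.mul ((continuous_lowF hb hbs y).comp hwc)
  have hzc : ContinuousOn z (Icc 0 1) := by
    refine continuousOn_const.sub (ContinuousOn.sub ?_ continuousOn_const)
    exact hφc.continuousOn.clog hslit
  have hucne : (starRingEnd ℂ) u ≠ 0 := by
    intro h1
    rw [h1, zero_mul] at huc
    exact zero_ne_one huc
  have hzero : ∀ s ∈ Icc (0 : ℝ) 1,
      (c : ℂ) * Complex.exp (-(z s)) * (((w s) x : Circle) : ℂ) + lowF b y (w s) = 0 := by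
    intro s hs
    have hwx : (((w s) x : Circle) : ℂ) = ((ω₀ x : Circle) : ℂ) := by
      rw [hw]
      simp only
      rw [DualG.mul_apply, Circle.coe_mul, expi_apply, hLx]
      simp
    have hne1 : (starRingEnd ℂ) u * lowF b y (w s) ≠ 0 := Complex.slitPlane_ne_zero (hslit s hs)
    have hne0 : (starRingEnd ℂ) u * lowF b y (w 0) ≠ 0 :=
      Complex.slitPlane_ne_zero (hslit 0 (left_mem_Icc.2 zero_le_one))
    have h1 : Complex.exp (-(z s)) = Complex.exp (-z₀) *
        (((starRingEnd ℂ) u * lowF b y (w s)) / ((starRingEnd ℂ) u * lowF b y (w 0))) := by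
      have : -(z s) = -z₀ + (Complex.log ((starRingEnd ℂ) u * lowF b y (w s)) -
          Complex.log ((starRingEnd ℂ) u * lowF b y (w 0))) := by
        rw [hz]
        ring
      rw [this, Complex.exp_add, Complex.exp_sub, Complex.exp_log hne1, Complex.exp_log hne0]
    rw [h1, hwx, mul_div_mul_left _ _ hucne, hw0, ← hφ₀]
    have h2 : (c : ℂ) * Complex.exp (-z₀) * ((ω₀ x : Circle) : ℂ) = -φ₀ := by
      linear_combination hA0
    have h3 : (c : ℂ) * (Complex.exp (-z₀) * (lowF b y (w s) / φ₀)) * ((ω₀ x : Circle) : ℂ) =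
        ((c : ℂ) * Complex.exp (-z₀) * ((ω₀ x : Circle) : ℂ)) * (lowF b y (w s) / φ₀) := by ring
    rw [h3, h2]
    field_simp
    ring
  have hz0' : z 0 = z₀ := by
    rw [hz]
    simp
  -- the end point
  have hend : (starRingEnd ℂ) u * lowF b y (w 1) = ((∑' j, b j : ℝ) : ℂ) := by
    rw [hlow]
    have : ∀ j, (b j : ℂ) * Complex.exp (((1 - 1) * α j : ℝ) * Complex.I) = (b j : ℂ) := by
      intro j
      simp
    simp_rw [this]
    rw [Complex.ofReal_tsum]
  have hre1 : (z 1).re ≤ 0 := by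
    have h1 : (z 1).re = z₀.re - (Real.log (∑' j, b j) - Real.log ‖φ₀‖) := by
      rw [hz]
      simp only [Complex.sub_re]
      rw [Complex.log_re, Complex.log_re, hend, hw0, ← hφ₀, hucφ]
      congr 2
      · rw [Complex.norm_real, Real.norm_eq_abs, abs_of_nonneg (tsum_nonneg hb)]
      · rw [Complex.norm_real, norm_norm]
    have h2 : ‖φ₀‖ = c * Real.exp (-z₀.re) := by
      have h3 : φ₀ = -((c : ℂ) * Complex.exp (-z₀) * ((ω₀ x : Circle) : ℂ)) := by
        linear_combination hA0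
      rw [h3, norm_neg, norm_mul, norm_mul, DualG.norm_eval, mul_one, Complex.norm_real,
        Real.norm_eq_abs, abs_of_pos hc, Complex.norm_exp]
      simp
    rw [h1, h2, Real.log_mul hc.ne' (Real.exp_pos _).ne', Real.log_exp]
    have h4 : Real.log c ≤ Real.log (∑' j, b j) := Real.log_le_log hc hcT
    linarith
  refine push_boundary hs hl hc' hA hzc hwc.continuousOn ?_ hre1 hzero ?_ hbd
  · rw [hz0']
    exact hz₀
  · rw [hz0', hw0]
    exact h0

end align

end Pool.Agent.H92
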