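import Mathlib

set_option autoImplicit false

open MeasureTheory Filter Topology

namespace Pool.Agent.H92

/-! ### The compact dual of a discrete additive group -/

/-- characters of an additive group, as a subgroup of all functions to the circle -/
def dualSub (K : Type*) [AddCommGroup K] : Subgroup (K → Circle) where
  carrier := {f | ∀ x y, f (x + y) = f x * f y}
  mul_mem' := by
    intro a b ha hb x y
    simp only [Pi.mul_apply]
    rw [ha x y, hb x y]
    exact mul_mul_mul_comm _ _ _ _
  one_mem' := by
    intro x y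
    simp
  inv_mem' := by
    intro a ha x y
    simp only [Pi.inv_apply]
    rw [ha x y, mul_inv]

/-- the dual group -/
def DualG (K : Type*) [AddCommGroup K] : Type _ := ↥(dualSub K)

section dual

variable {K : Type*} [AddCommGroup K]

noncomputable instance : CommGroup (DualG K) := inferInstanceAs (CommGroup ↥(dualSub K))
instance : TopologicalSpace (DualG K) := inferInstanceAs (TopologicalSpace ↥(dualSub K))
instance : IsTopologicalGroup (DualG K) := inferInstanceAs (IsTopologicalGroup ↥(dualSub K))
instance : T2Space (DualG K) := inferInstanceAs (T2Space ↥(dualSub K))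

theorem isClosed_dualSub : IsClosed (dualSub K : Set (K → Circle)) := by
  have : (dualSub K : Set (K → Circle)) = ⋂ x : K, ⋂ y : K, {f | f (x + y) = f x * f y} := by
    ext f
    simp [dualSub]
  rw [this]
  refine isClosed_iInter fun x => isClosed_iInter fun y => ?_
  exact isClosed_eq (continuous_apply (x + y)) (by fun_prop)

instance : CompactSpace (DualG K) := by
  have h : CompactSpace ↥(dualSub K) := isCompact_iff_compactSpace.1 isClosed_dualSub.isCompact
  exact h

instance : MeasurableSpace (DualG K) := borel _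
instance : BorelSpace (DualG K) := ⟨rfl⟩

instance : CoeFun (DualG K) (fun _ => K → Circle) := ⟨fun ω => ω.1⟩

theorem DualG.map_add (ω : DualG K) (x y : K) : ω (x + y) = ω x * ω y := ω.2 x y

theorem DualG.mul_apply (ω χ : DualG K) (x : K) : (ω * χ) x = ω x * χ x := rfl

theorem DualG.one_apply (x : K) : (1 : DualG K) x = 1 := rfl

theorem DualG.inv_apply (ω : DualG K) (x : K) : (ω⁻¹) x = (ω x)⁻¹ := rfl

theorem DualG.map_zero (ω : DualG K) : ω 0 = 1 := by
  have := ω.map_add 0 0
  rw [add_zero] at this
  exact (mul_eq_left.1 this.symm)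

@[ext] theorem DualG.ext {ω χ : DualG K} (h : ∀ x, ω x = χ x) : ω = χ :=
  Subtype.ext (funext h)

theorem DualG.continuous_eval (x : K) : Continuous fun ω : DualG K => ω x :=
  (continuous_apply x).comp continuous_subtype_val

theorem DualG.continuous_eval' (x : K) : Continuous fun ω : DualG K => ((ω x : Circle) : ℂ) :=
  continuous_subtype_val.comp (DualG.continuous_eval x)

theorem DualG.continuous_of {X : Type*} [TopologicalSpace X] {f : X → DualG K}
    (h : ∀ x, Continuous fun a => (f a) x) : Continuous f :=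
  Continuous.subtype_mk (continuous_pi h) _

theorem DualG.norm_eval (ω : DualG K) (x : K) : ‖((ω x : Circle) : ℂ)‖ = 1 := Circle.norm_coe _

/-- the character `x ↦ exp (i t (ℓ x))` -/
noncomputable def expi (l : K →+ ℝ) (t : ℝ) : DualG K :=
  ⟨fun x => Circle.exp (t * l x), by
    intro x y
    change Circle.exp (t * l (x + y)) = Circle.exp (t * l x) * Circle.exp (t * l y)
    rw [map_add, mul_add, Circle.exp_add]⟩

theorem expi_apply (l : K →+ ℝ) (t : ℝ) (x : K) :
    ((expi l t x : Circle) : ℂ) = Complex.exp ((t * l x : ℝ) * Complex.I) := by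
  change ((Circle.exp (t * l x) : Circle) : ℂ) = _
  rw [Circle.coe_exp]

theorem continuous_expi (l : K →+ ℝ) : Continuous fun t : ℝ => expi l t := by
  refine DualG.continuous_of fun x => ?_
  exact Circle.exp.continuous.comp (continuous_id.mul continuous_const)

theorem expi_zero (l : K →+ ℝ) : expi l 0 = 1 := by
  ext x
  change ((Circle.exp (0 * l x) : Circle) : ℂ) = ((1 : Circle) : ℂ)
  simp

theorem expi_add (l : K →+ ℝ) (s t : ℝ) : expi l (s + t) = expi l s * expi l t := by
  ext x
  change ((Circle.exp ((s + t) * l x) : Circle) : ℂ) = ((Circle.exp (s * l x) * Circle.exp (t * l x) : Circle) : ℂ)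
  rw [add_mul, Circle.exp_add]

/-- normalised Haar measure -/
noncomputable def mu (K : Type*) [AddCommGroup K] : Measure (DualG K) :=
  Measure.haarMeasure ⊤

instance : IsProbabilityMeasure (mu K) := ⟨by
  have := Measure.haarMeasure_self (K₀ := (⊤ : TopologicalSpace.PositiveCompacts (DualG K)))
  simpa [mu] using this⟩

instance : (mu K).IsMulLeftInvariant := by unfold mu; infer_instance
instance : (mu K).IsOpenPosMeasure := by unfold mu; infer_instance

theorem integral_mul_right_mu {E : Type*} [NormedAddCommGroup E] [NormedSpace ℝ E]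
    (f : DualG K → E) (χ : DualG K) :
    ∫ ω, f (ω * χ) ∂(mu K) = ∫ ω, f ω ∂(mu K) := by
  simp_rw [mul_comm _ χ]
  exact integral_mul_left_eq_self f χ

theorem integrable_cont {E : Type*} [NormedAddCommGroup E] [SecondCountableTopology E]
    {f : DualG K → E} (hf : Continuous f) : Integrable f (mu K) := by
  exact hf.integrable_of_hasCompactSupport (HasCompactSupport.of_compactSpace f)

open Classical in
/-- orthogonality -/
theorem integral_char [Module ℚ K] (x : K) :
    ∫ ω : DualG K, ((ω x : Circle) : ℂ) ∂(mu K) = if x = 0 then 1 else 0 := by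
  split_ifs with h
  · subst h
    simp [DualG.map_zero]
  · obtain ⟨l, hl⟩ : ∃ l : K →ₗ[ℚ] ℚ, l x ≠ 0 := by
      have := (Module.forall_dual_apply_eq_zero_iff ℚ x).not.2 h
      push Not at this
      exact this
    have hl' : (((l x : ℚ) : ℝ)) ≠ 0 := by exact_mod_cast hl
    let L : K →+ ℝ := (Rat.castHom ℝ).toAddMonoidHom.comp l.toAddMonoidHom
    have hL : L x = ((l x : ℚ) : ℝ) := rfl
    set χ : DualG K := expi L (Real.pi / (l x : ℚ)) with hχ
    have hχx : ((χ x : Circle) : ℂ) = -1 := by
      rw [hχ, expi_apply, hL, div_mul_cancel₀ _ hl', Complex.exp_pi_mul_I]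
    have h1 := integral_mul_right_mu (fun ω : DualG K => ((ω x : Circle) : ℂ)) χ
    have h2 : (fun ω : DualG K => (((ω * χ) x : Circle) : ℂ)) = fun ω => -((ω x : Circle) : ℂ) := by
      funext ω
      rw [DualG.mul_apply, Circle.coe_mul, hχx]
      ring
    rw [h2, integral_neg] at h1
    have h3 : (2 : ℂ) * ∫ ω : DualG K, ((ω x : Circle) : ℂ) ∂(mu K) = 0 := by
      linear_combination -h1
    exact (mul_eq_zero.1 h3).resolve_left two_ne_zero

end dual

/-! ### Convolution and transforms of summable functions -/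

section conv

variable {G : Type*} [AddCommGroup G]

/-- convolution -/
noncomputable def conv (u v : G → ℂ) (x : G) : ℂ := ∑' r, u r * v (x - r)

/-- the shear `(r, x) ↦ (r, x - r)` -/
def shear (G : Type*) [AddCommGroup G] : G × G ≃ G × G where
  toFun p := (p.1, p.2 - p.1)
  invFun p := (p.1, p.2 + p.1)
  left_inv p := by simp
  right_inv p := by simp

theorem summable_shear {u v : G → ℂ} (hu : Summable fun x => ‖u x‖)
    (hv : Summable fun x => ‖v x‖) :
    Summable fun p : G × G => ‖u p.1 * v (p.2 - p.1)‖ := by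
  have h1 : Summable fun p : G × G => ‖u p.1 * v p.2‖ := by
    simp_rw [norm_mul]
    exact hu.mul_of_nonneg hv (fun _ => norm_nonneg _) (fun _ => norm_nonneg _)
  exact (shear G).summable_iff.2 h1

theorem summable_conv_term {u v : G → ℂ} (hu : Summable fun x => ‖u x‖)
    (hv : Summable fun x => ‖v x‖) (x : G) : Summable fun r => ‖u r * v (x - r)‖ := by
  have h1 := summable_shear hu hv
  have h2 : Function.Injective (fun r : G => (r, x)) := fun a b h => by
    simpa using h
  have h3 := h1.comp_injective h2
  simpa only [Function.comp_def] using h3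

theorem summable_conv {u v : G → ℂ} (hu : Summable fun x => ‖u x‖)
    (hv : Summable fun x => ‖v x‖) : Summable fun x => ‖conv u v x‖ := by
  have h1 := summable_shear hu hv
  have h2 : Summable fun p : G × G => ‖u p.2 * v (p.1 - p.2)‖ :=
    (Equiv.prodComm G G).summable_iff.1 (by simpa [Function.comp_def] using h1)
  have h3 := h2.prod
  refine Summable.of_nonneg_of_le (fun _ => norm_nonneg _) (fun x => ?_) h3
  exact norm_tsum_le_tsum_norm (summable_conv_term hu hv x)

theorem tsum_conv {u v : G → ℂ} (hu : Summable fun x => ‖u x‖)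
    (hv : Summable fun x => ‖v x‖) : ∑' x, conv u v x = (∑' x, u x) * ∑' x, v x := by
  have h1 := summable_shear hu hv
  have h2 : Summable fun p : G × G => u p.2 * v (p.1 - p.2) :=
    Summable.of_norm ((Equiv.prodComm G G).summable_iff.1 (by simpa [Function.comp_def] using h1))
  have h3 : ∑' x, conv u v x = ∑' p : G × G, u p.2 * v (p.1 - p.2) := h2.tsum_prod.symm
  have h4 : ∑' p : G × G, u p.2 * v (p.1 - p.2) = ∑' p : G × G, u p.1 * v (p.2 - p.1) :=
    (Equiv.prodComm G G).tsum_eq (fun p : G × G => u p.1 * v (p.2 - p.1))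
  have h5 : ∑' p : G × G, u p.1 * v (p.2 - p.1) = ∑' p : G × G, u p.1 * v p.2 :=
    (shear G).tsum_eq (fun p : G × G => u p.1 * v p.2)
  rw [h3, h4, h5]
  exact (tsum_mul_tsum_of_summable_norm hu hv).symm

theorem tsum_norm_conv_le {u v : G → ℂ} (hu : Summable fun x => ‖u x‖)
    (hv : Summable fun x => ‖v x‖) :
    ∑' x, ‖conv u v x‖ ≤ (∑' x, ‖u x‖) * ∑' x, ‖v x‖ := by
  have h1 := summable_shear hu hv
  have h2 : Summable fun p : G × G => ‖u p.2 * v (p.1 - p.2)‖ :=
    (Equiv.prodComm G G).summable_iff.1 (by simpa [Function.comp_def] using h1)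
  have h4 : ∑' p : G × G, ‖u p.2 * v (p.1 - p.2)‖ = ∑' p : G × G, ‖u p.1 * v (p.2 - p.1)‖ :=
    (Equiv.prodComm G G).tsum_eq (fun p : G × G => ‖u p.1 * v (p.2 - p.1)‖)
  have h5 : ∑' p : G × G, ‖u p.1 * v (p.2 - p.1)‖ = ∑' p : G × G, ‖u p.1 * v p.2‖ :=
    (shear G).tsum_eq (fun p : G × G => ‖u p.1 * v p.2‖)
  have h6 : ∑' p : G × G, ‖u p.1 * v p.2‖ = (∑' x, ‖u x‖) * ∑' x, ‖v x‖ := by
    simp_rw [norm_mul]
    refine (Summable.tsum_mul_tsum hu hv ?_).symm
    exact hu.mul_of_nonneg hv (fun _ => norm_nonneg _) (fun _ => norm_nonneg _)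
  rw [← h6, ← h5, ← h4, h2.tsum_prod]
  refine Summable.tsum_le_tsum (fun x => ?_) (summable_conv hu hv) h2.prod
  exact norm_tsum_le_tsum_norm (summable_conv_term hu hv x)

theorem conv_mul_char (u v ψ : G → ℂ)
    (hψ : ∀ r s, u r ≠ 0 → v s ≠ 0 → ψ (r + s) = ψ r * ψ s) (x : G) :
    conv (fun r => u r * ψ r) (fun r => v r * ψ r) x = conv u v x * ψ x := by
  unfold conv
  rw [← tsum_mul_right]
  refine tsum_congr fun r => ?_
  by_cases hu : u r = 0
  · simp [hu]
  by_cases hv : v (x - r) = 0
  · simp [hv]
  have := hψ r (x - r) hu hv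
  rw [add_sub_cancel] at this
  rw [this]
  ring

theorem conv_comm (u v : G → ℂ) : conv u v = conv v u := by
  funext x
  unfold conv
  have h := (Equiv.subLeft x).tsum_eq (fun r => u r * v (x - r))
  rw [← h]
  refine tsum_congr fun r => ?_
  simp only [Equiv.subLeft_apply]
  rw [sub_sub_cancel]
  ring

/-- transform of a function -/
noncomputable def ft (u : G → ℂ) (ω : DualG G) : ℂ := ∑' x, u x * ((ω x : Circle) : ℂ)

theorem ft_term_norm (u : G → ℂ) (ω : DualG G) (x : G) :
    ‖u x * ((ω x : Circle) : ℂ)‖ = ‖u x‖ := by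
  rw [norm_mul, DualG.norm_eval, mul_one]

theorem ft_summable {u : G → ℂ} (hu : Summable fun x => ‖u x‖) (ω : DualG G) :
    Summable fun x => u x * ((ω x : Circle) : ℂ) := by
  refine Summable.of_norm ?_
  simpa only [ft_term_norm] using hu

theorem norm_ft_le {u : G → ℂ} (hu : Summable fun x => ‖u x‖) (ω : DualG G) :
    ‖ft u ω‖ ≤ ∑' x, ‖u x‖ := by
  have := norm_tsum_le_tsum_norm (f := fun x => u x * ((ω x : Circle) : ℂ))
    (by simpa only [ft_term_norm] using hu)
  simp only [ft_term_norm] at this
  exact this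

theorem continuous_ft {u : G → ℂ} (hu : Summable fun x => ‖u x‖) : Continuous (ft u) := by
  refine continuous_tsum (fun x => ?_) hu (fun x ω => (ft_term_norm u ω x).le)
  exact continuous_const.mul (DualG.continuous_eval' x)

theorem ft_conv {u v : G → ℂ} (hu : Summable fun x => ‖u x‖)
    (hv : Summable fun x => ‖v x‖) (ω : DualG G) : ft (conv u v) ω = ft u ω * ft v ω := by
  have h := tsum_conv (u := fun x => u x * ((ω x : Circle) : ℂ))
    (v := fun x => v x * ((ω x : Circle) : ℂ)) (by simpa only [ft_term_norm] using hu)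
    (by simpa only [ft_term_norm] using hv)
  unfold ft
  rw [← h]
  refine tsum_congr fun x => ?_
  rw [conv_mul_char u v (fun x => ((ω x : Circle) : ℂ)) (fun r s _ _ => by
    rw [ω.map_add, Circle.coe_mul]) x]

theorem integral_ft [Module ℚ G] {u : G → ℂ} (hu : Summable fun x => ‖u x‖) :
    ∫ ω, ft u ω ∂(mu G) = u 0 := by
  classical
  set S : Set G := Function.support fun x => ‖u x‖ with hS
  have hScount : S.Countable := hu.countable_support
  have : Countable S := hScount.to_subtype
  have h1 : ∀ x : S, Integrable (fun ω : DualG G => u x * ((ω x : Circle) : ℂ)) (mu G) := fun x =>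
    integrable_cont (continuous_const.mul (DualG.continuous_eval' (x : G)))
  have h2 : Summable fun x : S => ∫ ω : DualG G, ‖u x * ((ω x : Circle) : ℂ)‖ ∂(mu G) := by
    simp_rw [ft_term_norm]
    have h0 : Summable fun x : S => ‖u x‖ := hu.comp_injective Subtype.val_injective
    simpa using h0
  have h3 := (hasSum_integral_of_summable_integral_norm h1 h2).tsum_eq
  have h4 : ∀ ω : DualG G, ft u ω = ∑' x : S, u x * ((ω x : Circle) : ℂ) := by
    intro ω
    refine (tsum_subtype_eq_of_support_subset (f := fun x => u x * ((ω x : Circle) : ℂ)) ?_).symm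
    intro x hx
    simp only [hS, Function.mem_support, ne_eq, norm_eq_zero]
    intro h0
    simp [h0] at hx
  simp_rw [h4]
  rw [← h3]
  simp_rw [integral_const_mul, integral_char]
  have h5 : ∑' x : S, u x * (if (x : G) = 0 then (1 : ℂ) else 0)
      = ∑' x : G, u x * (if x = 0 then (1 : ℂ) else 0) := by
    refine tsum_subtype_eq_of_support_subset (f := fun x => u x * (if x = 0 then (1 : ℂ) else 0)) ?_
    intro x hx
    simp only [hS, Function.mem_support, ne_eq, norm_eq_zero]
    intro h0
    simp [h0] at hx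
  rw [h5, tsum_eq_single 0]
  · simp
  · intro x hx
    simp [hx]

end conv

end Pool.Agent.H92
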