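import Pool.Agent.H92.Basic

set_option autoImplicit false

open MeasureTheory Filter Topology

namespace Pool.Agent.H92

/-! ### Scales in a linearly ordered field -/

section scale

variable {K : Type*} [Field K] [LinearOrder K] [IsStrictOrderedRing K]

/-- elements of the form `O(w)` -/
def OO (w : K) : Submodule ℚ K where
  carrier := {x | 0 ≤ ArchimedeanClass.mk (x / w)}
  add_mem' := by
    intro a b ha hb
    change 0 ≤ ArchimedeanClass.mk ((a + b) / w)
    rw [add_div]
    exact (le_min ha hb).trans (ArchimedeanClass.min_le_mk_add _ _)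
  zero_mem' := by
    change 0 ≤ ArchimedeanClass.mk ((0 : K) / w)
    rw [zero_div, ArchimedeanClass.mk_zero]
    exact le_top
  smul_mem' := by
    intro q x hx
    change 0 ≤ ArchimedeanClass.mk ((q • x) / w)
    have : (q • x) / w = (q : K) * (x / w) := by
      rw [Algebra.smul_def, mul_div_assoc]
      simp
    rw [this, ArchimedeanClass.mk_mul]
    exact add_nonneg (ArchimedeanClass.mk_ratCast_nonneg q) hx

theorem mem_OO {w x : K} : x ∈ OO w ↔ 0 ≤ ArchimedeanClass.mk (x / w) := Iff.rfl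

theorem mem_OO_iff {w x : K} (hw : 0 < w) : x ∈ OO w ↔ ∃ n : ℕ, |x| ≤ n * w := by
  rw [mem_OO]
  have h1 : (0 : ArchimedeanClass K) = ArchimedeanClass.mk 1 := by simp
  rw [h1, ArchimedeanClass.mk_le_mk]
  constructor
  · rintro ⟨n, hn⟩
    refine ⟨n, ?_⟩
    rw [abs_one, nsmul_eq_mul, mul_one, abs_div, abs_of_pos hw, div_le_iff₀ hw] at hn
    exact hn
  · rintro ⟨n, hn⟩
    refine ⟨n, ?_⟩
    rw [abs_one, nsmul_eq_mul, mul_one, abs_div, abs_of_pos hw, div_le_iff₀ hw]
    exact hn

/-- standard part of `x / w` as a linear map on `O(w)` -/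
noncomputable def lamAux (w : K) : OO w →ₗ[ℚ] ℝ where
  toFun x := ArchimedeanClass.stdPart ((x : K) / w)
  map_add' := by
    intro a b
    change ArchimedeanClass.stdPart (((a : K) + (b : K)) / w) = _
    rw [add_div, ArchimedeanClass.stdPart_add a.2 b.2]
  map_smul' := by
    intro q x
    change ArchimedeanClass.stdPart ((q • (x : K)) / w) = q • _
    have : (q • (x : K)) / w = (q : K) * ((x : K) / w) := by
      rw [Algebra.smul_def, mul_div_assoc]
      simp
    rw [this, ArchimedeanClass.stdPart_mul (ArchimedeanClass.mk_ratCast_nonneg q) x.2,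
      ArchimedeanClass.stdPart_ratCast, Algebra.smul_def]
    simp

/-- an extension of the standard part of `x / w` to the whole field -/
noncomputable def lam (w : K) : K →ₗ[ℚ] ℝ := (LinearMap.exists_extend (lamAux w)).choose

theorem lam_apply {w x : K} (hx : x ∈ OO w) : lam w x = ArchimedeanClass.stdPart (x / w) := by
  have h := (LinearMap.exists_extend (lamAux w)).choose_spec
  have h2 := congrArg (fun f : OO w →ₗ[ℚ] ℝ => f ⟨x, hx⟩) h
  exact h2

theorem self_mem_OO {w : K} (hw : 0 < w) : w ∈ OO w := by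
  rw [mem_OO_iff hw]
  exact ⟨1, by simp [abs_of_pos hw]⟩

theorem lam_self {w : K} (hw : 0 < w) : lam w w = 1 := by
  rw [lam_apply (self_mem_OO hw), div_self hw.ne', ArchimedeanClass.stdPart_one]

theorem lam_nonneg {w x : K} (hw : 0 < w) (hx : x ∈ OO w) (h0 : 0 ≤ x) : 0 ≤ lam w x := by
  rw [lam_apply hx, ← ArchimedeanClass.stdPart_zero (K := K)]
  refine ArchimedeanClass.stdPart_monotoneOn ?_ hx (div_nonneg h0 hw.le)
  simp

/-- characterisation of infinitesimality relative to `w` -/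
theorem lam_eq_zero_iff {w x : K} (hw : 0 < w) (hx : x ∈ OO w) :
    lam w x = 0 ↔ ∀ n : ℕ, n * |x| < w := by
  rw [lam_apply hx, ArchimedeanClass.stdPart_eq_zero]
  have h1 : (0 : ArchimedeanClass K) = ArchimedeanClass.mk 1 := by simp
  have hx' : 0 ≤ ArchimedeanClass.mk (x / w) := hx
  constructor
  · intro h n
    have h2 : 0 < ArchimedeanClass.mk (x / w) := lt_of_le_of_ne hx' (Ne.symm h)
    rw [h1, ArchimedeanClass.mk_lt_mk] at h2
    have h3 := h2 n
    rw [abs_one, nsmul_eq_mul, abs_div, abs_of_pos hw, mul_div_assoc', div_lt_one hw] at h3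
    exact h3
  · intro h
    refine ne_of_gt ?_
    rw [h1, ArchimedeanClass.mk_lt_mk]
    intro n
    rw [abs_one, nsmul_eq_mul, abs_div, abs_of_pos hw, mul_div_assoc', div_lt_one hw]
    exact h n

/-- convexity of `O(w)` -/
theorem OO_convex {w x y : K} (hw : 0 < w) (hy : y ∈ OO w) (h : |x| ≤ |y|) : x ∈ OO w := by
  rw [mem_OO_iff hw] at hy ⊢
  obtain ⟨n, hn⟩ := hy
  exact ⟨n, h.trans hn⟩

open Classical in
/-- the damping factor `exp (-z st(x/w))` on `O(w)`, zero outside -/
noncomputable def dmp (w : K) (z : ℂ) (x : K) : ℂ :=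
  if x ∈ OO w then Complex.exp (-z * (lam w x : ℂ)) else 0

/-- damping a function -/
noncomputable def damp (w : K) (z : ℂ) (h : K → ℂ) (x : K) : ℂ := h x * dmp w z x

end scale

/-! ### The coefficients -/

/-- coefficients `5,0,1,1,1,1` times `10^{-k}` -/
noncomputable def cf (i : ℕ) : ℝ :=
  (if i % 6 = 0 then 5 else if i % 6 = 1 then 0 else 1) / 10 ^ (i / 6)

/-- the function with value `cf i` at `t i` -/
noncomputable def atoms {G : Type*} (t : ℕ → G) : G → ℂ :=
  Function.extend t (fun i => (cf i : ℂ)) 0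

/-! ### Exact data over a non-archimedean field -/

/-- `g * h = Σ c_i δ_{t_i}` with `t_i ≫ t_{i+1}` for `i ≥ 6 m - 1` -/
structure Exact {K : Type*} [Field K] [LinearOrder K] [IsStrictOrderedRing K]
    (m : ℕ) (t : ℕ → K) (g h : K → ℂ) (B : ℝ) : Prop where
  tpos : ∀ i, 0 < t i
  tanti : StrictAnti t
  tsep : ∀ i, 6 * m ≤ i + 1 → ∀ n : ℕ, (n : K) * t (i + 1) < t i
  g0 : ∀ x < 0, g x = 0
  h0 : ∀ x < 0, h x = 0
  gsum : Summable fun x => ‖g x‖
  hsum : Summable fun x => ‖h x‖
  gB : ∑' x, ‖g x‖ ≤ B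
  hB : ∑' x, ‖h x‖ ≤ B
  prod : conv g h = atoms t

/-- mean of the reciprocal -/
noncomputable def NN {K : Type*} [AddCommGroup K] (F : DualG K → ℂ) : ℝ :=
  ∫ ω, ‖F ω‖⁻¹ ∂(mu K)

end Pool.Agent.H92
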