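import Pool.Agent.H92.Step
import Pool.Agent.H92.Scale

set_option autoImplicit false

open MeasureTheory Filter Topology Set

namespace Pool.Agent.H92

/-- one-dimensional maximum principle for sub-mean functions on the half line -/
theorem submean {M : ℝ → ℝ} (hc : ContinuousOn M (Ici 0)) {C : ℝ} (hb : ∀ σ, 0 ≤ σ → M σ ≤ C)
    (hsub : ∀ σ, 0 < σ → ∀ r, 0 < r → r < σ →
      M σ ≤ (2 * Real.pi)⁻¹ * ∫ θ in (0 : ℝ)..(2 * Real.pi), M (σ + r * Real.cos θ)) :
    ∀ σ, 0 ≤ σ → M σ ≤ M 0 := by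
  intro σ₀ hσ₀
  by_contra hcon
  push Not at hcon
  have hσ₀' : 0 < σ₀ := by
    rcases hσ₀.eq_or_lt with h | h
    · rw [← h] at hcon
      exact absurd hcon (lt_irrefl _)
    · exact h
  set ε : ℝ := (M σ₀ - M 0) / (2 * σ₀) with hε
  have hεpos : 0 < ε := by
    rw [hε]
    exact div_pos (by linarith) (by linarith)
  have hεσ : ε * σ₀ = (M σ₀ - M 0) / 2 := by
    rw [hε]
    field_simp
  set G : ℝ → ℝ := fun σ => M σ - ε * σ with hG
  have hGc : ContinuousOn G (Ici 0) := hc.sub (by fun_prop)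
  have hG0 : G 0 = M 0 := by simp [hG]
  have hGσ : G 0 < G σ₀ := by
    simp only [hG]
    rw [hεσ]
    simp
    linarith
  -- bound for large σ
  obtain ⟨A, hA1, hA2⟩ : ∃ A : ℝ, σ₀ < A ∧ ∀ σ, A ≤ σ → G σ < G 0 := by
    refine ⟨max (σ₀ + 1) ((C - M 0) / ε + 1), ?_, ?_⟩
    · exact lt_of_lt_of_le (by linarith) (le_max_left _ _)
    · intro σ hσ
      have h1 : (C - M 0) / ε + 1 ≤ σ := (le_max_right _ _).trans hσ
      have h2 : σ₀ + 1 ≤ σ := (le_max_left _ _).trans hσ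
      have h3 : M σ ≤ C := hb σ (by linarith)
      have h4 : (C - M 0) < ε * σ := by
        have : (C - M 0) / ε < σ := by linarith
        rw [div_lt_iff₀ hεpos] at this
        linarith
      rw [hG0]
      simp only [hG]
      linarith
  have hA0 : 0 ≤ A := by linarith
  have hGcA : ContinuousOn G (Icc 0 A) := hGc.mono (fun x hx => hx.1)
  obtain ⟨s, hs, hmax⟩ := isCompact_Icc.exists_isMaxOn (nonempty_Icc.2 hA0) hGcA
  have hmax' : ∀ x ∈ Icc 0 A, G x ≤ G s := fun x hx => by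
    have := isMaxOn_iff.1 hmax x hx
    exact this
  have hGs : G 0 < G s := hGσ.trans_le (hmax' σ₀ ⟨hσ₀, hA1.le⟩)
  -- all values are at most G s
  have hall : ∀ x, 0 ≤ x → G x ≤ G s := by
    intro x hx
    rcases le_total x A with h | h
    · exact hmax' x ⟨hx, h⟩
    · exact (hA2 x h).le.trans hGs.le
  -- the smallest maximiser
  set S : Set ℝ := {x | x ∈ Icc 0 A ∧ G s ≤ G x} with hS
  have hSne : S.Nonempty := ⟨s, hs, le_rfl⟩
  have hSc : IsClosed S := by
    have h1 : S = Icc 0 A ∩ G ⁻¹' (Ici (G s)) := by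
      ext x
      simp [hS]
    rw [h1]
    exact hGcA.preimage_isClosed_of_isClosed isClosed_Icc isClosed_Ici
  have hSb : BddBelow S := ⟨0, fun x hx => hx.1.1⟩
  set q := sInf S with hq
  have hqS : q ∈ S := hSc.csInf_mem hSne hSb
  have hq0 : 0 < q := by
    rcases hqS.1.1.eq_or_lt with h | h
    · exfalso
      have h2 := hqS.2
      rw [← h] at h2
      linarith
    · exact h
  set r := q / 2 with hr
  have hr0 : 0 < r := by positivity
  have hrq : r < q := by rw [hr]; linarith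
  have h1 := hsub q hq0 r hr0 hrq
  have hpi := Real.pi_pos
  have harg : ∀ θ : ℝ, 0 ≤ q + r * Real.cos θ := by
    intro θ
    have := Real.neg_one_le_cos θ
    nlinarith
  have hcomp : ContinuousOn (fun θ : ℝ => G (q + r * Real.cos θ)) (Icc 0 (2 * Real.pi)) := by
    refine hGc.comp (f := fun θ : ℝ => q + r * Real.cos θ) (by fun_prop) ?_
    intro θ _
    exact harg θ
  have hcompM : ContinuousOn (fun θ : ℝ => M (q + r * Real.cos θ)) (Icc 0 (2 * Real.pi)) := by
    refine hc.comp (f := fun θ : ℝ => q + r * Real.cos θ) (by fun_prop) ?_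
    intro θ _
    exact harg θ
  have h2 : ∫ θ in (0 : ℝ)..(2 * Real.pi), G (q + r * Real.cos θ) <
      ∫ θ in (0 : ℝ)..(2 * Real.pi), (fun _ : ℝ => G s) θ := by
    refine intervalIntegral.integral_lt_integral_of_continuousOn_of_le_of_exists_lt
      (by positivity) hcomp continuousOn_const (fun θ _ => hall _ (harg θ)) ⟨Real.pi, ?_, ?_⟩
    · constructor <;> linarith
    · rw [Real.cos_pi]
      by_contra hge
      push Not at hge
      have h3 : q + r * -1 ∈ S := by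
        refine ⟨⟨by linarith, ?_⟩, hge⟩
        have := hqS.1.2
        linarith
      have h4 := csInf_le hSb h3
      linarith
  have h3 : ∫ θ in (0 : ℝ)..(2 * Real.pi), G (q + r * Real.cos θ) =
      (∫ θ in (0 : ℝ)..(2 * Real.pi), M (q + r * Real.cos θ)) - 2 * Real.pi * (ε * q) := by
    simp only [hG]
    rw [intervalIntegral.integral_sub]
    · congr 1
      have : ∀ θ : ℝ, ε * (q + r * Real.cos θ) = ε * q + ε * r * Real.cos θ := fun θ => by ring
      simp_rw [this]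
      have e1 : ∫ _ in (0 : ℝ)..(2 * Real.pi), ε * q = 2 * Real.pi * (ε * q) := by
        rw [intervalIntegral.integral_const]
        simp
      have e2 : ∫ θ in (0 : ℝ)..(2 * Real.pi), ε * r * Real.cos θ = 0 := by
        rw [intervalIntegral.integral_const_mul, integral_cos]
        simp
      rw [intervalIntegral.integral_add (by simp) ((Real.continuous_cos.const_mul _).intervalIntegrable _ _),
        e1, e2, add_zero]
    · exact hcompM.intervalIntegrable_of_Icc (by positivity)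
    · exact Continuous.intervalIntegrable (by fun_prop) _ _
  rw [h3, intervalIntegral.integral_const, sub_zero, smul_eq_mul] at h2
  have h4 : G s ≤ G q := hqS.2
  have h5 : G q = M q - ε * q := rfl
  have h6 : (2 * Real.pi)⁻¹ * (∫ θ in (0 : ℝ)..(2 * Real.pi), M (q + r * Real.cos θ)) <
      ε * q + G s := by
    rw [inv_mul_lt_iff₀ (by positivity)]
    nlinarith
  linarith

section mean

variable {K : Type*} [AddCommGroup K]

theorem NN_shift {h : K → ℂ} {l : K →+ ℝ} (z : ℂ) :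
    ∫ ω, ‖GG h l z ω‖⁻¹ ∂(mu K) = ∫ ω, ‖GG h l (z.re : ℂ) ω‖⁻¹ ∂(mu K) := by
  simp_rw [GG_eq_re h l z]
  exact integral_mul_right_mu (fun ω => ‖GG h l (z.re : ℂ) ω‖⁻¹) _

theorem GG_inv_continuousOn {h : K → ℂ} {l : K →+ ℝ} (hs : Summable fun x => ‖h x‖)
    (hl : ∀ x, h x ≠ 0 → 0 ≤ l x) {κ : ℝ} (hκ : 0 < κ)
    (hb : ∀ ω, ∀ z : ℂ, 0 ≤ z.re → κ ≤ ‖GG h l z ω‖) :
    ContinuousOn (fun p : ℂ × DualG K => ‖GG h l p.1 p.2‖⁻¹) ({z | 0 ≤ z.re} ×ˢ univ) := by
  refine (GG_continuousOn hs hl).norm.inv₀ ?_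
  intro p hp
  exact (hκ.trans_le (hb p.2 p.1 hp.1)).ne'

theorem step_integral {h : K → ℂ} {l : K →+ ℝ} (hs : Summable fun x => ‖h x‖)
    (hl : ∀ x, h x ≠ 0 → 0 ≤ l x) {κ : ℝ} (hκ : 0 < κ)
    (hb : ∀ ω, ∀ σ : ℝ, 0 ≤ σ → κ ≤ ‖GG h l σ ω‖) :
    ∀ σ : ℝ, 0 ≤ σ → NN (GG h l σ) ≤ NN (GG h l 0) := by
  have hb' : ∀ ω, ∀ z : ℂ, 0 ≤ z.re → κ ≤ ‖GG h l z ω‖ := by
    intro ω z hz
    rw [GG_eq_re]
    exact hb _ _ hz
  have hinv : ∀ ω, ∀ z : ℂ, 0 ≤ z.re → ‖GG h l z ω‖⁻¹ ≤ κ⁻¹ := fun ω z hz =>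
    inv_anti₀ hκ (hb' ω z hz)
  have hjc := GG_inv_continuousOn hs hl hκ hb'
  -- extended continuous function on `ℝ × DualG K`
  have hcontσ : ∀ z : ℂ, 0 ≤ z.re → Continuous fun ω => ‖GG h l z ω‖⁻¹ := by
    intro z hz
    rw [← continuousOn_univ]
    refine hjc.comp (f := fun ω : DualG K => (z, ω)) (by fun_prop) ?_
    intro ω _
    exact ⟨hz, mem_univ _⟩
  set M : ℝ → ℝ := fun σ => ∫ ω, ‖GG h l (σ : ℂ) ω‖⁻¹ ∂(mu K) with hM
  have hMc : ContinuousOn M (Ici 0) := by
    intro σ hσ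
    refine tendsto_integral_filter_of_dominated_convergence (fun _ => κ⁻¹) ?_ ?_ ?_ ?_
    · filter_upwards [self_mem_nhdsWithin] with x hx
      exact (hcontσ x (by simpa using hx)).aestronglyMeasurable
    · filter_upwards [self_mem_nhdsWithin] with x hx
      refine Eventually.of_forall fun ω => ?_
      rw [norm_inv, norm_norm]
      exact hinv ω x (by simpa using hx)
    · exact integrable_const _
    · refine Eventually.of_forall fun ω => ?_
      have h1 : ContinuousWithinAt (fun x : ℝ => ‖GG h l (x : ℂ) ω‖⁻¹) (Ici 0) σ := by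
        have h2 : ContinuousOn (fun x : ℝ => ‖GG h l (x : ℂ) ω‖⁻¹) (Ici 0) := by
          refine hjc.comp (f := fun x : ℝ => ((x : ℂ), ω)) (Continuous.continuousOn (by fun_prop)) ?_
          intro x hx
          exact ⟨by simpa using hx, mem_univ _⟩
        exact h2 σ hσ
      exact h1
  have hMb : ∀ σ, 0 ≤ σ → M σ ≤ κ⁻¹ := by
    intro σ hσ
    have h1 : M σ ≤ ∫ _ : DualG K, κ⁻¹ ∂(mu K) := by
      refine integral_mono (integrable_cont (hcontσ σ (by simpa using hσ))) (integrable_const _) ?_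
      intro ω
      exact hinv ω σ (by simpa using hσ)
    simpa using h1
  refine submean hMc hMb ?_
  intro σ hσ r hr hrσ
  -- pointwise mean value inequality
  have hre : ∀ θ : ℝ, 0 ≤ (circleMap (σ : ℂ) r θ).re := by
    intro θ
    have h1 : (circleMap (σ : ℂ) r θ).re = σ + r * Real.cos θ := by
      simp [circleMap, Complex.exp_re]
    rw [h1]
    have := Real.neg_one_le_cos θ
    nlinarith
  have hreq : ∀ θ : ℝ, (circleMap (σ : ℂ) r θ).re = σ + r * Real.cos θ := by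
    intro θ
    simp [circleMap, Complex.exp_re]
  have hcontθ : ∀ ω, Continuous fun θ : ℝ => (GG h l (circleMap (σ : ℂ) r θ) ω)⁻¹ := by
    intro ω
    rw [← continuousOn_univ]
    refine ContinuousOn.inv₀ ?_ ?_
    · refine (GG_continuousOn hs hl).comp (f := fun θ : ℝ => (circleMap (σ : ℂ) r θ, ω)) ?_ ?_
      · exact Continuous.continuousOn (by fun_prop)
      · intro θ _
        exact ⟨hre θ, mem_univ _⟩
    · intro θ _
      exact norm_pos_iff.1 (hκ.trans_le (hb' ω _ (hre θ)))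
  have hpt : ∀ ω, ‖GG h l (σ : ℂ) ω‖⁻¹ ≤
      (2 * Real.pi)⁻¹ * ∫ θ in (0 : ℝ)..(2 * Real.pi), ‖GG h l (circleMap (σ : ℂ) r θ) ω‖⁻¹ := by
    intro ω
    have hd : DiffContOnCl ℂ (fun z => (GG h l z ω)⁻¹) (Metric.ball (σ : ℂ) |r|) := by
      have h1 : DiffContOnCl ℂ (fun z => (GG h l z ω)⁻¹) {z : ℂ | 0 < z.re} := by
        refine (GG_diffContOnCl hs hl ω).inv ?_
        intro z hz
        rw [Complex.closure_setOfPred_lt_re] at hz
        exact norm_pos_iff.1 (hκ.trans_le (hb' ω z hz))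
      refine h1.mono ?_
      intro z hz
      rw [Metric.mem_ball, abs_of_pos hr, dist_eq_norm] at hz
      have h2 := Complex.abs_re_le_norm (z - σ)
      rw [Complex.sub_re, Complex.ofReal_re] at h2
      have h3 := abs_lt.1 (h2.trans_lt hz)
      change 0 < z.re
      linarith [h3.1]
    have h1 := hd.circleAverage
    rw [Real.circleAverage_def] at h1
    rw [← norm_inv, ← h1, norm_smul]
    have h2 : ‖(2 * Real.pi)⁻¹‖ = (2 * Real.pi)⁻¹ := by
      rw [Real.norm_eq_abs, abs_of_pos (by positivity)]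
    rw [h2]
    refine mul_le_mul_of_nonneg_left ?_ (by positivity)
    have h3 := intervalIntegral.norm_integral_le_integral_norm (μ := volume)
      (f := fun θ : ℝ => (GG h l (circleMap (σ : ℂ) r θ) ω)⁻¹) (a := 0) (b := 2 * Real.pi)
      (by positivity)
    simpa only [norm_inv] using h3
  -- Fubini
  have hjc2 : Continuous (fun p : DualG K × ℝ => ‖GG h l (circleMap (σ : ℂ) r p.2) p.1‖⁻¹) := by
    rw [← continuousOn_univ]
    refine hjc.comp (f := fun p : DualG K × ℝ => (circleMap (σ : ℂ) r p.2, p.1)) ?_ ?_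
    · exact Continuous.continuousOn (by fun_prop)
    · intro p _
      exact ⟨hre p.2, mem_univ _⟩
  have hint : Integrable (fun p : DualG K × ℝ => ‖GG h l (circleMap (σ : ℂ) r p.2) p.1‖⁻¹)
      ((mu K).prod (volume.restrict (Ioc 0 (2 * Real.pi)))) := by
    refine Integrable.of_bound hjc2.aestronglyMeasurable κ⁻¹ ?_
    refine Eventually.of_forall fun p => ?_
    rw [norm_inv, norm_norm]
    exact hinv _ _ (hre p.2)
  have hfub : ∫ ω, (∫ θ in (0 : ℝ)..(2 * Real.pi), ‖GG h l (circleMap (σ : ℂ) r θ) ω‖⁻¹) ∂(mu K) =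
      ∫ θ in (0 : ℝ)..(2 * Real.pi), M (σ + r * Real.cos θ) := by
    have hle : (0 : ℝ) ≤ 2 * Real.pi := by positivity
    simp_rw [intervalIntegral.integral_of_le hle]
    rw [integral_integral_swap hint]
    refine integral_congr_ae (Eventually.of_forall fun θ => ?_)
    simp only
    rw [NN_shift, hreq]
  have hmono : M σ ≤ ∫ ω, (2 * Real.pi)⁻¹ *
      (∫ θ in (0 : ℝ)..(2 * Real.pi), ‖GG h l (circleMap (σ : ℂ) r θ) ω‖⁻¹) ∂(mu K) := by
    refine integral_mono (integrable_cont (hcontσ σ (by simpa using hσ.le))) ?_ hpt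
    refine Integrable.const_mul ?_ _
    have hle : (0 : ℝ) ≤ 2 * Real.pi := by positivity
    simp_rw [intervalIntegral.integral_of_le hle]
    exact hint.integral_prod_left
  rw [integral_const_mul, hfub] at hmono
  exact hmono

theorem step_integral0 {h : K → ℂ} {l : K →+ ℝ} (hs : Summable fun x => ‖h x‖)
    (hl : ∀ x, h x ≠ 0 → 0 ≤ l x) {κ : ℝ} (hκ : 0 < κ)
    (hb : ∀ ω, ∀ σ : ℝ, 0 ≤ σ → κ ≤ ‖GG h l σ ω‖)
    (hb0 : ∀ ω, κ ≤ ‖ft (part0 h l) ω‖) :
    NN (ft (part0 h l)) ≤ NN (GG h l 0) := by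
  refine le_of_forall_pos_le_add fun ε hε => ?_
  obtain ⟨A, hA0, hA⟩ := GG_tendsto hs hl (ε := ε * κ ^ 2) (by positivity)
  have h1 := step_integral hs hl hκ hb A hA0
  have hAre : 0 ≤ ((A : ℝ) : ℂ).re := by simpa using hA0
  have hc1 : Continuous fun ω => ‖GG h l (A : ℂ) ω‖⁻¹ := by
    refine Continuous.inv₀ ?_ (fun ω => (hκ.trans_le (hb ω A hA0)).ne')
    refine Continuous.norm ?_
    rw [← continuousOn_univ]
    refine (GG_continuousOn hs hl).comp (f := fun ω : DualG K => ((A : ℂ), ω)) (by fun_prop) ?_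
    intro ω _
    exact ⟨hAre, mem_univ _⟩
  have hc0 : Continuous fun ω => ‖ft (part0 h l) ω‖⁻¹ :=
    Continuous.inv₀ (continuous_ft (part0_summable hs)).norm (fun ω => (hκ.trans_le (hb0 ω)).ne')
  have h2 : NN (ft (part0 h l)) ≤ NN (GG h l (A : ℂ)) + ε := by
    have h3 : NN (GG h l (A : ℂ)) + ε = ∫ ω, (‖GG h l (A : ℂ) ω‖⁻¹ + ε) ∂(mu K) := by
      rw [integral_add (integrable_cont hc1) (integrable_const _)]
      simp [NN]
    rw [h3]
    refine integral_mono (integrable_cont hc0) ((integrable_cont hc1).add (integrable_const _)) ?_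
    intro ω
    have h4 := hA (A : ℂ) (by simp) ω
    have h5 := hb ω A hA0
    have h6 := hb0 ω
    have h7 := norm_sub_norm_le (GG h l (A : ℂ) ω) (ft (part0 h l) ω)
    have p1 : 0 < ‖GG h l (A : ℂ) ω‖ := hκ.trans_le h5
    have p2 : 0 < ‖ft (part0 h l) ω‖ := hκ.trans_le h6
    simp only
    have h8 : ‖ft (part0 h l) ω‖⁻¹ - ‖GG h l (A : ℂ) ω‖⁻¹ =
        (‖GG h l (A : ℂ) ω‖ - ‖ft (part0 h l) ω‖) / (‖ft (part0 h l) ω‖ * ‖GG h l (A : ℂ) ω‖) := by
      field_simp
    have h9 : (‖GG h l (A : ℂ) ω‖ - ‖ft (part0 h l) ω‖) / (‖ft (part0 h l) ω‖ * ‖GG h l (A : ℂ) ω‖)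
        ≤ ε := by
      rw [div_le_iff₀ (mul_pos p2 p1)]
      have h10 : κ ^ 2 ≤ ‖ft (part0 h l) ω‖ * ‖GG h l (A : ℂ) ω‖ := by nlinarith
      nlinarith
    linarith
  linarith

end mean

end Pool.Agent.H92
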