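import Pool.Agent.H92.Align
import Pool.Agent.H92.Mean
import Pool.Agent.H92.Fin
import Pool.Agent.H92.Coef

set_option autoImplicit false

open MeasureTheory Filter Topology Set

namespace Pool.Agent.H92

section classes

variable {K : Type*} [Field K] [LinearOrder K] [IsStrictOrderedRing K]

/-- infinitesimals relative to `w` -/
noncomputable def oo (w : K) : Submodule ℚ K := OO w ⊓ LinearMap.ker (lam w)

theorem mem_oo {w x : K} : x ∈ oo w ↔ x ∈ OO w ∧ lam w x = 0 := by
  unfold oo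
  rw [Submodule.mem_inf, LinearMap.mem_ker]

theorem mem_oo_iff {w x : K} (hw : 0 < w) : x ∈ oo w ↔ ∀ n : ℕ, n * |x| < w := by
  rw [mem_oo]
  constructor
  · rintro ⟨h1, h2⟩
    exact (lam_eq_zero_iff hw h1).1 h2
  · intro h
    have h1 : x ∈ OO w := by
      rw [mem_OO_iff hw]
      refine ⟨1, ?_⟩
      have := h 1
      rw [Nat.cast_one, one_mul] at this ⊢
      exact this.le
    exact ⟨h1, (lam_eq_zero_iff hw h1).2 h⟩

/-- convex subspaces -/
def Cvx (C : Submodule ℚ K) : Prop := ∀ x y, y ∈ C → |x| ≤ |y| → x ∈ C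

theorem cvx_OO {w : K} (hw : 0 < w) : Cvx (OO w) := fun _ _ hy h => OO_convex hw hy h

theorem cvx_oo {w : K} (hw : 0 < w) : Cvx (oo w) := by
  intro x y hy h
  rw [mem_oo_iff hw] at hy ⊢
  intro n
  exact (mul_le_mul_of_nonneg_left h (Nat.cast_nonneg n)).trans_lt (hy n)

theorem nat_mul_mem {C : Submodule ℚ K} {x : K} (hx : x ∈ C) (n : ℕ) : (n : K) * x ∈ C := by
  have := C.smul_mem (n : ℚ) hx
  rwa [Algebra.smul_def, eq_ratCast, Rat.cast_natCast] at this

theorem OO_le {C : Submodule ℚ K} (hC : Cvx C) {w : K} (hw : 0 < w) (hwC : w ∈ C) : OO w ≤ C := by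
  intro x hx
  rw [mem_OO_iff hw] at hx
  obtain ⟨n, hn⟩ := hx
  refine hC x (n * w) (nat_mul_mem hwC n) ?_
  rwa [abs_of_nonneg (mul_nonneg (Nat.cast_nonneg n) hw.le)]

theorem le_oo {C : Submodule ℚ K} (hC : Cvx C) {w : K} (hw : 0 < w) (hwC : w ∉ C) : C ≤ oo w := by
  intro x hx
  rw [mem_oo_iff hw]
  intro n
  by_contra hcon
  push Not at hcon
  refine hwC (hC w (n * x) (nat_mul_mem hx n) ?_)
  rw [abs_of_pos hw, abs_mul, Nat.abs_cast]
  exact hcon

theorem oo_le_OO (w : K) : oo w ≤ OO w := inf_le_left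

theorem self_notMem_oo {w : K} (hw : 0 < w) : w ∉ oo w := by
  rw [mem_oo, lam_self hw]
  simp

theorem cvx_add {C : Submodule ℚ K} (hC : Cvx C) {x y : K} (hx : 0 ≤ x) (hy : 0 ≤ y) :
    x + y ∈ C ↔ x ∈ C ∧ y ∈ C := by
  constructor
  · intro h
    constructor
    · refine hC x _ h ?_
      rw [abs_of_nonneg hx, abs_of_nonneg (add_nonneg hx hy)]
      linarith
    · refine hC y _ h ?_
      rw [abs_of_nonneg hy, abs_of_nonneg (add_nonneg hx hy)]
      linarith
  · rintro ⟨h1, h2⟩
    exact C.add_mem h1 h2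

open Classical in
/-- restriction -/
noncomputable def res (C : Submodule ℚ K) (h : K → ℂ) (x : K) : ℂ := if x ∈ C then h x else 0

theorem res_norm_le (C : Submodule ℚ K) (h : K → ℂ) (x : K) : ‖res C h x‖ ≤ ‖h x‖ := by
  unfold res
  split_ifs
  · exact le_rfl
  · simp

theorem res_summable {C : Submodule ℚ K} {h : K → ℂ} (hs : Summable fun x => ‖h x‖) :
    Summable fun x => ‖res C h x‖ :=
  Summable.of_nonneg_of_le (fun _ => norm_nonneg _) (res_norm_le C h) hs

theorem res_support {w : K} (hw : 0 < w) {h : K → ℂ} (h0 : ∀ x < 0, h x = 0) :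
    ∀ x, res (OO w) h x ≠ 0 → 0 ≤ (lam w).toAddMonoidHom x := by
  intro x hx
  unfold res at hx
  split_ifs at hx with h1
  · have h2 : 0 ≤ x := by
      by_contra hcon
      push Not at hcon
      exact hx (h0 x hcon)
    exact lam_nonneg hw h1 h2
  · exact absurd rfl hx

theorem dmp_add_field {w : K} (hw : 0 < w) (z : ℂ) {x y : K} (hx : 0 ≤ x) (hy : 0 ≤ y) :
    dmp w z (x + y) = dmp w z x * dmp w z y := by
  unfold dmp
  have h := cvx_add (cvx_OO hw) hx hy
  by_cases h1 : x ∈ OO w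
  · by_cases h2 : y ∈ OO w
    · rw [if_pos (h.2 ⟨h1, h2⟩), if_pos h1, if_pos h2, ← Complex.exp_add, map_add]
      congr 1
      push_cast
      ring
    · rw [if_neg (fun h3 => h2 (h.1 h3).2), if_neg h2, mul_zero]
  · rw [if_neg (fun h3 => h1 (h.1 h3).1), if_neg h1, zero_mul]

theorem dmp_norm_le {w : K} (hw : 0 < w) {z : ℂ} (hz : 0 ≤ z.re) {x : K} (hx : 0 ≤ x) :
    ‖dmp w z x‖ ≤ 1 := by
  unfold dmp
  split_ifs with h
  · rw [Complex.norm_exp, Real.exp_le_one_iff]
    have h1 := lam_nonneg hw h hx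
    have : (-z * ((lam w x : ℝ) : ℂ)).re = -(z.re * lam w x) := by simp
    rw [this]
    exact neg_nonpos.2 (mul_nonneg hz h1)
  · simp

theorem ft_damp_eq (w : K) (z : ℂ) (h : K → ℂ) (ω : DualG K) :
    ft (damp w z h) ω = GG (res (OO w) h) (lam w).toAddMonoidHom z ω := by
  unfold ft GG
  refine tsum_congr fun x => ?_
  unfold damp dmp res
  split_ifs with h1
  · rfl
  · simp

theorem part0_res (w : K) (h : K → ℂ) :
    part0 (res (OO w) h) (lam w).toAddMonoidHom = res (oo w) h := by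
  classical
  funext x
  unfold part0 res
  by_cases h1 : (lam w).toAddMonoidHom x = 0
  · rw [if_pos h1]
    by_cases h2 : x ∈ OO w
    · rw [if_pos h2, if_pos (mem_oo.2 ⟨h2, h1⟩)]
    · rw [if_neg h2, if_neg (fun h3 => h2 (mem_oo.1 h3).1)]
  · rw [if_neg h1, if_neg (fun h3 => h1 (mem_oo.1 h3).2)]

theorem tsum_atoms_field {t : ℕ → K} (ht : Function.Injective t) (ψ : K → ℂ) :
    ∑' x, atoms t x * ψ x = ∑' i, (cf i : ℂ) * ψ (t i) := by
  have h1 : Function.support (fun x => atoms t x * ψ x) ⊆ Set.range t := by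
    intro x hx
    by_contra hcon
    refine hx ?_
    have : atoms t x = 0 := by
      unfold atoms
      rw [Function.extend_apply' _ _ _ (fun ⟨i, hi⟩ => hcon ⟨i, hi⟩)]
      rfl
    simp [this]
  rw [← ht.tsum_eq h1]
  refine tsum_congr fun i => ?_
  unfold atoms
  rw [ht.extend_apply]

/-- the product formula for semicharacters -/
theorem Exact.prod_mask {m : ℕ} {t : ℕ → K} {g h : K → ℂ} {B : ℝ} (E : Exact m t g h B)
    {ψ : K → ℂ} (hψ : ∀ x y, 0 ≤ x → 0 ≤ y → ψ (x + y) = ψ x * ψ y)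
    (hb : ∀ x, 0 ≤ x → ‖ψ x‖ ≤ 1) (ω : DualG K) :
    ft (fun x => g x * ψ x) ω * ft (fun x => h x * ψ x) ω =
      ∑' i, (cf i : ℂ) * (ψ (t i) * ((ω (t i) : Circle) : ℂ)) := by
  have hg : ∀ x, g x ≠ 0 → 0 ≤ x := fun x hx => by
    by_contra hcon
    push Not at hcon
    exact hx (E.g0 x hcon)
  have hh : ∀ x, h x ≠ 0 → 0 ≤ x := fun x hx => by
    by_contra hcon
    push Not at hcon
    exact hx (E.h0 x hcon)
  have gs : Summable fun x => ‖g x * ψ x‖ := by
    refine Summable.of_nonneg_of_le (fun _ => norm_nonneg _) (fun x => ?_) E.gsum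
    rw [norm_mul]
    by_cases h1 : g x = 0
    · simp [h1]
    · exact mul_le_of_le_one_right (norm_nonneg _) (hb x (hg x h1))
  have hs : Summable fun x => ‖h x * ψ x‖ := by
    refine Summable.of_nonneg_of_le (fun _ => norm_nonneg _) (fun x => ?_) E.hsum
    rw [norm_mul]
    by_cases h1 : h x = 0
    · simp [h1]
    · exact mul_le_of_le_one_right (norm_nonneg _) (hb x (hh x h1))
  rw [← ft_conv gs hs ω]
  have h1 : conv (fun x => g x * ψ x) (fun x => h x * ψ x) = fun x => atoms t x * ψ x := by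
    funext x
    rw [conv_mul_char g h ψ (fun r s hr hs => hψ r s (hg r hr) (hh s hs)) x, E.prod]
  rw [h1]
  unfold ft
  refine Eq.trans ?_ (tsum_atoms_field E.tanti.injective (fun x => ψ x * ((ω x : Circle) : ℂ)))
  exact tsum_congr fun x => by ring

open Classical in
/-- transform of the atoms lying in a subspace -/
noncomputable def Phi (t : ℕ → K) (C : Submodule ℚ K) (ω : DualG K) : ℂ :=
  lowF (fun i => if t i ∈ C then cf i else 0) t ω

theorem Phi_b_nonneg (t : ℕ → K) (C : Submodule ℚ K) [DecidablePred (· ∈ C)] (i : ℕ) :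
    0 ≤ (if t i ∈ C then cf i else 0) := by
  split_ifs
  · exact cf_nonneg i
  · exact le_rfl

theorem Phi_b_summable (t : ℕ → K) (C : Submodule ℚ K) [DecidablePred (· ∈ C)] :
    Summable fun i => (if t i ∈ C then cf i else 0) := by
  refine Summable.of_nonneg_of_le (Phi_b_nonneg t C) (fun i => ?_) cf_summable
  split_ifs
  · exact le_rfl
  · exact cf_nonneg i

theorem continuous_Phi (t : ℕ → K) (C : Submodule ℚ K) : Continuous (Phi t C) := by
  classical
  exact continuous_lowF (Phi_b_nonneg t C) (Phi_b_summable t C) t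

/-- product formula on a convex subspace -/
theorem Exact.prod_res {m : ℕ} {t : ℕ → K} {g h : K → ℂ} {B : ℝ} (E : Exact m t g h B)
    {C : Submodule ℚ K} (hC : Cvx C) (ω : DualG K) :
    ft (res C g) ω * ft (res C h) ω = Phi t C ω := by
  classical
  have h1 := E.prod_mask (ψ := fun x => if x ∈ C then (1 : ℂ) else 0) ?_ ?_ ω
  · have hres : ∀ u : K → ℂ, res C u = fun x => u x * (if x ∈ C then (1 : ℂ) else 0) := by
      intro u
      funext x
      unfold res
      split_ifs <;> simp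
    rw [hres g, hres h, h1]
    unfold Phi lowF
    refine tsum_congr fun i => ?_
    by_cases h2 : t i ∈ C
    · simp [h2]
    · simp [h2]
  · intro x y hx hy
    have h := cvx_add hC hx hy
    by_cases h1 : x ∈ C
    · by_cases h2 : y ∈ C
      · rw [if_pos (h.2 ⟨h1, h2⟩), if_pos h1, if_pos h2, mul_one]
      · rw [if_neg (fun h3 => h2 (h.1 h3).2), if_neg h2, mul_zero]
    · rw [if_neg (fun h3 => h1 (h.1 h3).1), if_neg h1, zero_mul]
  · intro x _
    split_ifs <;> simp

/-- product formula at a class without atoms -/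
theorem Exact.prod_gap {m : ℕ} {t : ℕ → K} {g h : K → ℂ} {B : ℝ} (E : Exact m t g h B)
    {w : K} (hw : 0 < w) (hgap : ∀ i, t i ∈ OO w → cf i ≠ 0 → t i ∈ oo w) {z : ℂ}
    (hz : 0 ≤ z.re) (ω : DualG K) :
    ft (damp w z g) ω * ft (damp w z h) ω = Phi t (oo w) ω := by
  classical
  have h1 := E.prod_mask (ψ := dmp w z) (fun x y hx hy => dmp_add_field hw z hx hy)
    (fun x hx => dmp_norm_le hw hz hx) ω
  unfold damp
  rw [h1]
  unfold Phi lowF
  refine tsum_congr fun i => ?_
  by_cases hc : cf i = 0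
  · simp [hc]
  by_cases h2 : t i ∈ OO w
  · have h3 := hgap i h2 hc
    have h4 : dmp w z (t i) = 1 := by
      unfold dmp
      rw [if_pos h2, (mem_oo.1 h3).2]
      simp
    simp [h3, h4]
  · have h3 : t i ∉ oo w := fun h3 => h2 (mem_oo.1 h3).1
    have h4 : dmp w z (t i) = 0 := by
      unfold dmp
      rw [if_neg h2]
    simp [h3, h4]

/-- positions of the atoms relative to the class of an atom -/
theorem Exact.notMem_OO {m : ℕ} {t : ℕ → K} {g h : K → ℂ} {B : ℝ} (E : Exact m t g h B)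
    {i j : ℕ} (hi : 6 * m ≤ i) (hji : j < i) : t j ∉ OO (t i) := by
  rw [mem_OO_iff (E.tpos i)]
  rintro ⟨n, hn⟩
  rw [abs_of_pos (E.tpos j)] at hn
  obtain ⟨k, rfl⟩ : ∃ k, i = k + 1 := ⟨i - 1, by omega⟩
  have h1 := E.tsep k (by omega) n
  have h2 : t k ≤ t j := E.tanti.antitone (by omega)
  linarith

theorem Exact.mem_oo' {m : ℕ} {t : ℕ → K} {g h : K → ℂ} {B : ℝ} (E : Exact m t g h B)
    {i j : ℕ} (hi : 6 * m ≤ i) (hij : i < j) : t j ∈ oo (t i) := by
  rw [mem_oo_iff (E.tpos i)]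
  intro n
  rw [abs_of_pos (E.tpos j)]
  have h1 := E.tsep i (by omega) n
  have h2 : t j ≤ t (i + 1) := E.tanti.antitone (by omega)
  exact (mul_le_mul_of_nonneg_left h2 (Nat.cast_nonneg n)).trans_lt h1

theorem Exact.mem_oo_iff' {m : ℕ} {t : ℕ → K} {g h : K → ℂ} {B : ℝ} (E : Exact m t g h B)
    {i j : ℕ} (hi : 6 * m ≤ i) : t j ∈ oo (t i) ↔ i < j := by
  constructor
  · intro h1
    by_contra hcon
    push Not at hcon
    rcases hcon.lt_or_eq with h2 | h2
    · exact E.notMem_OO hi h2 (mem_oo.1 h1).1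
    · rw [h2] at h1
      exact self_notMem_oo (E.tpos i) h1
  · exact E.mem_oo' hi

/-- product formula at the class of an atom -/
theorem Exact.prod_atom {m : ℕ} {t : ℕ → K} {g h : K → ℂ} {B : ℝ} (E : Exact m t g h B)
    {i : ℕ} (hi : 6 * m ≤ i) {z : ℂ} (hz : 0 ≤ z.re) (ω : DualG K) :
    ft (damp (t i) z g) ω * ft (damp (t i) z h) ω =
      (cf i : ℂ) * Complex.exp (-z) * ((ω (t i) : Circle) : ℂ) + Phi t (oo (t i)) ω := by
  classical
  have hw := E.tpos i
  have h1 := E.prod_mask (ψ := dmp (t i) z) (fun x y hx hy => dmp_add_field hw z hx hy)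
    (fun x hx => dmp_norm_le hw hz hx) ω
  unfold damp
  rw [h1]
  unfold Phi lowF
  have hsum1 : Summable fun j => (cf j : ℂ) * (dmp (t i) z (t j) * ((ω (t j) : Circle) : ℂ)) := by
    refine Summable.of_norm_bounded cf_summable (fun j => ?_)
    rw [norm_mul, norm_mul, DualG.norm_eval, mul_one, Complex.norm_real, Real.norm_eq_abs,
      abs_of_nonneg (cf_nonneg j)]
    exact mul_le_of_le_one_right (cf_nonneg j) (dmp_norm_le hw hz (E.tpos j).le)
  have hsum2 := lowF_summable (Phi_b_nonneg t (oo (t i))) (Phi_b_summable t (oo (t i))) t ω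
  have h2 : ∀ j, (cf j : ℂ) * (dmp (t i) z (t j) * ((ω (t j) : Circle) : ℂ)) -
      ((if t j ∈ oo (t i) then cf j else 0 : ℝ) : ℂ) * ((ω (t j) : Circle) : ℂ) =
      if j = i then (cf i : ℂ) * Complex.exp (-z) * ((ω (t i) : Circle) : ℂ) else 0 := by
    intro j
    rcases lt_trichotomy j i with h | h | h
    · have h3 := E.notMem_OO hi h
      have h4 : dmp (t i) z (t j) = 0 := by
        unfold dmp
        rw [if_neg h3]
      rw [h4, if_neg (fun h5 => h3 (mem_oo.1 h5).1), if_neg h.ne]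
      simp
    · subst h
      have h4 : dmp (t j) z (t j) = Complex.exp (-z) := by
        unfold dmp
        rw [if_pos (self_mem_OO hw), lam_self hw]
        simp
      rw [h4, if_neg (self_notMem_oo hw), if_pos rfl]
      simp
      ring
    · have h3 := E.mem_oo' hi h
      have h4 : dmp (t i) z (t j) = 1 := by
        unfold dmp
        rw [if_pos (mem_oo.1 h3).1, (mem_oo.1 h3).2]
        simp
      rw [h4, if_pos h3, if_neg h.ne']
      simp
  have h3 : (∑' j, (cf j : ℂ) * (dmp (t i) z (t j) * ((ω (t j) : Circle) : ℂ))) -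
      ∑' j, ((if t j ∈ oo (t i) then cf j else 0 : ℝ) : ℂ) * ((ω (t j) : Circle) : ℂ) =
      (cf i : ℂ) * Complex.exp (-z) * ((ω (t i) : Circle) : ℂ) := by
    rw [← hsum1.tsum_sub hsum2]
    simp_rw [h2]
    rw [tsum_ite_eq]
  linear_combination h3

/-- the sum of the lower coefficients -/
theorem Exact.tsum_lower {m : ℕ} {t : ℕ → K} {g h : K → ℂ} {B : ℝ} (E : Exact m t g h B)
    {i : ℕ} (hi : 6 * m ≤ i) [DecidablePred (· ∈ oo (t i))] :
    ∑' j, (if t j ∈ oo (t i) then cf j else 0) = tl (i + 1) := by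
  have h1 : ∀ j, (if t j ∈ oo (t i) then cf j else 0) = if i < j then cf j else 0 := by
    intro j
    have h := E.mem_oo_iff' (j := j) hi
    by_cases h2 : i < j
    · rw [if_pos h2, if_pos (h.2 h2)]
    · rw [if_neg h2, if_neg (fun h3 => h2 (h.1 h3))]
  simp_rw [h1]
  have hs : Summable fun j => if i < j then cf j else 0 := by
    refine Summable.of_nonneg_of_le (fun j => ?_) (fun j => ?_) cf_summable
    · split_ifs
      · exact cf_nonneg j
      · exact le_rfl
    · split_ifs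
      · exact le_rfl
      · exact cf_nonneg j
  rw [← hs.sum_add_tsum_nat_add (i + 1)]
  have h2 : ∑ j ∈ Finset.range (i + 1), (if i < j then cf j else 0) = 0 := by
    refine Finset.sum_eq_zero fun j hj => ?_
    rw [if_neg]
    have := Finset.mem_range.1 hj
    omega
  rw [h2, zero_add]
  unfold tl
  refine tsum_congr fun j => ?_
  rw [if_pos (by omega)]
  congr 1
  ring

end classes

end Pool.Agent.H92
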