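import Pool.Agent.H92.Steps

set_option autoImplicit false

open MeasureTheory Filter Topology Set

namespace Pool.Agent.H92

section nn

variable {K : Type*} [AddCommGroup K]

theorem NN_le_add {F F' : DualG K → ℂ} (hF : Continuous F) (hF' : Continuous F') {κ δ : ℝ}
    (hκ : 0 < κ) (h1 : ∀ ω, κ ≤ ‖F ω‖) (h2 : ∀ ω, κ ≤ ‖F' ω‖)
    (hd : ∀ ω, ‖F ω - F' ω‖ ≤ δ) : NN F' ≤ NN F + δ / κ ^ 2 := by
  have c1 : Continuous fun ω => ‖F ω‖⁻¹ := hF.norm.inv₀ (fun ω => (hκ.trans_le (h1 ω)).ne')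
  have c2 : Continuous fun ω => ‖F' ω‖⁻¹ := hF'.norm.inv₀ (fun ω => (hκ.trans_le (h2 ω)).ne')
  have h3 : NN F + δ / κ ^ 2 = ∫ ω, (‖F ω‖⁻¹ + δ / κ ^ 2) ∂(mu K) := by
    rw [integral_add (integrable_cont c1) (integrable_const _)]
    simp [NN]
  rw [h3]
  refine integral_mono (integrable_cont c2) ((integrable_cont c1).add (integrable_const _)) ?_
  intro ω
  have p1 : 0 < ‖F ω‖ := hκ.trans_le (h1 ω)
  have p2 : 0 < ‖F' ω‖ := hκ.trans_le (h2 ω)
  have h4 := norm_sub_norm_le (F ω) (F' ω)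
  have h5 := hd ω
  simp only
  have h8 : ‖F' ω‖⁻¹ - ‖F ω‖⁻¹ = (‖F ω‖ - ‖F' ω‖) / (‖F' ω‖ * ‖F ω‖) := by
    field_simp
  have h9 : (‖F ω‖ - ‖F' ω‖) / (‖F' ω‖ * ‖F ω‖) ≤ δ / κ ^ 2 := by
    have hδ : 0 ≤ δ := (norm_nonneg _).trans h5
    have h10 : κ ^ 2 ≤ ‖F' ω‖ * ‖F ω‖ := by
      have := mul_le_mul (h2 ω) (h1 ω) hκ.le (norm_nonneg _)
      nlinarith
    calc (‖F ω‖ - ‖F' ω‖) / (‖F' ω‖ * ‖F ω‖) ≤ δ / (‖F' ω‖ * ‖F ω‖) :=
          div_le_div_of_nonneg_right (by linarith) (mul_pos p2 p1).le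
      _ ≤ δ / κ ^ 2 := div_le_div_of_nonneg_left hδ (by positivity) h10
  linarith

end nn

section descend

variable {K : Type*} [Field K] [LinearOrder K] [IsStrictOrderedRing K]

open Classical in
/-- the discarded mass -/
noncomputable def df (h : K → ℂ) (E : Finset K) (C C' : Submodule ℚ K) (x : K) : ℝ :=
  if x ∈ C ∧ x ∉ C' ∧ x ∉ E then ‖h x‖ else 0

theorem df_nonneg (h : K → ℂ) (E : Finset K) (C C' : Submodule ℚ K) (x : K) :
    0 ≤ df h E C C' x := by
  unfold df
  split_ifs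
  · exact norm_nonneg _
  · exact le_rfl

theorem df_le (h : K → ℂ) (E : Finset K) (C C' : Submodule ℚ K) (x : K) :
    df h E C C' x ≤ ‖h x‖ := by
  unfold df
  split_ifs
  · exact le_rfl
  · exact norm_nonneg _

theorem df_summable {h : K → ℂ} (hs : Summable fun x => ‖h x‖) (E : Finset K)
    (C C' : Submodule ℚ K) : Summable (df h E C C') :=
  Summable.of_nonneg_of_le (df_nonneg h E C C') (df_le h E C C') hs

theorem near {h : K → ℂ} (hs : Summable fun x => ‖h x‖) (h0 : ∀ x < 0, h x = 0)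
    {E : Finset K} {C C' : Submodule ℚ K} (hle : C' ≤ C)
    (hE : ∀ x ∈ E, 0 < x → x ∈ C → x ∈ C') (ω : DualG K) :
    ‖ft (res C h) ω - ft (res C' h) ω‖ ≤ ∑' x, df h E C C' x := by
  classical
  have s1 := ft_summable (res_summable (C := C) hs) ω
  have s2 := ft_summable (res_summable (C := C') hs) ω
  unfold ft
  rw [← s1.tsum_sub s2]
  refine tsum_of_norm_bounded (df_summable hs E C C').hasSum (fun x => ?_)
  rw [← sub_mul, norm_mul, DualG.norm_eval, mul_one]
  unfold res df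
  by_cases h1 : x ∈ C
  · by_cases h2 : x ∈ C'
    · simp [h1, h2]
    · by_cases h3 : h x = 0
      · simp [h3]
      · have h4 : 0 ≤ x := by
          by_contra hcon
          push Not at hcon
          exact h3 (h0 x hcon)
        have h5 : x ≠ 0 := fun h6 => h2 (h6 ▸ C'.zero_mem)
        have h6 : x ∉ E := fun h7 => h2 (hE x h7 (lt_of_le_of_ne h4 (Ne.symm h5)) h1)
        simp [h1, h2, h6]
  · have h2 : x ∉ C' := fun h3 => h1 (hle h3)
    simp [h1, h2]

/-- a class step -/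
def CS (h : K → ℂ) (w : K) : Prop := ∀ κ : ℝ, 0 < κ → (∀ ω, κ ≤ ‖ft (res (OO w) h) ω‖) →
  (∀ ω, κ ≤ ‖ft (res (oo w) h) ω‖) ∧ NN (ft (res (oo w) h)) ≤ NN (ft (res (OO w) h))

theorem descend_fin {h : K → ℂ} (hs : Summable fun x => ‖h x‖) (h0 : ∀ x < 0, h x = 0)
    {E : Finset K} {C' : Submodule ℚ K} (hC' : Cvx C') {κm : ℝ} (hκm : 0 < κm) :
    ∀ n : ℕ, ∀ C : Submodule ℚ K, Cvx C → C' ≤ C →
    (∀ w, 0 < w → w ∈ C → w ∉ C' → CS h w) →
    (∃ T : Finset K, T.card ≤ n ∧ ∀ x ∈ E, 0 < x → x ∈ C → x ∉ C' → x ∈ T) →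
    ∀ κ : ℝ, κm + ∑' x, df h E C C' x ≤ κ → (∀ ω, κ ≤ ‖ft (res C h) ω‖) →
    (∀ ω, κ - ∑' x, df h E C C' x ≤ ‖ft (res C' h) ω‖) ∧
    NN (ft (res C' h)) ≤ NN (ft (res C h)) + (∑' x, df h E C C' x) / κm ^ 2 := by
  classical
  -- the base case
  have base : ∀ C C'' : Submodule ℚ K, C'' ≤ C → (∀ x ∈ E, 0 < x → x ∈ C → x ∈ C'') →
      ∀ κ : ℝ, κm + ∑' x, df h E C C'' x ≤ κ → (∀ ω, κ ≤ ‖ft (res C h) ω‖) →
      (∀ ω, κ - ∑' x, df h E C C'' x ≤ ‖ft (res C'' h) ω‖) ∧
      NN (ft (res C'' h)) ≤ NN (ft (res C h)) + (∑' x, df h E C C'' x) / κm ^ 2 := by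
    intro C C'' hle hE κ hκ hb
    have hn := near hs h0 hle hE
    have hS : 0 ≤ ∑' x, df h E C C'' x := tsum_nonneg (df_nonneg h E C C'')
    have h1 : ∀ ω, κ - ∑' x, df h E C C'' x ≤ ‖ft (res C'' h) ω‖ := by
      intro ω
      have h2 := norm_sub_norm_le (ft (res C h) ω) (ft (res C'' h) ω)
      have h3 := hn ω
      have h4 := hb ω
      linarith
    refine ⟨h1, ?_⟩
    refine NN_le_add (continuous_ft (res_summable hs)) (continuous_ft (res_summable hs)) hκm
      (fun ω => ?_) (fun ω => ?_) hn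
    · have := hb ω
      linarith
    · have := h1 ω
      linarith
  intro n
  induction n with
  | zero =>
    intro C hC hle hCS hT κ hκ hb
    obtain ⟨T, hT1, hT2⟩ := hT
    have hTe : T = ∅ := Finset.card_eq_zero.1 (Nat.le_zero.1 hT1)
    refine base C C' hle ?_ κ hκ hb
    intro x hx h1 h2
    by_contra hcon
    have := hT2 x hx h1 h2 hcon
    rw [hTe] at this
    simp at this
  | succ n ih =>
    intro C hC hle hCS hT κ hκ hb
    obtain ⟨T, hT1, hT2⟩ := hT
    set S := E.filter (fun x => 0 < x ∧ x ∈ C ∧ x ∉ C') with hS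
    by_cases hSe : S = ∅
    · refine base C C' hle ?_ κ hκ hb
      intro x hx h1 h2
      by_contra hcon
      have : x ∈ S := Finset.mem_filter.2 ⟨hx, h1, h2, hcon⟩
      rw [hSe] at this
      simp at this
    · have hSne : S.Nonempty := Finset.nonempty_iff_ne_empty.2 hSe
      set w := S.max' hSne with hw
      have hwS : w ∈ S := S.max'_mem hSne
      obtain ⟨hwE, hw0, hwC, hwC'⟩ := Finset.mem_filter.1 hwS
      have hmax : ∀ x ∈ S, x ≤ w := fun x hx => S.le_max' x hx
      have hOO : OO w ≤ C := OO_le hC hw0 hwC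
      have hoo : C' ≤ oo w := le_oo hC' hw0 hwC'
      have hoO := oo_le_OO w
      -- sums
      have hsplit : ∀ x, df h E C (OO w) x + df h E (oo w) C' x ≤ df h E C C' x := by
        intro x
        unfold df
        by_cases h1 : x ∈ OO w
        · rw [if_neg (fun h2 : x ∈ C ∧ x ∉ OO w ∧ x ∉ E => h2.2.1 h1), zero_add]
          by_cases h2 : x ∈ oo w ∧ x ∉ C' ∧ x ∉ E
          · rw [if_pos h2, if_pos ⟨hOO h1, h2.2⟩]
          · rw [if_neg h2]
            split_ifs
            · exact norm_nonneg _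
            · exact le_rfl
        · have h2 : x ∉ oo w := fun h3 => h1 (hoO h3)
          rw [if_neg (fun h3 : x ∈ oo w ∧ x ∉ C' ∧ x ∉ E => h2 h3.1), add_zero]
          by_cases h3 : x ∈ C ∧ x ∉ OO w ∧ x ∉ E
          · rw [if_pos h3, if_pos ⟨h3.1, fun h4 => h2 (hoo h4), h3.2.2⟩]
          · rw [if_neg h3]
            split_ifs
            · exact norm_nonneg _
            · exact le_rfl
      have hsum : (∑' x, df h E C (OO w) x) + ∑' x, df h E (oo w) C' x ≤ ∑' x, df h E C C' x := by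
        rw [← (df_summable hs E C (OO w)).tsum_add (df_summable hs E (oo w) C')]
        exact Summable.tsum_le_tsum hsplit
          ((df_summable hs E C (OO w)).add (df_summable hs E (oo w) C')) (df_summable hs E C C')
      have n1 : 0 ≤ ∑' x, df h E C (OO w) x := tsum_nonneg (df_nonneg _ _ _ _)
      have n2 : 0 ≤ ∑' x, df h E (oo w) C' x := tsum_nonneg (df_nonneg _ _ _ _)
      -- from C to O(w)
      have a1 := base C (OO w) hOO ?_ κ (by linarith) hb
      · obtain ⟨b1, b2⟩ := a1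
        have hκ1 : 0 < κ - ∑' x, df h E C (OO w) x := by linarith
        obtain ⟨c1, c2⟩ := hCS w hw0 hwC hwC' _ hκ1 b1
        have a2 := ih (oo w) (cvx_oo hw0) hoo
          (fun v hv hv1 hv2 => hCS v hv (hOO (hoO hv1)) hv2) ?_
          (κ - ∑' x, df h E C (OO w) x) (by linarith) c1
        · obtain ⟨d1, d2⟩ := a2
          constructor
          · intro ω
            have := d1 ω
            linarith
          · have h3 : (∑' x, df h E C (OO w) x) / κm ^ 2 + (∑' x, df h E (oo w) C' x) / κm ^ 2 ≤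
                (∑' x, df h E C C' x) / κm ^ 2 := by
              rw [← add_div]
              exact div_le_div_of_nonneg_right hsum (by positivity)
            linarith
        · refine ⟨T.erase w, ?_, ?_⟩
          · have hwT : w ∈ T := hT2 w hwE hw0 hwC hwC'
            rw [Finset.card_erase_of_mem hwT]
            omega
          · intro x hx h1 h2 h3
            refine Finset.mem_erase.2 ⟨?_, hT2 x hx h1 (hOO (hoO h2)) h3⟩
            intro h4
            rw [h4] at h2
            exact self_notMem_oo hw0 h2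
      · intro x hx h1 h2
        by_contra hcon
        have h3 : x ∉ C' := fun h4 => hcon (hoO (hoo h4))
        have h5 := hmax x (Finset.mem_filter.2 ⟨hx, h1, h2, h3⟩)
        refine hcon (cvx_OO hw0 x w (self_mem_OO hw0) ?_)
        rw [abs_of_pos h1, abs_of_pos hw0]
        exact h5

theorem descend {h : K → ℂ} (hs : Summable fun x => ‖h x‖) (h0 : ∀ x < 0, h x = 0)
    {C C' : Submodule ℚ K} (hC : Cvx C) (hC' : Cvx C') (hle : C' ≤ C)
    (hCS : ∀ w, 0 < w → w ∈ C → w ∉ C' → CS h w) {κ : ℝ} (hκ : 0 < κ)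
    (hb : ∀ ω, κ ≤ ‖ft (res C h) ω‖) :
    (∀ ω, κ ≤ ‖ft (res C' h) ω‖) ∧ NN (ft (res C' h)) ≤ NN (ft (res C h)) := by
  classical
  -- for every δ there is a finite set with small discarded mass
  have key : ∀ δ : ℝ, 0 < δ → δ ≤ κ / 2 →
      (∀ ω, κ - δ ≤ ‖ft (res C' h) ω‖) ∧
      NN (ft (res C' h)) ≤ NN (ft (res C h)) + δ / (κ / 2) ^ 2 := by
    intro δ hδ hδκ
    obtain ⟨E, hE⟩ : ∃ E : Finset K, ∑' x, df h E C C' x ≤ δ := by
      have h1 := tendsto_tsum_compl_atTop_zero (fun x => ‖h x‖)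
      obtain ⟨E, hE⟩ := ((tendsto_order.1 h1).2 δ hδ).exists
      refine ⟨E, le_trans ?_ hE.le⟩
      have h2 : ∑' x : {x // x ∉ E}, ‖h x‖ = ∑' x, (if x ∉ E then ‖h x‖ else 0) := by
        have := tsum_subtype (s := {x | x ∉ E}) (f := fun x => ‖h x‖)
        rw [show (∑' x : {x // x ∉ E}, ‖h x‖) = ∑' x : ({x | x ∉ E} : Set K), ‖h x‖ from rfl, this]
        refine tsum_congr fun x => ?_
        simp [Set.indicator]
      rw [h2]
      refine Summable.tsum_le_tsum (fun x => ?_) (df_summable hs E C C') ?_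
      · unfold df
        by_cases h3 : x ∈ E
        · simp [h3]
        · rw [if_pos h3]
          split_ifs
          · exact le_rfl
          · exact norm_nonneg _
      · refine Summable.of_nonneg_of_le (fun x => ?_) (fun x => ?_) hs
        · by_cases h3 : x ∈ E <;> simp [h3]
        · by_cases h3 : x ∈ E <;> simp [h3]
    have h1 := descend_fin hs h0 hC' (E := E) (half_pos hκ) E.card C hC hle hCS
      ⟨E, le_rfl, fun x hx _ _ _ => hx⟩ κ (by linarith) hb
    constructor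
    · intro ω
      have := h1.1 ω
      linarith
    · refine h1.2.trans ?_
      have := div_le_div_of_nonneg_right hE (by positivity : (0 : ℝ) ≤ (κ / 2) ^ 2)
      linarith
  constructor
  · intro ω
    refine le_of_forall_pos_le_add fun ε hε => ?_
    have h1 := (key (min ε (κ / 2)) (lt_min hε (half_pos hκ)) (min_le_right _ _)).1 ω
    have h2 := min_le_left ε (κ / 2)
    linarith
  · refine le_of_forall_pos_le_add fun ε hε => ?_
    have h1 := (key (min (ε * (κ / 2) ^ 2) (κ / 2)) (lt_min (by positivity) (half_pos hκ))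
      (min_le_right _ _)).2
    have h2 := div_le_div_of_nonneg_right (min_le_left (ε * (κ / 2) ^ 2) (κ / 2))
      (by positivity : (0 : ℝ) ≤ (κ / 2) ^ 2)
    rw [mul_div_assoc, div_self (by positivity), mul_one] at h2
    linarith

end descend

end Pool.Agent.H92
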