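import Pool.Agent.H92.Exact1
import Pool.Agent.H32.Dich

set_option autoImplicit false

open MeasureTheory Filter Topology Set

namespace Pool.Agent.H92

section dich

variable {K : Type*} [Field K] [LinearOrder K] [IsStrictOrderedRing K]

theorem cf_add_two_four (m i : ℕ) : cf (6 * m + 2 + (i + 4)) = cf (6 * (m + 1) + i) := by
  congr 1
  ring

theorem Exact.Phi_special {m : ℕ} {t : ℕ → K} {g h : K → ℂ} {B : ℝ} (E : Exact m t g h B)
    (ω : DualG K) : Phi t (oo (t (6 * m))) ω =
      ∑' i, ((cf (6 * m + 2 + i) : ℝ) : ℂ) * ((ω (t (6 * m + 2 + i)) : Circle) : ℂ) := by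
  classical
  have hs := lowF_summable (Phi_b_nonneg t (oo (t (6 * m)))) (Phi_b_summable t (oo (t (6 * m)))) t ω
  unfold Phi lowF
  rw [← hs.sum_add_tsum_nat_add (6 * m + 2)]
  have h1 : ∑ j ∈ Finset.range (6 * m + 2),
      ((if t j ∈ oo (t (6 * m)) then cf j else 0 : ℝ) : ℂ) * ((ω (t j) : Circle) : ℂ) = 0 := by
    refine Finset.sum_eq_zero fun j hj => ?_
    have hj2 := Finset.mem_range.1 hj
    rcases Nat.lt_or_ge (6 * m) j with h2 | h2
    · have h3 : j = 6 * m + 1 := by omega
      rw [h3, cf_sep]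
      simp
    · rw [if_neg (fun h3 => by
        have := (E.mem_oo_iff' le_rfl).1 h3
        omega)]
      simp
  rw [h1, zero_add]
  refine tsum_congr fun j => ?_
  have h2 : j + (6 * m + 2) = 6 * m + 2 + j := by ring
  rw [h2, if_pos (E.mem_oo' le_rfl (by omega))]

theorem exact_dich {m : ℕ} {t : ℕ → K} {g h : K → ℂ} {B : ℝ} (E : Exact m t g h B) :
    (∀ ω, cf (6 * m) / (2 * B) ≤ ‖ft (damp (t (6 * m + 1)) 1 h) ω‖) ∨
    (∀ ω, cf (6 * m) / (2 * B) ≤ ‖ft (damp (t (6 * m + 1)) 1 g) ω‖) := by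
  classical
  by_contra hcon
  push Not at hcon
  obtain ⟨⟨ω₁, h1⟩, ω₂, h2⟩ := hcon
  have hx := E.tpos (6 * m)
  have hzh : ∃ (z : ℂ) (ω : DualG K), 0 < z.re ∧ ft (damp (t (6 * m)) z h) ω = 0 := by
    by_contra hc
    push Not at hc
    have := E.zero_free_bound (fun z ω hz => hc z ω hz) ω₁
    linarith
  have hzg : ∃ (z : ℂ) (ω : DualG K), 0 < z.re ∧ ft (damp (t (6 * m)) z g) ω = 0 := by
    by_contra hc
    push Not at hc
    have := E.symmK.zero_free_bound (fun z ω hz => hc z ω hz) ω₂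
    linarith
  have key := no_both (K := K) (x := t (6 * m)) (y := fun i => t (6 * m + 2 + i))
    (l := lam (t (6 * m))) (a := 1 / 10 ^ m) (b := fun i => cf (6 * m + 2 + i))
    (g := res (OO (t (6 * m))) g) (h := res (OO (t (6 * m))) h)
    (lam_self hx) (fun i => (mem_oo.1 (E.mem_oo' le_rfl (by omega))).2) ?_ (by positivity)
    (fun i => cf_nonneg _) (summable_tl _) ?_ ?_ ?_ (res_summable E.gsum) (res_summable E.hsum)
    (res_support hx E.g0) (res_support hx E.h0) ?_
  · refine key ⟨?_, ?_⟩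
    · obtain ⟨z, ω, hz, h0⟩ := hzg
      refine ⟨z, ω, hz, ?_⟩
      rwa [ft_damp_eq] at h0
    · obtain ⟨z, ω, hz, h0⟩ := hzh
      refine ⟨z, ω, hz, ?_⟩
      rwa [ft_damp_eq] at h0
  · have hli := li_t_shift (6 * m) E.tpos (fun i hi n => E.tsep i (by omega) n)
    have hinj : Function.Injective (fun o : Option ℕ => o.elim 0 (fun i => 2 + i)) := by
      rintro (_ | i) (_ | j) hij
      · rfl
      · simp at hij
        omega
      · simp at hij
      · simp at hij
        rw [hij]
    have h3 := hli.comp _ hinj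
    have h4 : ((fun i => t (6 * m + i)) ∘ fun o : Option ℕ => o.elim 0 (fun i => 2 + i)) =
        fun o : Option ℕ => o.elim (t (6 * m)) (fun i => t (6 * m + 2 + i)) := by
      funext o
      cases o with
      | none => rfl
      | some i =>
        simp only [Function.comp_apply, Option.elim]
        congr 1
        ring
    rw [← h4]
    exact h3
  · intro i hi
    have : 6 * m + 2 + i = 6 * m + (2 + i) := by ring
    rw [this, cf_mul6_add]
    interval_cases i
    · rw [cf_2]
    · rw [cf_3]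
    · rw [cf_4]
    · rw [cf_5]
  · have h5 : ∀ i, cf (6 * m + 2 + (i + 4)) = cf (6 * (m + 1) + i) := cf_add_two_four m
    simp_rw [h5]
    have h6 : ∑' i, cf (6 * (m + 1) + i) = tl (6 * (m + 1)) := rfl
    rw [h6]
    have h7 := tl_mul6_add (m + 1) 0
    rw [add_zero, tl_0] at h7
    rw [h7, pow_succ]
    field_simp
  · intro ε hε
    obtain ⟨n, hn⟩ := exists_pow_lt_of_lt_one (show 0 < ε / 5 by positivity)
      (show (1 / 10 : ℝ) < 1 by norm_num)
    refine ⟨6 * (n + 1) - 2 + 6 * 0, by omega, ?_⟩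
    have h8 : 6 * m + 2 + (6 * (n + 1) - 2 + 6 * 0) = 6 * (m + n + 1) := by omega
    rw [h8, cf_six_mul]
    refine ⟨by positivity, ?_⟩
    have h9 : (5 : ℝ) / 10 ^ (m + n + 1) ≤ 5 * (1 / 10) ^ n := by
      rw [one_div, inv_pow, ← div_eq_mul_inv]
      refine div_le_div_of_nonneg_left (by norm_num) (by positivity) ?_
      exact pow_le_pow_right₀ (by norm_num) (by omega)
    linarith
  · intro z hz ω
    have h10 := E.prod_atom le_rfl hz ω
    rw [ft_damp_eq, ft_damp_eq, E.Phi_special ω] at h10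
    rw [h10, cf_six_mul]
    push_cast
    ring

end dich

end Pool.Agent.H92
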