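import Pool.Agent.H92.Descend

set_option autoImplicit false

open MeasureTheory Filter Topology Set

namespace Pool.Agent.H92

section exact

variable {K : Type*} [Field K] [LinearOrder K] [IsStrictOrderedRing K]

theorem Exact.symmK {m : ℕ} {t : ℕ → K} {g h : K → ℂ} {B : ℝ} (E : Exact m t g h B) :
    Exact m t h g B where
  tpos := E.tpos
  tanti := E.tanti
  tsep := E.tsep
  g0 := E.h0
  h0 := E.g0
  gsum := E.hsum
  hsum := E.gsum
  gB := E.hB
  hB := E.gB
  prod := by rw [conv_comm, E.prod]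

theorem damp_zero_eq (w : K) (h : K → ℂ) :
    ft (damp w ((0 : ℝ) : ℂ) h) = ft (res (OO w) h) := by
  funext ω
  rw [ft_damp_eq, Complex.ofReal_zero, GG_zero]

/-- class step at an arbitrary class in the window -/
theorem Exact.cs {m : ℕ} {t : ℕ → K} {g h : K → ℂ} {B : ℝ} (E : Exact m t g h B)
    {w : K} (hw : 0 < w) (hwC : w ∈ OO (t (6 * m))) {i₁ : ℕ} (hi₁ : cf i₁ ≠ 0)
    (hlow : t i₁ ∈ oo w) : CS h w := by
  intro κ hκ hb
  have hOOm : OO w ≤ OO (t (6 * m)) := OO_le (cvx_OO (E.tpos _)) hw hwC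
  have hidx : ∀ i, t i ∈ OO w → 6 * m ≤ i := by
    intro i hi
    by_contra hcon
    push Not at hcon
    exact E.notMem_OO le_rfl hcon (hOOm hi)
  by_cases hex : ∃ i, t i ∈ OO w ∧ cf i ≠ 0 ∧ t i ∉ oo w
  · obtain ⟨i, h1, h2, h3⟩ := hex
    have hti := E.tpos i
    have hi := hidx i h1
    have hwi : w ∈ OO (t i) := by
      rw [mem_oo_iff hw] at h3
      push Not at h3
      obtain ⟨n, hn⟩ := h3
      rw [mem_OO_iff hti]
      refine ⟨n, ?_⟩
      rwa [abs_of_pos hw, ← abs_of_pos hti]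
    have e1 : OO w = OO (t i) :=
      le_antisymm (OO_le (cvx_OO hti) hw hwi) (OO_le (cvx_OO hw) hti h1)
    have hwoo : w ∉ oo (t i) := by
      intro h4
      rw [mem_oo_iff hti] at h4
      rw [mem_OO_iff hw] at h1
      obtain ⟨n, hn⟩ := h1
      have := h4 n
      rw [abs_of_pos hti] at hn
      rw [abs_of_pos hw] at this
      linarith
    have e2 : oo w = oo (t i) :=
      le_antisymm (le_oo (cvx_oo hw) hti h3) (le_oo (cvx_oo hti) hw hwoo)
    rw [e1] at hb ⊢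
    rw [e2]
    exact E.atom_step hi (lt_of_le_of_ne (cf_nonneg i) (Ne.symm h2)) hκ hb
  · push Not at hex
    have hdense := E.Phi_dense (C := oo w) (fun i hi => hidx i (oo_le_OO w hi)) hlow hi₁
    have hb' : ∀ ω, κ ≤ ‖ft (damp w ((0 : ℝ) : ℂ) h) ω‖ := by
      rw [damp_zero_eq]
      exact hb
    have h1 := E.gap_step hw hex hdense le_rfl hκ hb'
    rw [damp_zero_eq] at h1
    exact ⟨h1.2.1, h1.2.2.2⟩

theorem cf_sep (m : ℕ) : cf (6 * m + 1) = 0 := by
  rw [cf_mul6_add, cf_1, zero_div]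

theorem cf_six_mul_two (m : ℕ) : cf (6 * m + 2) ≠ 0 := by
  rw [cf_mul6_add, cf_2]
  positivity

/-- the gap condition at a separator -/
theorem Exact.sep_gap {m : ℕ} {t : ℕ → K} {g h : K → ℂ} {B : ℝ} (E : Exact m t g h B)
    {k : ℕ} (hk : m ≤ k) : ∀ i, t i ∈ OO (t (6 * k + 1)) → cf i ≠ 0 → t i ∈ oo (t (6 * k + 1)) := by
  intro i h1 h2
  rcases lt_trichotomy i (6 * k + 1) with h | h | h
  · exact absurd h1 (E.notMem_OO (by omega) h)
  · rw [h, cf_sep] at h2
    exact absurd rfl h2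
  · exact E.mem_oo' (by omega) h

theorem Exact.sep_dense {m : ℕ} {t : ℕ → K} {g h : K → ℂ} {B : ℝ} (E : Exact m t g h B)
    {k : ℕ} (hk : m ≤ k) : ∀ ω, ∀ U ∈ 𝓝 ω, ∃ ω' ∈ U,
      ω' ∈ {ω | Phi t (oo (t (6 * k + 1))) ω ≠ 0} := by
  refine E.Phi_dense (i₁ := 6 * k + 2) ?_ (E.mem_oo' (by omega) (by omega)) (cf_six_mul_two k)
  intro i hi
  have := (E.mem_oo_iff' (by omega)).1 hi
  omega

/-- from a convex subspace above a separator down to the separator at damping one -/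
theorem Exact.to_sep {m : ℕ} {t : ℕ → K} {g h : K → ℂ} {B : ℝ} (E : Exact m t g h B)
    {k : ℕ} (hk : m ≤ k) {C : Submodule ℚ K} (hC : Cvx C) (hC1 : C ≤ OO (t (6 * m)))
    (hC2 : OO (t (6 * k + 1)) ≤ C) {κ : ℝ} (hκ : 0 < κ) (hb : ∀ ω, κ ≤ ‖ft (res C h) ω‖) :
    (∀ ω, κ ≤ ‖ft (damp (t (6 * k + 1)) 1 h) ω‖) ∧
    NN (ft (damp (t (6 * k + 1)) 1 h)) ≤ NN (ft (res C h)) := by
  have hp := E.tpos (6 * k + 1)
  obtain ⟨d1, d2⟩ := descend E.hsum E.h0 hC (cvx_OO hp) hC2 (fun w hw hw1 hw2 => by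
    refine E.cs hw (hC1 hw1) (cf_six_mul_two k) ?_
    exact le_oo (cvx_OO hp) hw hw2 (oo_le_OO _ (E.mem_oo' (by omega) (by omega)))) hκ hb
  have d1' : ∀ ω, κ ≤ ‖ft (damp (t (6 * k + 1)) ((0 : ℝ) : ℂ) h) ω‖ := by
    rw [damp_zero_eq]
    exact d1
  have h1 := E.gap_step hp (E.sep_gap hk) (E.sep_dense hk) le_rfl hκ d1'
  rw [damp_zero_eq] at h1
  have e1 := h1.1 1 zero_le_one
  have e2 := h1.2.2.1 1 zero_le_one
  rw [Complex.ofReal_one] at e1 e2
  exact ⟨e1, e2.trans d2⟩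

theorem exact_descent {m : ℕ} {t : ℕ → K} {g h : K → ℂ} {B κ : ℝ} (E : Exact m t g h B)
    (hκ : 0 < κ) (hh : ∀ ω, κ ≤ ‖ft (damp (t (6 * m + 1)) 1 h) ω‖) :
    (∀ ω, κ ≤ ‖ft (damp (t (6 * (m + 1) + 1)) 1 h) ω‖) ∧
    NN (ft (damp (t (6 * (m + 1) + 1)) 1 h)) ≤ NN (ft (damp (t (6 * m + 1)) 1 h)) := by
  have hp := E.tpos (6 * m + 1)
  have hh' : ∀ ω, κ ≤ ‖ft (damp (t (6 * m + 1)) ((1 : ℝ) : ℂ) h) ω‖ := by
    rw [Complex.ofReal_one]
    exact hh
  have h1 := E.gap_step hp (E.sep_gap le_rfl) (E.sep_dense le_rfl) zero_le_one hκ hh'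
  obtain ⟨_, h2, _, h4⟩ := h1
  rw [Complex.ofReal_one] at h4
  have hpC : oo (t (6 * m + 1)) ≤ OO (t (6 * m)) := by
    refine (oo_le_OO _).trans (OO_le (cvx_OO (E.tpos _)) hp ?_)
    exact oo_le_OO _ (E.mem_oo' le_rfl (by omega))
  have hp'C : OO (t (6 * (m + 1) + 1)) ≤ oo (t (6 * m + 1)) :=
    OO_le (cvx_oo hp) (E.tpos _) (E.mem_oo' (by omega) (by omega))
  obtain ⟨d1, d2⟩ := E.to_sep (k := m + 1) (by omega) (cvx_oo hp) hpC hp'C hκ h2
  exact ⟨d1, d2.trans h4⟩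

/-- if `h` has no zeros at the special scale, it is bounded below at the separator -/
theorem Exact.zero_free_bound {m : ℕ} {t : ℕ → K} {g h : K → ℂ} {B : ℝ} (E : Exact m t g h B)
    (hnz : ∀ (z : ℂ) (ω : DualG K), 0 < z.re → ft (damp (t (6 * m)) z h) ω ≠ 0) :
    ∀ ω, cf (6 * m) / (2 * B) ≤ ‖ft (damp (t (6 * m + 1)) 1 h) ω‖ := by
  classical
  have hx := E.tpos (6 * m)
  have hc : 0 < cf (6 * m) := by
    rw [cf_six_mul]
    positivity
  set l : K →+ ℝ := (lam (t (6 * m))).toAddMonoidHom with hl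
  have hdense : ∀ ω, ∀ U ∈ 𝓝 ω, ∃ ω' ∈ U, ω' ∈ {ω | Phi t (oo (t (6 * m))) ω ≠ 0} := by
    refine E.Phi_dense (i₁ := 6 * m + 2) ?_ (E.mem_oo' le_rfl (by omega)) (cf_six_mul_two m)
    intro i hi
    have := (E.mem_oo_iff' le_rfl).1 hi
    omega
  have hgB : ∀ (C : Submodule ℚ K) ω, ‖ft (res C g) ω‖ ≤ B := by
    intro C ω
    refine (norm_ft_le (res_summable E.gsum) ω).trans (le_trans ?_ E.gB)
    exact Summable.tsum_le_tsum (res_norm_le C g) (res_summable E.gsum) E.gsum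
  have hB : 0 < B := by
    obtain ⟨ω, _, hω⟩ := hdense 1 univ univ_mem
    have h1 := E.prod_res (cvx_oo hx) ω
    by_contra hcon
    push Not at hcon
    have h2 := hgB (oo (t (6 * m))) ω
    have h3 : ft (res (oo (t (6 * m))) g) ω = 0 := norm_le_zero_iff.1 (h2.trans hcon)
    rw [h3, zero_mul] at h1
    exact hω h1.symm
  have hκ : 0 < cf (6 * m) / (2 * B) := by positivity
  have hsup := res_support hx E.h0
  have hs := res_summable (C := OO (t (6 * m))) E.hsum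
  have key : ∀ ω ∈ {ω | Phi t (oo (t (6 * m))) ω ≠ 0},
      cf (6 * m) / (2 * B) ≤ ‖ft (res (oo (t (6 * m))) h) ω‖ := by
    intro ω hω
    have hω' : Phi t (oo (t (6 * m))) ω ≠ 0 := hω
    rcases le_total ‖Phi t (oo (t (6 * m))) ω‖ (cf (6 * m) / 2) with hsm | hlg
    · rw [← part0_res]
      refine (step_pointwise hs hsup hκ ?_ ?_ ?_).2
      · intro ω' hω'' σ hσ
        rcases hσ.eq_or_lt with h1 | h1
        · intro h0
          have h2 := E.prod_atom le_rfl (z := (σ : ℂ)) (by simpa using hσ) ω'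
          rw [ft_damp_eq (t (6 * m)) σ h, h0, mul_zero, Phi_congr hω'', ← h1] at h2
          have h3 : ‖(cf (6 * m) : ℂ) * Complex.exp (-((0 : ℝ) : ℂ)) *
              ((ω' (t (6 * m)) : Circle) : ℂ)‖ = cf (6 * m) := by
            rw [norm_mul, norm_mul, DualG.norm_eval, mul_one, Complex.norm_real,
              Real.norm_eq_abs, abs_of_pos hc]
            simp
          have h4 : (cf (6 * m) : ℂ) * Complex.exp (-((0 : ℝ) : ℂ)) *
              ((ω' (t (6 * m)) : Circle) : ℂ) = -Phi t (oo (t (6 * m))) ω := by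
            linear_combination -h2
          rw [h4, norm_neg] at h3
          linarith
        · have := hnz (σ : ℂ) ω' (by simpa using h1)
          rwa [ft_damp_eq] at this
      · intro h0
        rw [part0_res] at h0
        have h1 := E.prod_res (cvx_oo hx) ω
        rw [h0, mul_zero] at h1
        exact hω' h1.symm
      · intro ω' hω''
        have h2 := E.prod_atom le_rfl (z := 0) (by simp) ω'
        rw [ft_damp_eq (t (6 * m)) 0 h, ft_damp_eq (t (6 * m)) 0 g, Phi_congr hω'',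
          GG_zero (res (OO (t (6 * m))) g)] at h2
        have h3 : ‖(cf (6 * m) : ℂ) * Complex.exp (-0) *
            ((ω' (t (6 * m)) : Circle) : ℂ)‖ = cf (6 * m) := by
          rw [norm_mul, norm_mul, DualG.norm_eval, mul_one, Complex.norm_real,
            Real.norm_eq_abs, abs_of_pos hc]
          simp
        have h4 := norm_sub_norm_le ((cf (6 * m) : ℂ) * Complex.exp (-0) *
            ((ω' (t (6 * m)) : Circle) : ℂ)) (-Phi t (oo (t (6 * m))) ω)
        rw [sub_neg_eq_add, ← h2, h3, norm_neg, norm_mul] at h4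
        have h5 := hgB (OO (t (6 * m))) ω'
        have h6 : cf (6 * m) / 2 ≤ B * ‖GG (res (OO (t (6 * m))) h) l 0 ω'‖ := by
          have h7 := mul_le_mul_of_nonneg_right h5 (norm_nonneg (GG (res (OO (t (6 * m))) h) l 0 ω'))
          linarith
        rw [div_le_iff₀ (by positivity)]
        linarith
    · have h1 := E.prod_res (cvx_oo hx) ω
      have h2 : ‖ft (res (oo (t (6 * m))) g) ω‖ * ‖ft (res (oo (t (6 * m))) h) ω‖ =
          ‖Phi t (oo (t (6 * m))) ω‖ := by rw [← norm_mul, h1]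
      have h3 := hgB (oo (t (6 * m))) ω
      have h4 := mul_le_mul_of_nonneg_right h3 (norm_nonneg (ft (res (oo (t (6 * m))) h) ω))
      rw [div_le_iff₀ (by positivity)]
      linarith
  have hall := lower_of_dense (continuous_ft (res_summable (C := oo (t (6 * m))) E.hsum)) hdense key
  have hpC : OO (t (6 * m + 1)) ≤ oo (t (6 * m)) :=
    OO_le (cvx_oo hx) (E.tpos _) (E.mem_oo' le_rfl (by omega))
  exact (E.to_sep le_rfl (cvx_oo hx) (oo_le_OO _) hpC hκ hall).1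

end exact

end Pool.Agent.H92
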