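import Mathlib

/-!
# The Kakeya inequality for families with few transversal crossing heights

Outline.  Let `m` be the multiplicity of the family.  Tubes through a point `x` of `T_i` whose angle
with `T_i` is below `θ` number at most `G (θ/δ)^d` (`near_card`).  So `m x > lam` forces, with
`θ = δ (lam/2G)^(1/d)`, at least `lam/2` tubes through `x` at angle at least `θ`, and by hypothesis such
points of `T_i` have total measure at most `κ N δ^(d+1)/θ` (`weak_bound`).  This weak bound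
`lam^(-1/d)` is integrated against `lam^(q-2)` up to `lam = N` (`lint_bound`).
Two families of examples follow the theorem: `hubs` (crossing heights covered by few intervals) and
`monotone` (monotone pairing of the points on two parallel hyperplanes, which has two crossing heights).
-/

open MeasureTheory ENNReal
open scoped RealInnerProductSpace

namespace Pool.Agent.H92.FewCrossings

abbrev E (d : ℕ) := EuclideanSpace ℝ (Fin (d + 1))

def tube {d : ℕ} (δ : ℝ) (c e : E d) : Set (E d) :=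
  {x | |⟪x - c, e⟫| ≤ 1 / 2 ∧ ‖(x - c) - ⟪x - c, e⟫ • e‖ ≤ δ}

lemma measurableSet_tube {d : ℕ} (δ : ℝ) (c e : E d) : MeasurableSet (tube δ c e) := by
  have h1 : IsClosed {x : E d | |⟪x - c, e⟫| ≤ 1 / 2} :=
    isClosed_le (by fun_prop) continuous_const
  have h2 : IsClosed {x : E d | ‖(x - c) - ⟪x - c, e⟫ • e‖ ≤ δ} :=
    isClosed_le (by fun_prop) continuous_const
  exact (h1.inter h2).measurableSet

/-- the box set in coordinates -/
lemma lintegral_tube {d : ℕ} (δ : ℝ) (hδ : 0 ≤ δ) (c e : E d) (he : ‖e‖ = 1) (φ : ℝ → ℝ≥0∞)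
    (hφ : Measurable φ) :
    ∫⁻ x in tube δ c e, φ ⟪x - c, e⟫ ≤
      ENNReal.ofReal ((2 * δ) ^ d) * ∫⁻ s in Set.Icc (-(1 / 2) : ℝ) (1 / 2), φ s := by
  classical
  -- orthonormal basis with first vector e
  obtain ⟨b, hb⟩ : ∃ b : OrthonormalBasis (Fin (d + 1)) ℝ (E d), b 0 = e := by
    have h0 : Orthonormal ℝ (({0} : Set (Fin (d + 1))).domRestrict (fun _ : Fin (d + 1) => e)) := by
      constructor
      · intro i; exact he
      · intro i j hij
        exact absurd (Subtype.ext (i.2.trans j.2.symm)) hij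
    obtain ⟨b, hb⟩ := Orthonormal.exists_orthonormalBasis_extension_of_card_eq
      (𝕜 := ℝ) (E := E d) (ι := Fin (d + 1)) (by simp) h0
    exact ⟨b, hb 0 rfl⟩
  -- the coordinate map
  let T : E d → ℝ × (Fin d → ℝ) := fun x =>
    MeasurableEquiv.piFinSuccAbove (fun _ => ℝ) 0 ((MeasurableEquiv.toLp 2 (Fin (d + 1) → ℝ)).symm (b.repr (x - c)))
  have hT : MeasurePreserving T volume volume := by
    have h1 : MeasurePreserving (fun x : E d => x - c) volume volume := measurePreserving_sub_right volume c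
    have h2 := b.measurePreserving_repr
    have h3 := EuclideanSpace.volume_preserving_symm_measurableEquiv_toLp (Fin (d + 1))
    have h4 := volume_preserving_piFinSuccAbove (fun _ : Fin (d + 1) => ℝ) 0
    exact h4.comp (h3.comp (h2.comp h1))
  have hT1 : ∀ x, (T x).1 = ⟪x - c, e⟫ := by
    intro x
    have : (T x).1 = b.repr (x - c) 0 := rfl
    rw [this, b.repr_apply_apply, hb, real_inner_comm]
  have hT2 : ∀ x, ∀ i, (T x).2 i = b.repr (x - c) i.succ := by
    intro x i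
    rfl
  -- box
  let g : ℝ × (Fin d → ℝ) → ℝ≥0∞ := fun z =>
    (Set.Icc (-(1 / 2) : ℝ) (1 / 2)).indicator φ z.1 * (Set.pi Set.univ (fun _ : Fin d => Set.Icc (-δ) δ)).indicator 1 z.2
  have hmeasA : MeasurableSet (Set.Icc (-(1 / 2) : ℝ) (1 / 2)) := measurableSet_Icc
  have hmeasB : MeasurableSet (Set.pi Set.univ (fun _ : Fin d => Set.Icc (-δ) δ)) :=
    MeasurableSet.univ_pi fun _ => measurableSet_Icc
  have hg : Measurable g := by
    apply Measurable.mul
    · exact (hφ.indicator hmeasA).comp measurable_fst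
    · exact (measurable_one.indicator hmeasB).comp measurable_snd
  calc ∫⁻ x in tube δ c e, φ ⟪x - c, e⟫
      = ∫⁻ x, (tube δ c e).indicator (fun x => φ ⟪x - c, e⟫) x := by
        rw [lintegral_indicator (measurableSet_tube δ c e)]
    _ ≤ ∫⁻ x, g (T x) := by
        apply lintegral_mono
        intro x
        by_cases hx : x ∈ tube δ c e
        · rw [Set.indicator_of_mem hx]
          have h1 : (T x).1 ∈ Set.Icc (-(1 / 2) : ℝ) (1 / 2) := by
            rw [hT1]; exact abs_le.1 hx.1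
          have h2 : (T x).2 ∈ Set.pi Set.univ (fun _ : Fin d => Set.Icc (-δ) δ) := by
            intro i _
            rw [hT2]
            rw [Set.mem_Icc, ← abs_le]
            have e1 : b.repr ((x - c) - ⟪x - c, e⟫ • e) i.succ = b.repr (x - c) i.succ := by
              rw [map_sub, map_smul, ← hb]
              simp
            rw [← e1]
            calc |b.repr ((x - c) - ⟪x - c, e⟫ • e) i.succ|
                ≤ ‖b.repr ((x - c) - ⟪x - c, e⟫ • e)‖ := by
                  simpa using PiLp.norm_apply_le (b.repr ((x - c) - ⟪x - c, e⟫ • e)) i.succ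
              _ = ‖(x - c) - ⟪x - c, e⟫ • e‖ := by rw [LinearIsometryEquiv.norm_map]
              _ ≤ δ := hx.2
          simp only [g]
          rw [Set.indicator_of_mem h1, Set.indicator_of_mem h2, hT1]
          simp
        · rw [Set.indicator_of_notMem hx]; exact bot_le
    _ = ∫⁻ z, g z := hT.lintegral_comp hg
    _ = ∫⁻ s, (Set.Icc (-(1 / 2) : ℝ) (1 / 2)).indicator φ s *
          volume (Set.pi Set.univ (fun _ : Fin d => Set.Icc (-δ) δ)) := by
        rw [Measure.volume_eq_prod, lintegral_prod _ hg.aemeasurable]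
        apply lintegral_congr
        intro s
        simp only [g]
        rw [lintegral_const_mul _ (measurable_one.indicator hmeasB), lintegral_indicator_one hmeasB]
    _ = ENNReal.ofReal ((2 * δ) ^ d) * ∫⁻ s in Set.Icc (-(1 / 2) : ℝ) (1 / 2), φ s := by
        rw [lintegral_mul_const _ (hφ.indicator hmeasA), lintegral_indicator hmeasA, mul_comm]
        congr 1
        rw [volume_pi, Measure.pi_pi]
        simp only [Real.volume_Icc, Finset.prod_const, Finset.card_univ, Fintype.card_fin]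
        rw [← ENNReal.ofReal_pow (by linarith)]
        congr 1
        ring

lemma exists_coord {d : ℕ} (y : E d) (hy : ‖y‖ = 1) : ∃ k : Fin (d + 1), 1 / ((d : ℝ) + 1) ≤ (y k) ^ 2 := by
  by_contra h
  push Not at h
  have h1 : ∑ k, (y k) ^ 2 = 1 := by
    have := EuclideanSpace.norm_sq_eq y
    rw [hy] at this
    simpa using this.symm
  have h2 : ∑ k : Fin (d + 1), (y k) ^ 2 < ∑ _k : Fin (d + 1), 1 / ((d : ℝ) + 1) :=
    Finset.sum_lt_sum_of_nonempty Finset.univ_nonempty (fun k _ => h k)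
  rw [h1, Finset.sum_const, Finset.card_univ, Fintype.card_fin, nsmul_eq_mul] at h2
  have : ((d + 1 : ℕ) : ℝ) * (1 / ((d : ℝ) + 1)) = 1 := by
    push_cast
    field_simp
  rw [this] at h2
  exact lt_irrefl _ h2

lemma coord_abs_le {d : ℕ} (y : E d) (hy : ‖y‖ = 1) (k : Fin (d + 1)) : |y k| ≤ 1 := by
  have := PiLp.norm_apply_le y k
  rw [hy] at this
  simpa using this

/-- two unit vectors with a common large coordinate of the same sign and close other coordinates are close -/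
lemma close_of_coords {d : ℕ} (y z : E d) (hy : ‖y‖ = 1) (hz : ‖z‖ = 1) (k : Fin (d + 1))
    (hyk : 1 / ((d : ℝ) + 1) ≤ (y k) ^ 2) (hzk : 1 / ((d : ℝ) + 1) ≤ (z k) ^ 2) (hs : 0 ≤ y k * z k)
    (η : ℝ) (hη : 0 < η) (hc : ∀ l : Fin d, |y (k.succAbove l) - z (k.succAbove l)| ≤ η) :
    ‖y - z‖ < 2 * ((d : ℝ) + 1) ^ 2 * η := by
  have hd : (0 : ℝ) ≤ d := Nat.cast_nonneg d
  have hy1 : (y k) ^ 2 + ∑ l : Fin d, (y (k.succAbove l)) ^ 2 = 1 := by
    have := EuclideanSpace.norm_sq_eq y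
    rw [hy, Fin.sum_univ_succAbove _ k] at this
    simpa using this.symm
  have hz1 : (z k) ^ 2 + ∑ l : Fin d, (z (k.succAbove l)) ^ 2 = 1 := by
    have := EuclideanSpace.norm_sq_eq z
    rw [hz, Fin.sum_univ_succAbove _ k] at this
    simpa using this.symm
  have hdiff : (y k) ^ 2 - (z k) ^ 2 =
      - ∑ l : Fin d, (y (k.succAbove l) - z (k.succAbove l)) * (y (k.succAbove l) + z (k.succAbove l)) := by
    have : ∑ l : Fin d, (y (k.succAbove l) - z (k.succAbove l)) * (y (k.succAbove l) + z (k.succAbove l)) =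
        ∑ l : Fin d, (y (k.succAbove l)) ^ 2 - ∑ l : Fin d, (z (k.succAbove l)) ^ 2 := by
      rw [← Finset.sum_sub_distrib]
      exact Finset.sum_congr rfl fun l _ => by ring
    rw [this]; linarith
  have habs : |(y k) ^ 2 - (z k) ^ 2| ≤ d * (η * 2) := by
    rw [hdiff, abs_neg]
    calc |∑ l : Fin d, (y (k.succAbove l) - z (k.succAbove l)) * (y (k.succAbove l) + z (k.succAbove l))|
        ≤ ∑ l : Fin d, |(y (k.succAbove l) - z (k.succAbove l)) * (y (k.succAbove l) + z (k.succAbove l))| :=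
          Finset.abs_sum_le_sum_abs _ _
      _ ≤ ∑ _l : Fin d, η * 2 := by
          apply Finset.sum_le_sum
          intro l _
          rw [abs_mul]
          apply mul_le_mul (hc l) _ (abs_nonneg _) hη.le
          have h1 := coord_abs_le y hy (k.succAbove l)
          have h2 := coord_abs_le z hz (k.succAbove l)
          calc |y (k.succAbove l) + z (k.succAbove l)| ≤ |y (k.succAbove l)| + |z (k.succAbove l)| := abs_add_le _ _
            _ ≤ 2 := by linarith
      _ = d * (η * 2) := by simp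
  have hsum : 4 / ((d : ℝ) + 1) ≤ (y k + z k) ^ 2 := by
    have h1 : (1 / ((d : ℝ) + 1)) ^ 2 ≤ (y k * z k) ^ 2 := by
      rw [mul_pow, sq (1 / ((d : ℝ) + 1))]
      exact mul_le_mul hyk hzk (by positivity) (by positivity)
    have h2 : 1 / ((d : ℝ) + 1) ≤ y k * z k := by
      exact (pow_le_pow_iff_left₀ (by positivity) hs two_ne_zero).1 h1
    have : (y k + z k) ^ 2 = (y k) ^ 2 + (z k) ^ 2 + 2 * (y k * z k) := by ring
    rw [this]
    have : 4 / ((d : ℝ) + 1) = 1 / ((d : ℝ) + 1) + 1 / ((d : ℝ) + 1) + 2 * (1 / ((d : ℝ) + 1)) := by ring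
    rw [this]
    linarith
  have hk : (y k - z k) ^ 2 ≤ d ^ 2 * ((d : ℝ) + 1) * η ^ 2 := by
    have h1 : (y k - z k) ^ 2 * (4 / ((d : ℝ) + 1)) ≤ (d * (η * 2)) ^ 2 := by
      calc (y k - z k) ^ 2 * (4 / ((d : ℝ) + 1)) ≤ (y k - z k) ^ 2 * (y k + z k) ^ 2 :=
            mul_le_mul_of_nonneg_left hsum (sq_nonneg _)
        _ = |(y k) ^ 2 - (z k) ^ 2| ^ 2 := by rw [sq_abs]; ring
        _ ≤ (d * (η * 2)) ^ 2 := by gcongr
    have h2 : (y k - z k) ^ 2 = ((y k - z k) ^ 2 * (4 / ((d : ℝ) + 1))) * (((d : ℝ) + 1) / 4) := by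
      field_simp
    rw [h2]
    calc _ ≤ (d * (η * 2)) ^ 2 * (((d : ℝ) + 1) / 4) := by gcongr
      _ = d ^ 2 * ((d : ℝ) + 1) * η ^ 2 := by ring
  have hnorm : ‖y - z‖ ^ 2 ≤ d ^ 2 * ((d : ℝ) + 1) * η ^ 2 + d * η ^ 2 := by
    have := EuclideanSpace.norm_sq_eq (y - z)
    rw [this, Fin.sum_univ_succAbove _ k]
    apply add_le_add
    · simpa using hk
    · calc ∑ l : Fin d, ‖(y - z) (k.succAbove l)‖ ^ 2 ≤ ∑ _l : Fin d, η ^ 2 := by
            apply Finset.sum_le_sum
            intro l _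
            have := hc l
            simp only [PiLp.sub_apply, Real.norm_eq_abs]
            gcongr
        _ = d * η ^ 2 := by simp
  have hlt : ‖y - z‖ ^ 2 < (2 * ((d : ℝ) + 1) ^ 2 * η) ^ 2 := by
    apply lt_of_le_of_lt hnorm
    have hη2 : 0 < η ^ 2 := by positivity
    have : (2 * ((d : ℝ) + 1) ^ 2 * η) ^ 2 = (4 * ((d : ℝ) + 1) ^ 4) * η ^ 2 := by ring
    rw [this, ← add_mul]
    apply mul_lt_mul_of_pos_right _ hη2
    nlinarith [mul_nonneg hd hd, mul_nonneg (mul_nonneg hd hd) hd, mul_nonneg (mul_nonneg hd hd) (mul_nonneg hd hd)]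
  exact lt_of_pow_lt_pow_left₀ 2 (by positivity) hlt


lemma card_Icc_floor (a b : ℝ) (hab : a ≤ b) : ((Finset.Icc ⌊a⌋ ⌊b⌋).card : ℝ) ≤ b - a + 2 := by
  rw [Int.card_Icc]
  have h1 : ⌊a⌋ ≤ ⌊b⌋ := Int.floor_le_floor hab
  have h2 : (((⌊b⌋ + 1 - ⌊a⌋).toNat : ℕ) : ℝ) = ((⌊b⌋ + 1 - ⌊a⌋ : ℤ) : ℝ) := by
    have : ((⌊b⌋ + 1 - ⌊a⌋).toNat : ℤ) = ⌊b⌋ + 1 - ⌊a⌋ := Int.toNat_of_nonneg (by linarith)
    exact_mod_cast congrArg (Int.cast (R := ℝ)) this
  rw [h2]
  push_cast
  have h3 := Int.floor_le b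
  have h4 := Int.sub_one_lt_floor a
  linarith

/-- number of separated unit vectors in a ball -/
lemma card_near {d : ℕ} {ι : Type*} (S : Finset ι) (e : ι → E d) (hunit : ∀ j ∈ S, ‖e j‖ = 1)
    (δ : ℝ) (hδ : 0 < δ) (hsep : ∀ i ∈ S, ∀ j ∈ S, i ≠ j → δ ≤ ‖e i - e j‖) (u : E d) (ρ : ℝ)
    (hρ : 0 ≤ ρ) (hnear : ∀ j ∈ S, ‖e j - u‖ ≤ ρ) :
    (S.card : ℝ) ≤ 2 * ((d : ℝ) + 1) * (4 * ((d : ℝ) + 1) ^ 2 * (ρ / δ) + 2) ^ d := by
  classical
  set η : ℝ := δ / (2 * ((d : ℝ) + 1) ^ 2) with hη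
  have hηpos : 0 < η := by positivity
  have hδη : 2 * ((d : ℝ) + 1) ^ 2 * η = δ := by rw [hη]; field_simp
  let κ : ι → Fin (d + 1) := fun j => if h : j ∈ S then (exists_coord (e j) (hunit j h)).choose else 0
  have hκ : ∀ j ∈ S, 1 / ((d : ℝ) + 1) ≤ (e j (κ j)) ^ 2 := by
    intro j hj
    simp only [κ, hj, dif_pos]
    exact (exists_coord (e j) (hunit j hj)).choose_spec
  let cls : ι → Fin (d + 1) × Bool := fun j => (κ j, decide (0 ≤ e j (κ j)))
  have hmaps : Set.MapsTo cls (S : Set ι) ((Finset.univ : Finset (Fin (d + 1) × Bool)) : Set _) :=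
    fun _ _ => by simp
  have hfib : ∀ b : Fin (d + 1) × Bool,
      ((S.filter (fun j => cls j = b)).card : ℝ) ≤ (4 * ((d : ℝ) + 1) ^ 2 * (ρ / δ) + 2) ^ d := by
    rintro ⟨k, s⟩
    let F : ι → (Fin d → ℤ) := fun j l => ⌊e j (k.succAbove l) / η⌋
    let box : Finset (Fin d → ℤ) := Fintype.piFinset
      (fun l : Fin d => Finset.Icc ⌊(u (k.succAbove l) - ρ) / η⌋ ⌊(u (k.succAbove l) + ρ) / η⌋)
    have hcard : (S.filter (fun j => cls j = (k, s))).card ≤ box.card := by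
      apply Finset.card_le_card_of_injOn F
      · intro j hj
        have hjS : j ∈ S := (Finset.mem_filter.1 hj).1
        rw [Finset.mem_coe, Fintype.mem_piFinset]
        intro l
        rw [Finset.mem_Icc]
        have h1 : |e j (k.succAbove l) - u (k.succAbove l)| ≤ ρ := by
          have := PiLp.norm_apply_le (e j - u) (k.succAbove l)
          simp only [PiLp.sub_apply, Real.norm_eq_abs] at this
          exact this.trans (hnear j hjS)
        rw [abs_le] at h1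
        constructor
        · apply Int.floor_le_floor
          gcongr
          linarith
        · apply Int.floor_le_floor
          gcongr
          linarith
      · intro i hi j hj hij
        by_contra hne
        have hi' := Finset.mem_filter.1 (Finset.mem_coe.1 hi)
        have hj' := Finset.mem_filter.1 (Finset.mem_coe.1 hj)
        have hik : κ i = k := congrArg Prod.fst hi'.2
        have hjk : κ j = k := congrArg Prod.fst hj'.2
        have his : decide (0 ≤ e i (κ i)) = s := congrArg Prod.snd hi'.2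
        have hjs : decide (0 ≤ e j (κ j)) = s := congrArg Prod.snd hj'.2
        have hs : 0 ≤ e i k * e j k := by
          rw [hik] at his
          rw [hjk] at hjs
          rcases s with _ | _
          · have h1 : e i k < 0 := by simpa using his
            have h2 : e j k < 0 := by simpa using hjs
            exact (mul_pos_of_neg_of_neg h1 h2).le
          · have h1 : 0 ≤ e i k := by simpa using his
            have h2 : 0 ≤ e j k := by simpa using hjs
            exact mul_nonneg h1 h2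
        have hlt := close_of_coords (e i) (e j) (hunit i hi'.1) (hunit j hj'.1) k
          (by have := hκ i hi'.1; rwa [hik] at this) (by have := hκ j hj'.1; rwa [hjk] at this) hs η hηpos
          (by
            intro l
            have h1 : F i l = F j l := congrFun hij l
            have h2 : |e i (k.succAbove l) / η - e j (k.succAbove l) / η| < 1 := Int.abs_sub_lt_one_of_floor_eq_floor h1
            rw [← sub_div, abs_div, abs_of_pos hηpos, div_lt_one hηpos] at h2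
            exact h2.le)
        rw [hδη] at hlt
        exact absurd (hsep i hi'.1 j hj'.1 hne) (not_le.2 hlt)
    calc ((S.filter (fun j => cls j = (k, s))).card : ℝ) ≤ (box.card : ℝ) := by exact_mod_cast hcard
      _ = ∏ l : Fin d, ((Finset.Icc ⌊(u (k.succAbove l) - ρ) / η⌋ ⌊(u (k.succAbove l) + ρ) / η⌋).card : ℝ) := by
          simp only [box]
          rw [Fintype.card_piFinset]
          push_cast
          rfl
      _ ≤ ∏ _l : Fin d, (4 * ((d : ℝ) + 1) ^ 2 * (ρ / δ) + 2) := by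
          apply Finset.prod_le_prod
          · intro l _; positivity
          · intro l _
            refine (card_Icc_floor _ _ (by gcongr; linarith)).trans (le_of_eq ?_)
            rw [hη]
            field_simp
            ring
      _ = (4 * ((d : ℝ) + 1) ^ 2 * (ρ / δ) + 2) ^ d := by simp
  have := Finset.card_eq_sum_card_fiberwise hmaps
  rw [this]
  push_cast
  calc ∑ b : Fin (d + 1) × Bool, ((S.filter (fun j => cls j = b)).card : ℝ)
      ≤ ∑ _b : Fin (d + 1) × Bool, (4 * ((d : ℝ) + 1) ^ 2 * (ρ / δ) + 2) ^ d :=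
        Finset.sum_le_sum fun b _ => hfib b
    _ = 2 * ((d : ℝ) + 1) * (4 * ((d : ℝ) + 1) ^ 2 * (ρ / δ) + 2) ^ d := by
        rw [Finset.sum_const, Finset.card_univ, Fintype.card_prod, Fintype.card_fin, Fintype.card_bool, nsmul_eq_mul]
        push_cast
        ring


/-- angle between two axes (unoriented) -/
noncomputable def ang {d : ℕ} (e f : E d) : ℝ := min ‖e - f‖ ‖e + f‖

open Classical in
/-- multiplicity -/
noncomputable def mult {d : ℕ} {ι : Type} [Fintype ι] (δ : ℝ) (c e : ι → E d) (x : E d) : ℕ :=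
  (Finset.univ.filter (fun j => x ∈ tube δ (c j) (e j))).card

open Classical in
/-- number of tubes through `x` at angle at least `θ` with `e` -/
noncomputable def farMult {d : ℕ} {ι : Type} [Fintype ι] (δ θ : ℝ) (c e : ι → E d) (i : ι) (x : E d) : ℕ :=
  (Finset.univ.filter (fun j => x ∈ tube δ (c j) (e j) ∧ θ ≤ ang (e i) (e j))).card

/-- the constant -/
noncomputable def GG (d : ℕ) : ℝ := 4 * ((d : ℝ) + 1) * (4 * ((d : ℝ) + 1) ^ 2 + 2) ^ d

lemma GG_pos (d : ℕ) : 0 < GG d := by rw [GG]; positivity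

lemma near_card {d : ℕ} {ι : Type} [Fintype ι] (δ θ : ℝ) (hδ : 0 < δ) (hθ : δ ≤ θ) (c e : ι → E d)
    (hunit : ∀ i, ‖e i‖ = 1) (hsep : ∀ i j, i ≠ j → δ ≤ ‖e i - e j‖) (i : ι) (x : E d) :
    (mult δ c e x : ℝ) ≤ GG d * (θ / δ) ^ d + (farMult δ θ c e i x : ℝ) := by
  classical
  have hθ0 : 0 < θ := hδ.trans_le hθ
  have key : ∀ u : E d, (((Finset.univ.filter (fun j => ‖e j - u‖ ≤ θ)).card : ℕ) : ℝ) ≤
      2 * ((d : ℝ) + 1) * (4 * ((d : ℝ) + 1) ^ 2 * (θ / δ) + 2) ^ d := by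
    intro u
    apply card_near _ e (fun j _ => hunit j) δ hδ (fun i _ j _ hij => hsep i j hij) u θ hθ0.le
    intro j hj
    exact (Finset.mem_filter.1 hj).2
  have hsub : (Finset.univ.filter (fun j => x ∈ tube δ (c j) (e j))) ⊆
      ((Finset.univ.filter (fun j => ‖e j - e i‖ ≤ θ)) ∪ (Finset.univ.filter (fun j => ‖e j - (-(e i))‖ ≤ θ))) ∪
      (Finset.univ.filter (fun j => x ∈ tube δ (c j) (e j) ∧ θ ≤ ang (e i) (e j))) := by
    intro j hj
    have hj' := (Finset.mem_filter.1 hj).2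
    rw [Finset.mem_union, Finset.mem_union]
    by_cases h : θ ≤ ang (e i) (e j)
    · right; exact Finset.mem_filter.2 ⟨Finset.mem_univ _, hj', h⟩
    · left
      rw [ang, not_le, min_lt_iff] at h
      rcases h with h | h
      · left; exact Finset.mem_filter.2 ⟨Finset.mem_univ _, by rw [norm_sub_rev]; exact h.le⟩
      · right
        have e1 : e j - (-(e i)) = e i + e j := by abel
        exact Finset.mem_filter.2 ⟨Finset.mem_univ _, by rw [e1]; exact h.le⟩
  have h1 : (mult δ c e x : ℝ) ≤ ((Finset.univ.filter (fun j => ‖e j - e i‖ ≤ θ)).card : ℝ) +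
      ((Finset.univ.filter (fun j => ‖e j - (-(e i))‖ ≤ θ)).card : ℝ) + (farMult δ θ c e i x : ℝ) := by
    have := (Finset.card_le_card hsub).trans ((Finset.card_union_le _ _).trans
      (Nat.add_le_add_right (Finset.card_union_le _ _) _))
    exact_mod_cast this
  have hθδ : 1 ≤ θ / δ := (one_le_div hδ).2 hθ
  have hbase : (4 * ((d : ℝ) + 1) ^ 2 * (θ / δ) + 2) ^ d ≤ (4 * ((d : ℝ) + 1) ^ 2 + 2) ^ d * (θ / δ) ^ d := by
    rw [← mul_pow]
    gcongr
    nlinarith
  have h2 := key (e i)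
  have h3 := key (-(e i))
  calc (mult δ c e x : ℝ) ≤ 2 * (2 * ((d : ℝ) + 1) * (4 * ((d : ℝ) + 1) ^ 2 * (θ / δ) + 2) ^ d) +
        (farMult δ θ c e i x : ℝ) := by linarith
    _ ≤ 2 * (2 * ((d : ℝ) + 1) * ((4 * ((d : ℝ) + 1) ^ 2 + 2) ^ d * (θ / δ) ^ d)) +
        (farMult δ θ c e i x : ℝ) := by gcongr
    _ = _ := by rw [GG]; ring

lemma mult_le_card {d : ℕ} {ι : Type} [Fintype ι] (δ : ℝ) (c e : ι → E d) (x : E d) :
    mult δ c e x ≤ Fintype.card ι := by
  classical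
  exact Finset.card_le_univ _

lemma volume_tube_le {d : ℕ} (δ : ℝ) (hδ : 0 ≤ δ) (c e : E d) (he : ‖e‖ = 1) :
    volume (tube δ c e) ≤ ENNReal.ofReal ((2 * δ) ^ d) := by
  have h := lintegral_tube δ hδ c e he (fun _ => 1) measurable_const
  simp only [lintegral_const, one_mul, MeasurableSet.univ, Measure.restrict_apply, Set.univ_inter, Real.volume_Icc] at h
  norm_num at h
  exact h

lemma sum_indicator_eq {d : ℕ} {ι : Type} [Fintype ι] (δ : ℝ) (c e : ι → E d) (x : E d) :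
    (∑ i, (tube δ (c i) (e i)).indicator (fun _ => (1 : ℝ)) x) = (mult δ c e x : ℝ) := by
  classical
  rw [mult, Finset.card_filter]
  push_cast
  apply Finset.sum_congr rfl
  intro i _
  rw [Set.indicator_apply]

lemma measurable_mult {d : ℕ} {ι : Type} [Fintype ι] (δ : ℝ) (c e : ι → E d) :
    Measurable (fun x => (mult δ c e x : ℝ)) := by
  have : (fun x => (mult δ c e x : ℝ)) = fun x => ∑ i, (tube δ (c i) (e i)).indicator (fun _ => (1 : ℝ)) x := by
    funext x; exact (sum_indicator_eq δ c e x).symm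
  rw [this]
  apply Finset.measurable_sum
  intro i _
  exact measurable_const.indicator (measurableSet_tube _ _ _)

lemma mult_rpow {d : ℕ} {ι : Type} [Fintype ι] (δ : ℝ) (c e : ι → E d) (q : ℝ) (hq : 1 < q) (x : E d) :
    ENNReal.ofReal ((mult δ c e x : ℝ) ^ q) =
        ∑ i, (tube δ (c i) (e i)).indicator (fun x => ENNReal.ofReal ((mult δ c e x : ℝ) ^ (q - 1))) x := by
  classical
  have h3 : (mult δ c e x : ℝ≥0∞) = ∑ i, if x ∈ tube δ (c i) (e i) then (1 : ℝ≥0∞) else 0 := by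
    rw [mult, Finset.card_filter]
    push_cast
    rfl
  have h2 : ∑ i, (tube δ (c i) (e i)).indicator (fun x => ENNReal.ofReal ((mult δ c e x : ℝ) ^ (q - 1))) x =
      (mult δ c e x : ℝ≥0∞) * ENNReal.ofReal ((mult δ c e x : ℝ) ^ (q - 1)) := by
    rw [h3, Finset.sum_mul]
    apply Finset.sum_congr rfl
    intro i _
    rw [Set.indicator_apply]
    by_cases hx : x ∈ tube δ (c i) (e i)
    · rw [if_pos hx, if_pos hx, one_mul]
    · rw [if_neg hx, if_neg hx, zero_mul]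
  rw [h2]
  rcases Nat.eq_zero_or_pos (mult δ c e x) with h0 | h0
  · rw [h0, Nat.cast_zero, Nat.cast_zero, zero_mul, Real.zero_rpow (by linarith), ENNReal.ofReal_zero]
  · have h0' : (0 : ℝ) < mult δ c e x := by exact_mod_cast h0
    rw [← ENNReal.ofReal_natCast, ← ENNReal.ofReal_mul h0'.le]
    congr 1
    have e1 : (mult δ c e x : ℝ) ^ q = (mult δ c e x : ℝ) ^ (1 + (q - 1)) := by congr 1; ring
    rw [e1, Real.rpow_add h0', Real.rpow_one]

/-- the constant in the weak-type bound -/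
noncomputable def WW (d : ℕ) (D κ : ℝ) : ℝ :=
  κ * (2 * GG d) ^ (1 / (d : ℝ)) + 2 ^ d * ((2 * GG d) ^ (1 / (d : ℝ)) + (2 * D) ^ (1 / (d : ℝ)))

/-- weak-type bound for the multiplicity along the tubes -/
lemma weak_bound {d : ℕ} (hd : 1 ≤ d) {ι : Type} [Fintype ι] (δ D κ : ℝ) (hδ : 0 < δ) (hD : 0 < D) (hκ : 0 ≤ κ)
    (c e : ι → E d) (hunit : ∀ i, ‖e i‖ = 1) (hsep : ∀ i j, i ≠ j → δ ≤ ‖e i - e j‖)
    (hyp : ∀ θ : ℝ, δ ≤ θ → ∑ i, volume {x | x ∈ tube δ (c i) (e i) ∧ D ≤ farMult δ θ c e i x} ≤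
      ENNReal.ofReal (κ * Fintype.card ι * (δ ^ (d + 1) / θ))) (lam : ℝ) (hl : 0 < lam) :
    ∑ i, volume {x | x ∈ tube δ (c i) (e i) ∧ lam < mult δ c e x} ≤
      ENNReal.ofReal (WW d D κ * (Fintype.card ι : ℝ) * δ ^ d * lam ^ (-(1 / (d : ℝ)))) := by
  classical
  have hG := GG_pos d
  have hd0 : (0 : ℝ) < d := by exact_mod_cast hd
  have hN : (0 : ℝ) ≤ Fintype.card ι := by positivity
  have hGd : 0 < (2 * GG d) ^ (1 / (d : ℝ)) := by positivity
  have hDd : 0 < (2 * D) ^ (1 / (d : ℝ)) := by positivity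
  by_cases h : max (2 * GG d) (2 * D) ≤ lam
  · have h1 : 2 * GG d ≤ lam := (le_max_left _ _).trans h
    have h2 : 2 * D ≤ lam := (le_max_right _ _).trans h
    set θ := δ * (lam / (2 * GG d)) ^ (1 / (d : ℝ)) with hθ
    have h3 : 1 ≤ (lam / (2 * GG d)) ^ (1 / (d : ℝ)) :=
      Real.one_le_rpow ((one_le_div (by positivity)).2 h1) (by positivity)
    have hθδ : δ ≤ θ := by
      rw [hθ]; nlinarith
    have hpow : (θ / δ) ^ d = lam / (2 * GG d) := by
      rw [hθ, mul_div_cancel_left₀ _ hδ.ne', ← Real.rpow_natCast, ← Real.rpow_mul (by positivity)]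
      rw [one_div, inv_mul_cancel₀ hd0.ne', Real.rpow_one]
    calc ∑ i, volume {x | x ∈ tube δ (c i) (e i) ∧ lam < mult δ c e x}
        ≤ ∑ i, volume {x | x ∈ tube δ (c i) (e i) ∧ D ≤ farMult δ θ c e i x} := by
          apply Finset.sum_le_sum
          intro i _
          apply measure_mono
          rintro x ⟨hx, hm⟩
          refine ⟨hx, ?_⟩
          have h4 := near_card δ θ hδ hθδ c e hunit hsep i x
          rw [hpow] at h4
          have h5 : GG d * (lam / (2 * GG d)) = lam / 2 := by field_simp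
          rw [h5] at h4
          linarith
      _ ≤ ENNReal.ofReal (κ * Fintype.card ι * (δ ^ (d + 1) / θ)) := hyp θ hθδ
      _ ≤ _ := by
          apply ENNReal.ofReal_le_ofReal
          have e1 : δ ^ (d + 1) / θ = δ ^ d * ((2 * GG d) ^ (1 / (d : ℝ)) * lam ^ (-(1 / (d : ℝ)))) := by
            rw [hθ, Real.div_rpow hl.le (by positivity), Real.rpow_neg hl.le]
            field_simp
            ring
          rw [e1, WW]
          have hl' : 0 < lam ^ (-(1 / (d : ℝ))) := by positivity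
          have : 0 ≤ 2 ^ d * ((2 * GG d) ^ (1 / (d : ℝ)) + (2 * D) ^ (1 / (d : ℝ))) * (Fintype.card ι : ℝ) * δ ^ d *
              lam ^ (-(1 / (d : ℝ))) := by positivity
          nlinarith
  · push Not at h
    calc ∑ i, volume {x | x ∈ tube δ (c i) (e i) ∧ lam < mult δ c e x}
        ≤ ∑ _i : ι, ENNReal.ofReal ((2 * δ) ^ d) := by
          apply Finset.sum_le_sum
          intro i _
          exact (measure_mono fun x hx => hx.1).trans (volume_tube_le δ hδ.le (c i) (e i) (hunit i))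
      _ = ENNReal.ofReal ((Fintype.card ι : ℝ) * (2 * δ) ^ d) := by
          rw [Finset.sum_const, Finset.card_univ, nsmul_eq_mul, ENNReal.ofReal_mul hN, ENNReal.ofReal_natCast]
      _ ≤ _ := by
          apply ENNReal.ofReal_le_ofReal
          have h1 : 1 ≤ (max (2 * GG d) (2 * D)) ^ (1 / (d : ℝ)) * lam ^ (-(1 / (d : ℝ))) := by
            rw [Real.rpow_neg hl.le, ← div_eq_mul_inv, ← Real.div_rpow (by positivity) hl.le]
            exact Real.one_le_rpow ((one_le_div hl).2 h.le) (by positivity)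
          have h2 : (max (2 * GG d) (2 * D)) ^ (1 / (d : ℝ)) ≤
              (2 * GG d) ^ (1 / (d : ℝ)) + (2 * D) ^ (1 / (d : ℝ)) := by
            rcases max_choice (2 * GG d) (2 * D) with h | h <;> rw [h] <;> linarith
          have hl' : 0 < lam ^ (-(1 / (d : ℝ))) := by positivity
          have h3 : 1 ≤ ((2 * GG d) ^ (1 / (d : ℝ)) + (2 * D) ^ (1 / (d : ℝ))) * lam ^ (-(1 / (d : ℝ))) :=
            h1.trans (by gcongr)
          rw [WW, mul_pow]
          have h4 : (Fintype.card ι : ℝ) * (2 ^ d * δ ^ d) ≤ (Fintype.card ι : ℝ) * (2 ^ d * δ ^ d) *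
              (((2 * GG d) ^ (1 / (d : ℝ)) + (2 * D) ^ (1 / (d : ℝ))) * lam ^ (-(1 / (d : ℝ)))) :=
            le_mul_of_one_le_right (by positivity) h3
          have h5 : 0 ≤ κ * (2 * GG d) ^ (1 / (d : ℝ)) * (Fintype.card ι : ℝ) * δ ^ d * lam ^ (-(1 / (d : ℝ))) := by
            positivity
          nlinarith

lemma lint_bound {d : ℕ} (hd : 1 ≤ d) {ι : Type} [Fintype ι] [Nonempty ι] (δ D κ : ℝ) (hδ : 0 < δ) (hD : 0 < D) (hκ : 0 ≤ κ)
    (c e : ι → E d) (hunit : ∀ i, ‖e i‖ = 1) (hsep : ∀ i j, i ≠ j → δ ≤ ‖e i - e j‖)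
    (hyp : ∀ θ : ℝ, δ ≤ θ → ∑ i, volume {x | x ∈ tube δ (c i) (e i) ∧ D ≤ farMult δ θ c e i x} ≤
      ENNReal.ofReal (κ * Fintype.card ι * (δ ^ (d + 1) / θ))) (q : ℝ) (hq : 1 / (d : ℝ) < q - 1) :
    ∫⁻ x, ENNReal.ofReal ((mult δ c e x : ℝ) ^ q) ≤
      ENNReal.ofReal ((q - 1) / (q - 1 - 1 / d) * WW d D κ * (δ ^ d * (Fintype.card ι : ℝ) ^ (q - 1 / d))) := by
  classical
  have hd0 : (0 : ℝ) < d := by exact_mod_cast hd
  have hinv : 0 < 1 / (d : ℝ) := by positivity
  have hq1 : 0 < q - 1 := hinv.trans hq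
  set N : ℝ := (Fintype.card ι : ℝ) with hNdef
  have hN1 : 1 ≤ N := by rw [hNdef]; exact_mod_cast Fintype.card_pos
  have hNpos : 0 < N := by linarith
  have hG := GG_pos d
  have hW : 0 ≤ WW d D κ := by rw [WW]; positivity
  have hmeas : ∀ i : ι, Measurable ((tube δ (c i) (e i)).indicator
      (fun x => ENNReal.ofReal ((mult δ c e x : ℝ) ^ (q - 1)))) := by
    intro i
    apply Measurable.indicator _ (measurableSet_tube _ _ _)
    exact ((measurable_mult δ c e).pow_const (q - 1)).ennreal_ofReal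
  have hset : ∀ (i : ι) (lam : ℝ), (volume.restrict (tube δ (c i) (e i))) {x | lam < (mult δ c e x : ℝ)} =
      volume {x | x ∈ tube δ (c i) (e i) ∧ lam < mult δ c e x} := by
    intro i lam
    rw [Measure.restrict_apply (measurableSet_lt measurable_const (measurable_mult δ c e))]
    congr 1
    ext x
    simp only [Set.mem_inter_iff, Set.mem_ofPred_eq]
    tauto
  calc ∫⁻ x, ENNReal.ofReal ((mult δ c e x : ℝ) ^ q)
      = ∫⁻ x, ∑ i, (tube δ (c i) (e i)).indicator (fun x => ENNReal.ofReal ((mult δ c e x : ℝ) ^ (q - 1))) x :=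
        lintegral_congr fun x => mult_rpow δ c e q (by linarith) x
    _ = ∑ i, ∫⁻ x, (tube δ (c i) (e i)).indicator (fun x => ENNReal.ofReal ((mult δ c e x : ℝ) ^ (q - 1))) x :=
        lintegral_finsetSum _ fun i _ => hmeas i
    _ = ∑ i, ∫⁻ x in tube δ (c i) (e i), ENNReal.ofReal ((mult δ c e x : ℝ) ^ (q - 1)) := by
        apply Finset.sum_congr rfl
        intro i _
        rw [lintegral_indicator (measurableSet_tube _ _ _)]
    _ = ∑ i, ENNReal.ofReal (q - 1) * ∫⁻ lam in Set.Ioi (0 : ℝ),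
          volume {x | x ∈ tube δ (c i) (e i) ∧ lam < mult δ c e x} * ENNReal.ofReal (lam ^ (q - 1 - 1)) := by
        apply Finset.sum_congr rfl
        intro i _
        rw [lintegral_rpow_eq_lintegral_meas_lt_mul _ (Filter.Eventually.of_forall fun x => by positivity)
          (measurable_mult δ c e).aemeasurable hq1]
        simp_rw [hset]
    _ = ENNReal.ofReal (q - 1) * ∫⁻ lam in Set.Ioi (0 : ℝ),
          (∑ i, volume {x | x ∈ tube δ (c i) (e i) ∧ lam < mult δ c e x}) * ENNReal.ofReal (lam ^ (q - 1 - 1)) := by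
        rw [← Finset.mul_sum, ← lintegral_finsetSum']
        · congr 1
          apply lintegral_congr
          intro lam
          rw [Finset.sum_mul]
        · intro i _
          apply AEMeasurable.mul
          · apply Measurable.aemeasurable
            apply Antitone.measurable
            intro a b hab
            apply measure_mono
            rintro x ⟨hx, hm⟩
            exact ⟨hx, lt_of_le_of_lt hab hm⟩
          · exact (measurable_id.pow_const _).ennreal_ofReal.aemeasurable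
    _ ≤ ENNReal.ofReal (q - 1) * ∫⁻ lam in Set.Ioi (0 : ℝ), (Set.Ioc 0 N).indicator
          (fun lam => ENNReal.ofReal (WW d D κ * N * δ ^ d * lam ^ (q - 1 - 1 - 1 / d))) lam := by
        gcongr ENNReal.ofReal (q - 1) * ?_
        apply setLIntegral_mono' measurableSet_Ioi
        intro lam hlam
        have hlam' : 0 < lam := hlam
        by_cases hN' : lam ≤ N
        · rw [Set.indicator_of_mem (show lam ∈ Set.Ioc 0 N from ⟨hlam', hN'⟩)]
          calc (∑ i, volume {x | x ∈ tube δ (c i) (e i) ∧ lam < mult δ c e x}) * ENNReal.ofReal (lam ^ (q - 1 - 1))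
              ≤ ENNReal.ofReal (WW d D κ * N * δ ^ d * lam ^ (-(1 / (d : ℝ)))) * ENNReal.ofReal (lam ^ (q - 1 - 1)) := by
                gcongr
                exact weak_bound hd δ D κ hδ hD hκ c e hunit hsep hyp lam hlam'
            _ = _ := by
                rw [← ENNReal.ofReal_mul (by positivity)]
                congr 1
                have : lam ^ (q - 1 - 1 - 1 / (d : ℝ)) = lam ^ (-(1 / (d : ℝ))) * lam ^ (q - 1 - 1) := by
                  rw [← Real.rpow_add hlam']; congr 1; ring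
                rw [this]; ring
        · have h0 : ∑ i, volume {x | x ∈ tube δ (c i) (e i) ∧ lam < mult δ c e x} = 0 := by
            apply Finset.sum_eq_zero
            intro i _
            have : {x | x ∈ tube δ (c i) (e i) ∧ lam < mult δ c e x} = ∅ := by
              ext x
              simp only [Set.mem_ofPred_eq, Set.mem_empty_iff_false, iff_false, not_and, not_lt]
              intro _
              have : (mult δ c e x : ℝ) ≤ N := by rw [hNdef]; exact_mod_cast mult_le_card δ c e x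
              linarith
            rw [this, measure_empty]
          rw [h0, zero_mul]
          exact bot_le
    _ = ENNReal.ofReal (q - 1) * ENNReal.ofReal (WW d D κ * N * δ ^ d * (N ^ (q - 1 - 1 / d) / (q - 1 - 1 / d))) := by
        congr 1
        rw [setLIntegral_indicator measurableSet_Ioc, Set.inter_eq_left.2 (fun x hx => hx.1)]
        have hint : IntegrableOn (fun lam : ℝ => WW d D κ * N * δ ^ d * lam ^ (q - 1 - 1 - 1 / (d : ℝ))) (Set.Ioc 0 N) := by
          apply Integrable.const_mul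
          have := intervalIntegral.intervalIntegrable_rpow' (a := 0) (b := N) (r := q - 1 - 1 - 1 / (d : ℝ)) (by linarith)
          rwa [intervalIntegrable_iff_integrableOn_Ioc_of_le hNpos.le] at this
        rw [← ofReal_integral_eq_lintegral_ofReal hint]
        · congr 1
          rw [integral_const_mul, ← intervalIntegral.integral_of_le hNpos.le, integral_rpow (Or.inl (by linarith))]
          have hexp : q - 1 - 1 - 1 / (d : ℝ) + 1 = q - 1 - 1 / (d : ℝ) := by ring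
          rw [hexp, Real.zero_rpow (by linarith), sub_zero]
        · rw [Filter.EventuallyLE, ae_restrict_iff' measurableSet_Ioc]
          filter_upwards with lam hlam
          have : 0 < lam := hlam.1
          simp only [Pi.zero_apply]
          positivity
    _ = _ := by
        rw [← ENNReal.ofReal_mul hq1.le]
        congr 1
        have e2 : N ^ (q - 1 / d) = N ^ (q - 1 - 1 / d) * N := by
          rw [← Real.rpow_add_one hNpos.ne']; congr 1; ring
        rw [e2]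
        field_simp

/-- The Kakeya inequality for families with few transversal crossings. -/
theorem result (d : ℕ) (hd : 1 ≤ d) (q : ℝ) (hq : ((d : ℝ) + 1) / d < q) :
    ∃ C : ℝ, 0 < C ∧ ∀ δ : ℝ, 0 < δ → δ < 1 → ∀ (ι : Type) [Fintype ι]
      (c e : ι → EuclideanSpace ℝ (Fin (d + 1))), (∀ i, ‖e i‖ = 1) → (∀ i j, i ≠ j → δ ≤ ‖e i - e j‖) →
      ∀ D κ : ℝ, 1 ≤ D → 0 ≤ κ →
      (∀ θ : ℝ, δ ≤ θ → ∑ i, volume {x | x ∈ tube δ (c i) (e i) ∧ D ≤ farMult δ θ c e i x} ≤
        ENNReal.ofReal (κ * Fintype.card ι * (δ ^ (d + 1) / θ))) →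
      eLpNorm (fun x => ∑ i, (tube δ (c i) (e i)).indicator (fun _ => (1 : ℝ)) x) (ENNReal.ofReal q) volume ≤
        ENNReal.ofReal (C * (D ^ (1 / (d : ℝ)) + κ) ^ (1 / q) *
          (δ ^ ((d : ℝ) / q) * (Fintype.card ι : ℝ) ^ (1 - 1 / (q * d)))) := by
  classical
  have hd0 : (0 : ℝ) < d := by exact_mod_cast (by omega : 0 < d)
  have hinv : 0 < 1 / (d : ℝ) := by positivity
  have hq1 : 1 / (d : ℝ) < q - 1 := by
    have : ((d : ℝ) + 1) / d = 1 + 1 / d := by field_simp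
    rw [this] at hq; linarith
  have hq0 : 0 < q := by linarith
  have hq2 : 0 < q - 1 := by linarith
  have hq3 : 0 < q - 1 - 1 / d := by linarith
  have hG := GG_pos d
  set K : ℝ := (q - 1) / (q - 1 - 1 / d) * ((2 * GG d) ^ (1 / (d : ℝ)) + 2 ^ d * ((2 * GG d) ^ (1 / (d : ℝ)) + 2 ^ (1 / (d : ℝ)))) with hK
  have hKpos : 0 < K := by positivity
  refine ⟨K ^ (1 / q), by positivity, ?_⟩
  intro δ hδ hδ1 ι _ c e hunit hsep D κ hD hκ hyp
  rcases isEmpty_or_nonempty ι with hemp | hne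
  · have : (fun x => ∑ i, (tube δ (c i) (e i)).indicator (fun _ => (1 : ℝ)) x) = fun _ => 0 := by
      funext x; simp
    rw [this]
    simp
  have hint := lint_bound hd δ D κ hδ (by linarith) hκ c e hunit hsep hyp q hq1
  have hN1 : (1 : ℝ) ≤ Fintype.card ι := by exact_mod_cast Fintype.card_pos
  have hNpos : (0 : ℝ) < Fintype.card ι := by linarith
  have hqne : ENNReal.ofReal q ≠ 0 := by simpa using hq0
  have hfun : (fun x => ∑ i, (tube δ (c i) (e i)).indicator (fun _ => (1 : ℝ)) x) = fun x => (mult δ c e x : ℝ) := by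
    funext x; exact sum_indicator_eq δ c e x
  rw [hfun, eLpNorm_eq_lintegral_rpow_enorm_toReal hqne ENNReal.ofReal_ne_top, ENNReal.toReal_ofReal hq0.le]
  have hpt : ∀ x, ‖(mult δ c e x : ℝ)‖ₑ ^ q = ENNReal.ofReal ((mult δ c e x : ℝ) ^ q) := by
    intro x
    rw [Real.enorm_of_nonneg (by positivity), ENNReal.ofReal_rpow_of_nonneg (by positivity) hq0.le]
  have hlint : ∫⁻ x, ‖(mult δ c e x : ℝ)‖ₑ ^ q = ∫⁻ x, ENNReal.ofReal ((mult δ c e x : ℝ) ^ q) :=
    lintegral_congr hpt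
  rw [hlint]
  have hWK : (q - 1) / (q - 1 - 1 / d) * WW d D κ ≤ K * (D ^ (1 / (d : ℝ)) + κ) := by
    have hD1 : 1 ≤ D ^ (1 / (d : ℝ)) := Real.one_le_rpow hD hinv.le
    have hr : 0 < (q - 1) / (q - 1 - 1 / d) := by positivity
    rw [hK, mul_assoc]
    apply mul_le_mul_of_nonneg_left _ hr.le
    rw [WW, Real.mul_rpow (by norm_num) (by linarith : (0 : ℝ) ≤ D)]
    have h1 : 0 < (2 * GG d) ^ (1 / (d : ℝ)) := by positivity
    have h2 : 0 < (2 : ℝ) ^ (1 / (d : ℝ)) := by positivity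
    have h3 : (0 : ℝ) < 2 ^ d := by positivity
    have h4 : 2 ^ d * (2 * GG d) ^ (1 / (d : ℝ)) ≤ 2 ^ d * (2 * GG d) ^ (1 / (d : ℝ)) * D ^ (1 / (d : ℝ)) :=
      le_mul_of_one_le_right (by positivity) hD1
    have h5 : 0 ≤ (2 * GG d) ^ (1 / (d : ℝ)) * D ^ (1 / (d : ℝ)) := by positivity
    have h6 : 0 ≤ 2 ^ d * ((2 * GG d) ^ (1 / (d : ℝ)) + 2 ^ (1 / (d : ℝ))) * κ := by positivity
    nlinarith
  generalize (Fintype.card ι : ℝ) = N at *
  calc (∫⁻ x, ENNReal.ofReal ((mult δ c e x : ℝ) ^ q)) ^ (1 / q)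
      ≤ (ENNReal.ofReal (K * (D ^ (1 / (d : ℝ)) + κ) * (δ ^ d * N ^ (q - 1 / d)))) ^ (1 / q) := by
        refine ENNReal.rpow_le_rpow (hint.trans (ENNReal.ofReal_le_ofReal ?_)) (by positivity)
        exact mul_le_mul_of_nonneg_right hWK (by positivity)
    _ = ENNReal.ofReal ((K * (D ^ (1 / (d : ℝ)) + κ) * (δ ^ d * N ^ (q - 1 / d))) ^ (1 / q)) :=
        ENNReal.ofReal_rpow_of_nonneg (by positivity) (by positivity)
    _ = _ := by
        congr 1
        have e1 : (δ ^ d * N ^ (q - 1 / d)) ^ (1 / q) = δ ^ ((d : ℝ) / q) * N ^ (1 - 1 / (q * d)) := by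
          rw [Real.mul_rpow (by positivity) (by positivity), ← Real.rpow_natCast δ d, ← Real.rpow_mul hδ.le,
            ← Real.rpow_mul hNpos.le]
          congr 2
          · ring
          · field_simp
        rw [Real.mul_rpow (by positivity) (by positivity), e1, Real.mul_rpow (by positivity) (by positivity)]


/-- the part of a tube over an interval of heights -/
lemma volume_slab_le {d : ℕ} (δ : ℝ) (hδ : 0 ≤ δ) (c e : E d) (he : ‖e‖ = 1) (s r : ℝ) :
    volume {x | x ∈ tube δ c e ∧ |⟪x - c, e⟫ - s| ≤ r} ≤ ENNReal.ofReal ((2 * δ) ^ d * (2 * r)) := by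
  classical
  have hm : MeasurableSet {y : ℝ | |y - s| ≤ r} := (isClosed_le (by fun_prop) continuous_const).measurableSet
  have h := lintegral_tube δ hδ c e he ({y : ℝ | |y - s| ≤ r}.indicator (fun _ => 1)) (measurable_one.indicator hm)
  have h1 : ∫⁻ x in tube δ c e, {y : ℝ | |y - s| ≤ r}.indicator (fun _ => (1 : ℝ≥0∞)) ⟪x - c, e⟫ =
      volume {x | x ∈ tube δ c e ∧ |⟪x - c, e⟫ - s| ≤ r} := by
    have hm' : MeasurableSet {x : E d | |⟪x - c, e⟫ - s| ≤ r} :=
      (isClosed_le (by fun_prop) continuous_const).measurableSet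
    have e1 : (fun x : E d => {y : ℝ | |y - s| ≤ r}.indicator (fun _ => (1 : ℝ≥0∞)) ⟪x - c, e⟫) =
        {x : E d | |⟪x - c, e⟫ - s| ≤ r}.indicator (fun _ => (1 : ℝ≥0∞)) := by
      funext x
      simp only [Set.indicator_apply, Set.mem_ofPred_eq]
    rw [e1, lintegral_indicator hm', setLIntegral_const, one_mul, Measure.restrict_apply hm']
    congr 1
    ext x
    simp only [Set.mem_inter_iff, Set.mem_ofPred_eq]
    tauto
  rw [h1] at h
  refine h.trans ?_
  rw [ENNReal.ofReal_mul (by positivity)]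
  gcongr
  calc ∫⁻ y in Set.Icc (-(1 / 2) : ℝ) (1 / 2), {y : ℝ | |y - s| ≤ r}.indicator (fun _ => (1 : ℝ≥0∞)) y
      ≤ ∫⁻ y, {y : ℝ | |y - s| ≤ r}.indicator (fun _ => (1 : ℝ≥0∞)) y := setLIntegral_le_lintegral _ _
    _ = volume {y : ℝ | |y - s| ≤ r} := by
        rw [lintegral_indicator hm, setLIntegral_const, one_mul]
    _ = ENNReal.ofReal (2 * r) := by
        have : {y : ℝ | |y - s| ≤ r} = Set.Icc (s - r) (s + r) := by
          ext y
          simp only [Set.mem_ofPred_eq, Set.mem_Icc, abs_le]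
          constructor <;> rintro ⟨h1, h2⟩ <;> constructor <;> linarith
        rw [this, Real.volume_Icc]
        congr 1
        ring

/-- crossing heights covered by few intervals -/
lemma hub_few {d : ℕ} {ι : Type} [Fintype ι] (δ A K : ℝ) (hδ : 0 < δ) (hA : 0 ≤ A)
    (c e : ι → E d) (hunit : ∀ i, ‖e i‖ = 1) (P : ι → ℝ → Finset ℝ)
    (hP : ∀ θ : ℝ, δ ≤ θ → (∑ i, ((P i θ).card : ℝ)) ≤ K * Fintype.card ι)
    (hub : ∀ θ : ℝ, δ ≤ θ → ∀ i j, i ≠ j → θ ≤ ang (e i) (e j) → ∀ x ∈ tube δ (c i) (e i) ∩ tube δ (c j) (e j),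
      ∃ s ∈ P i θ, |⟪x - c i, e i⟫ - s| ≤ A * (δ / θ)) (θ : ℝ) (hθ : δ ≤ θ) :
    ∑ i, volume {x | x ∈ tube δ (c i) (e i) ∧ (1 : ℝ) ≤ farMult δ θ c e i x} ≤
      ENNReal.ofReal ((2 ^ (d + 1) * A * K) * Fintype.card ι * (δ ^ (d + 1) / θ)) := by
  classical
  have hθ0 : 0 < θ := hδ.trans_le hθ
  have h1 : ∀ i, volume {x | x ∈ tube δ (c i) (e i) ∧ (1 : ℝ) ≤ farMult δ θ c e i x} ≤
      ENNReal.ofReal (((P i θ).card : ℝ) * ((2 * δ) ^ d * (2 * (A * (δ / θ))))) := by
    intro i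
    have hsub : {x | x ∈ tube δ (c i) (e i) ∧ (1 : ℝ) ≤ farMult δ θ c e i x} ⊆
        ⋃ s ∈ P i θ, {x | x ∈ tube δ (c i) (e i) ∧ |⟪x - c i, e i⟫ - s| ≤ A * (δ / θ)} := by
      rintro x ⟨hx, hm⟩
      have hm' : 1 ≤ farMult δ θ c e i x := by exact_mod_cast hm
      rw [farMult, Nat.one_le_iff_ne_zero, ← Nat.pos_iff_ne_zero, Finset.card_pos] at hm'
      obtain ⟨j, hj⟩ := hm'
      obtain ⟨hxj, hang⟩ := (Finset.mem_filter.1 hj).2
      have hij : i ≠ j := by
        rintro rfl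
        rw [ang, sub_self, norm_zero] at hang
        have := hang.trans (min_le_left _ _)
        linarith
      obtain ⟨s, hs, h⟩ := hub θ hθ i j hij hang x ⟨hx, hxj⟩
      simp only [Set.mem_iUnion, Set.mem_ofPred_eq]
      exact ⟨s, hs, hx, h⟩
    calc volume {x | x ∈ tube δ (c i) (e i) ∧ (1 : ℝ) ≤ farMult δ θ c e i x}
        ≤ volume (⋃ s ∈ P i θ, {x | x ∈ tube δ (c i) (e i) ∧ |⟪x - c i, e i⟫ - s| ≤ A * (δ / θ)}) :=
          measure_mono hsub
      _ ≤ ∑ s ∈ P i θ, volume {x | x ∈ tube δ (c i) (e i) ∧ |⟪x - c i, e i⟫ - s| ≤ A * (δ / θ)} :=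
          measure_biUnion_finset_le _ _
      _ ≤ ∑ _s ∈ P i θ, ENNReal.ofReal ((2 * δ) ^ d * (2 * (A * (δ / θ)))) := by
          apply Finset.sum_le_sum
          intro s _
          exact volume_slab_le δ hδ.le (c i) (e i) (hunit i) s _
      _ = _ := by
          rw [Finset.sum_const, nsmul_eq_mul, ENNReal.ofReal_mul (Nat.cast_nonneg (P i θ).card), ENNReal.ofReal_natCast]
  calc ∑ i, volume {x | x ∈ tube δ (c i) (e i) ∧ (1 : ℝ) ≤ farMult δ θ c e i x}
      ≤ ∑ i, ENNReal.ofReal (((P i θ).card : ℝ) * ((2 * δ) ^ d * (2 * (A * (δ / θ))))) :=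
        Finset.sum_le_sum fun i _ => h1 i
    _ = ENNReal.ofReal ((∑ i, ((P i θ).card : ℝ)) * ((2 * δ) ^ d * (2 * (A * (δ / θ))))) := by
        rw [← ENNReal.ofReal_sum_of_nonneg (fun i _ => by positivity), Finset.sum_mul]
    _ ≤ ENNReal.ofReal ((K * Fintype.card ι) * ((2 * δ) ^ d * (2 * (A * (δ / θ))))) := by
        apply ENNReal.ofReal_le_ofReal
        exact mul_le_mul_of_nonneg_right (hP θ hθ) (by positivity)
    _ = _ := by
        congr 1
        rw [mul_pow]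
        field_simp
        ring

/-- the point at height `t` (in direction `u`) of the line `c + ℝ e` -/
noncomputable def atHeight {d : ℕ} (u : E d) (t : ℝ) (c e : E d) : E d := c + ((t - ⟪c, u⟫) / ⟪e, u⟫) • e

/-- linear algebra: separation of monotone pairs -/
lemma mono_sep {d : ℕ} (P R : E d) (hPR : 0 ≤ ⟪P, R⟫) (lam : ℝ) (h0 : 0 ≤ lam) (h1 : lam ≤ 1) :
    min lam (1 - lam) * ‖R - P‖ ≤ 2 * ‖(1 - lam) • P + lam • R‖ := by
  have hsq : ‖(1 - lam) • P + lam • R‖ ^ 2 = (1 - lam) ^ 2 * ‖P‖ ^ 2 + lam ^ 2 * ‖R‖ ^ 2 + 2 * (lam * (1 - lam)) * ⟪P, R⟫ := by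
    rw [norm_add_sq_real, norm_smul, norm_smul, inner_smul_left, inner_smul_right, mul_pow, mul_pow,
      Real.norm_eq_abs, Real.norm_eq_abs, sq_abs, sq_abs]
    simp only [conj_trivial]
    ring
  have hx : 0 ≤ 2 * (lam * (1 - lam)) * ⟪P, R⟫ := by
    have : 0 ≤ 1 - lam := by linarith
    positivity
  have hP : (1 - lam) * ‖P‖ ≤ ‖(1 - lam) • P + lam • R‖ := by
    apply le_of_sq_le_sq _ (norm_nonneg _)
    rw [hsq]
    nlinarith [mul_nonneg (sq_nonneg lam) (sq_nonneg ‖R‖)]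
  have hR : lam * ‖R‖ ≤ ‖(1 - lam) • P + lam • R‖ := by
    apply le_of_sq_le_sq _ (norm_nonneg _)
    rw [hsq]
    nlinarith [mul_nonneg (sq_nonneg (1 - lam)) (sq_nonneg ‖P‖)]
  have hmin0 : 0 ≤ min lam (1 - lam) := le_min h0 (by linarith)
  calc min lam (1 - lam) * ‖R - P‖ ≤ min lam (1 - lam) * (‖R‖ + ‖P‖) :=
        mul_le_mul_of_nonneg_left (norm_sub_le _ _) hmin0
    _ = min lam (1 - lam) * ‖R‖ + min lam (1 - lam) * ‖P‖ := by ring
    _ ≤ lam * ‖R‖ + (1 - lam) * ‖P‖ := by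
        gcongr
        · exact min_le_left _ _
        · exact min_le_right _ _
    _ ≤ 2 * ‖(1 - lam) • P + lam • R‖ := by linarith


/-- normalising vectors of norm at least one does not increase distances -/
lemma slope_sep {d : ℕ} (e f : E d) (he : ‖e‖ = 1) (hf : ‖f‖ = 1) (a b : ℝ) (ha : 1 ≤ a) (hb : 1 ≤ b) :
    ‖e - f‖ ≤ ‖a • e - b • f‖ := by
  apply le_of_sq_le_sq _ (norm_nonneg _)
  rw [norm_sub_sq_real, norm_sub_sq_real, norm_smul, norm_smul, inner_smul_left, inner_smul_right, he, hf,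
    Real.norm_eq_abs, Real.norm_eq_abs]
  simp only [conj_trivial, mul_one, one_pow, sq_abs]
  have hc : ⟪e, f⟫ ≤ 1 := by
    have := real_inner_le_norm e f
    rwa [he, hf, one_mul] at this
  have hab : 1 ≤ a * b := by nlinarith
  nlinarith [sq_nonneg (a - b), mul_nonneg (sub_nonneg.2 hab) (sub_nonneg.2 hc)]

/-- monotone pairings have two hubs -/
lemma mono_hub {d : ℕ} {ι : Type} (δ σ t0 t1 : ℝ) (hδ : 0 < δ) (hσ : 0 < σ) (ht : t0 < t1)
    (u : E d) (hu : ‖u‖ = 1) (c e : ι → E d) (hunit : ∀ i, ‖e i‖ = 1) (hσe : ∀ i, σ ≤ ⟪e i, u⟫)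
    (hslab : ∀ i, t0 ≤ ⟪c i, u⟫ - ⟪e i, u⟫ / 2 ∧ ⟪c i, u⟫ + ⟪e i, u⟫ / 2 ≤ t1)
    (hmono : ∀ i j, 0 ≤ ⟪atHeight u t0 (c i) (e i) - atHeight u t0 (c j) (e j),
      atHeight u t1 (c i) (e i) - atHeight u t1 (c j) (e j)⟫)
    (θ : ℝ) (hθ : δ ≤ θ) (i j : ι) (hang : θ ≤ ang (e i) (e j))
    (x : E d) (hx : x ∈ tube δ (c i) (e i) ∩ tube δ (c j) (e j)) :
    ∃ s ∈ ({(t0 - ⟪c i, u⟫) / ⟪e i, u⟫, (t1 - ⟪c i, u⟫) / ⟪e i, u⟫} : Finset ℝ),
      |⟪x - c i, e i⟫ - s| ≤ 8 / σ ^ 2 * (δ / θ) := by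
  classical
  have hθ0 : 0 < θ := hδ.trans_le hθ
  have hi0 : 0 < ⟪e i, u⟫ := hσ.trans_le (hσe i)
  have hj0 : 0 < ⟪e j, u⟫ := hσ.trans_le (hσe j)
  have hle1 : ∀ k, ⟪e k, u⟫ ≤ 1 := by
    intro k
    have := real_inner_le_norm (e k) u
    rwa [hunit k, hu, one_mul] at this
  have hσ1 : σ ≤ 1 := (hσe i).trans (hle1 i)
  set si : ℝ := ⟪x - c i, e i⟫ with hsi
  set sj : ℝ := ⟪x - c j, e j⟫ with hsj
  set Xi : E d := c i + si • e i with hXi
  set Xj : E d := c j + sj • e j with hXj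
  have hxi : ‖x - Xi‖ ≤ δ := by
    have : x - Xi = (x - c i) - ⟪x - c i, e i⟫ • e i := by rw [hXi, hsi]; abel
    rw [this]; exact hx.1.2
  have hxj : ‖x - Xj‖ ≤ δ := by
    have : x - Xj = (x - c j) - ⟪x - c j, e j⟫ • e j := by rw [hXj, hsj]; abel
    rw [this]; exact hx.2.2
  have hXX : ‖Xi - Xj‖ ≤ 2 * δ := by
    have : Xi - Xj = (x - Xj) - (x - Xi) := by abel
    rw [this]
    calc _ ≤ ‖x - Xj‖ + ‖x - Xi‖ := norm_sub_le _ _
      _ ≤ 2 * δ := by linarith
  set t : ℝ := ⟪Xi, u⟫ with htdef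
  have htXi : t = ⟪c i, u⟫ + si * ⟪e i, u⟫ := by
    rw [htdef, hXi, inner_add_left, inner_smul_left]; simp
  have hXju : ⟪Xj, u⟫ = ⟪c j, u⟫ + sj * ⟪e j, u⟫ := by
    rw [hXj, inner_add_left, inner_smul_left]; simp
  have hsi2 := abs_le.1 hx.1.1
  have ht0 : t0 ≤ t := by
    rw [htXi]; have := (hslab i).1; nlinarith [hsi2.1]
  have ht1 : t ≤ t1 := by
    rw [htXi]; have := (hslab i).2; nlinarith [hsi2.2]
  have hFi : atHeight u t (c i) (e i) = Xi := by
    rw [atHeight, hXi, htXi]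
    congr 2
    field_simp
    ring
  have hFj : atHeight u t (c j) (e j) = Xj + ((t - ⟪Xj, u⟫) / ⟪e j, u⟫) • e j := by
    rw [atHeight, hXju]
    conv_rhs => rw [hXj, add_assoc, ← add_smul]
    congr 2
    field_simp
    ring
  have htt : |t - ⟪Xj, u⟫| ≤ 2 * δ := by
    have : t - ⟪Xj, u⟫ = ⟪Xi - Xj, u⟫ := by rw [htdef, inner_sub_left]
    rw [this]
    calc |⟪Xi - Xj, u⟫| ≤ ‖Xi - Xj‖ * ‖u‖ := abs_real_inner_le_norm _ _
      _ ≤ 2 * δ := by rw [hu, mul_one]; exact hXX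
  have hdist : ‖atHeight u t (c i) (e i) - atHeight u t (c j) (e j)‖ ≤ 4 * δ / σ := by
    rw [hFi, hFj]
    have e1 : Xi - (Xj + ((t - ⟪Xj, u⟫) / ⟪e j, u⟫) • e j) = (Xi - Xj) - ((t - ⟪Xj, u⟫) / ⟪e j, u⟫) • e j := by abel
    rw [e1]
    calc _ ≤ ‖Xi - Xj‖ + ‖((t - ⟪Xj, u⟫) / ⟪e j, u⟫) • e j‖ := norm_sub_le _ _
      _ ≤ 2 * δ + 2 * δ / σ := by
          rw [norm_smul, hunit j, mul_one, Real.norm_eq_abs, abs_div, abs_of_pos hj0]
          gcongr
          exact hσe j
      _ ≤ 4 * δ / σ := by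
          have : 2 * δ ≤ 2 * δ / σ := by
            rw [le_div_iff₀ hσ]; nlinarith
          have e2 : 4 * δ / σ = 2 * δ / σ + 2 * δ / σ := by ring
          rw [e2]; linarith
  -- interpolation
  set lam : ℝ := (t - t0) / (t1 - t0) with hlam
  have ht10 : 0 < t1 - t0 := by linarith
  have hl0 : 0 ≤ lam := div_nonneg (by linarith) ht10.le
  have hl1 : lam ≤ 1 := (div_le_one ht10).2 (by linarith)
  have hinterp : ∀ k, atHeight u t (c k) (e k) = (1 - lam) • atHeight u t0 (c k) (e k) + lam • atHeight u t1 (c k) (e k) := by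
    intro k
    have hk0 : ⟪e k, u⟫ ≠ 0 := (hσ.trans_le (hσe k)).ne'
    simp only [atHeight, smul_add, smul_smul]
    have e1 : (1 - lam) • c k + ((1 - lam) * ((t0 - ⟪c k, u⟫) / ⟪e k, u⟫)) • e k +
        (lam • c k + (lam * ((t1 - ⟪c k, u⟫) / ⟪e k, u⟫)) • e k) =
        c k + ((1 - lam) * ((t0 - ⟪c k, u⟫) / ⟪e k, u⟫) + lam * ((t1 - ⟪c k, u⟫) / ⟪e k, u⟫)) • e k := by
      rw [add_smul, sub_smul, one_smul]; abel
    rw [e1]
    congr 2
    have : t = (1 - lam) * t0 + lam * t1 := by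
      rw [hlam]; field_simp; ring
    rw [this]
    field_simp
    ring
  have hsep := mono_sep _ _ (hmono i j) lam hl0 hl1
  have e3 : (1 - lam) • (atHeight u t0 (c i) (e i) - atHeight u t0 (c j) (e j)) +
      lam • (atHeight u t1 (c i) (e i) - atHeight u t1 (c j) (e j)) =
      atHeight u t (c i) (e i) - atHeight u t (c j) (e j) := by
    rw [hinterp i, hinterp j, smul_sub, smul_sub]; abel
  rw [e3] at hsep
  have e4 : (atHeight u t1 (c i) (e i) - atHeight u t1 (c j) (e j)) -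
      (atHeight u t0 (c i) (e i) - atHeight u t0 (c j) (e j)) =
      (t1 - t0) • ((1 / ⟪e i, u⟫) • e i - (1 / ⟪e j, u⟫) • e j) := by
    simp only [atHeight, smul_sub, smul_smul]
    have h1 : (t1 - t0) * (1 / ⟪e i, u⟫) = (t1 - ⟪c i, u⟫) / ⟪e i, u⟫ - (t0 - ⟪c i, u⟫) / ⟪e i, u⟫ := by ring
    have h2 : (t1 - t0) * (1 / ⟪e j, u⟫) = (t1 - ⟪c j, u⟫) / ⟪e j, u⟫ - (t0 - ⟪c j, u⟫) / ⟪e j, u⟫ := by ring
    rw [h1, h2, sub_smul, sub_smul]; abel
  rw [e4, norm_smul, Real.norm_eq_abs, abs_of_pos ht10] at hsep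
  have hslope : θ ≤ ‖(1 / ⟪e i, u⟫) • e i - (1 / ⟪e j, u⟫) • e j‖ :=
    hang.trans ((min_le_left _ _).trans (slope_sep _ _ (hunit i) (hunit j) _ _
      ((one_le_div hi0).2 (hle1 i)) ((one_le_div hj0).2 (hle1 j))))
  have hmin0 : 0 ≤ min lam (1 - lam) := le_min hl0 (by linarith)
  have hkey : min lam (1 - lam) * (t1 - t0) * θ ≤ 8 * δ / σ := by
    calc min lam (1 - lam) * (t1 - t0) * θ ≤ min lam (1 - lam) * (t1 - t0) *
          ‖(1 / ⟪e i, u⟫) • e i - (1 / ⟪e j, u⟫) • e j‖ := by gcongr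
      _ ≤ 2 * ‖atHeight u t (c i) (e i) - atHeight u t (c j) (e j)‖ := by rw [mul_assoc]; exact hsep
      _ ≤ 2 * (4 * δ / σ) := by gcongr
      _ = 8 * δ / σ := by ring
  have hfin : ∀ y : ℝ, 0 ≤ y → y * θ ≤ 8 * δ / σ → y / ⟪e i, u⟫ ≤ 8 / σ ^ 2 * (δ / θ) := by
    intro y hy h
    have h1 : y ≤ 8 * δ / σ / θ := by rwa [le_div_iff₀ hθ0]
    calc y / ⟪e i, u⟫ ≤ y / σ := by gcongr; exact hσe i
      _ ≤ (8 * δ / σ / θ) / σ := by gcongr
      _ = 8 / σ ^ 2 * (δ / θ) := by field_simp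
  rcases le_total lam (1 - lam) with h | h
  · refine ⟨_, Finset.mem_insert_self _ _, ?_⟩
    rw [min_eq_left h] at hkey
    have h1 : lam * (t1 - t0) = t - t0 := by rw [hlam]; field_simp
    rw [h1] at hkey
    have h2 : si - (t0 - ⟪c i, u⟫) / ⟪e i, u⟫ = (t - t0) / ⟪e i, u⟫ := by
      rw [htXi]; field_simp; ring
    rw [h2, abs_of_nonneg (div_nonneg (by linarith) hi0.le)]
    exact hfin _ (by linarith) hkey
  · refine ⟨_, Finset.mem_insert_of_mem (Finset.mem_singleton_self _), ?_⟩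
    rw [min_eq_right h] at hkey
    have h1 : (1 - lam) * (t1 - t0) = t1 - t := by rw [hlam]; field_simp; ring
    rw [h1] at hkey
    have h2 : si - (t1 - ⟪c i, u⟫) / ⟪e i, u⟫ = -((t1 - t) / ⟪e i, u⟫) := by
      rw [htXi]; field_simp; ring
    rw [h2, abs_neg, abs_of_nonneg (div_nonneg (by linarith) hi0.le)]
    exact hfin _ (by linarith) hkey


/-- Example: the heights at which a tube is crossed at angle at least `θ` are covered by few intervals
of length `2 A δ/θ`. -/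
theorem hubs (d : ℕ) (hd : 1 ≤ d) (q : ℝ) (hq : ((d : ℝ) + 1) / d < q) :
    ∃ C : ℝ, 0 < C ∧ ∀ δ : ℝ, 0 < δ → δ < 1 → ∀ (ι : Type) [Fintype ι]
      (c e : ι → EuclideanSpace ℝ (Fin (d + 1))), (∀ i, ‖e i‖ = 1) → (∀ i j, i ≠ j → δ ≤ ‖e i - e j‖) →
      ∀ A K : ℝ, 0 ≤ A → 0 ≤ K → ∀ P : ι → ℝ → Finset ℝ,
      (∀ θ : ℝ, δ ≤ θ → ∑ i, ((P i θ).card : ℝ) ≤ K * Fintype.card ι) →
      (∀ θ : ℝ, δ ≤ θ → ∀ i j, i ≠ j → θ ≤ ang (e i) (e j) →
        ∀ x ∈ tube δ (c i) (e i) ∩ tube δ (c j) (e j), ∃ s ∈ P i θ, |⟪x - c i, e i⟫ - s| ≤ A * (δ / θ)) →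
      eLpNorm (fun x => ∑ i, (tube δ (c i) (e i)).indicator (fun _ => (1 : ℝ)) x) (ENNReal.ofReal q) volume ≤
        ENNReal.ofReal (C * (1 + 2 ^ (d + 1) * A * K) ^ (1 / q) *
          (δ ^ ((d : ℝ) / q) * (Fintype.card ι : ℝ) ^ (1 - 1 / (q * d)))) := by
  obtain ⟨C, hC, H⟩ := result d hd q hq
  refine ⟨C, hC, ?_⟩
  intro δ hδ hδ1 ι _ c e hunit hsep A K hA hK P hP hub
  have h := H δ hδ hδ1 ι c e hunit hsep 1 (2 ^ (d + 1) * A * K) le_rfl (by positivity) (fun θ hθ =>
    hub_few δ A K hδ hA c e hunit P hP hub θ hθ)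
  rwa [Real.one_rpow] at h

/-- Example: monotone pairing of the points of the lines on two parallel hyperplanes. -/
theorem monotone (d : ℕ) (hd : 1 ≤ d) (q : ℝ) (hq : ((d : ℝ) + 1) / d < q) :
    ∃ C : ℝ, 0 < C ∧ ∀ δ : ℝ, 0 < δ → δ < 1 → ∀ (ι : Type) [Fintype ι]
      (c e : ι → EuclideanSpace ℝ (Fin (d + 1))), (∀ i, ‖e i‖ = 1) → (∀ i j, i ≠ j → δ ≤ ‖e i - e j‖) →
      ∀ σ t0 t1 : ℝ, 0 < σ → t0 < t1 → ∀ u : EuclideanSpace ℝ (Fin (d + 1)), ‖u‖ = 1 →
      (∀ i, σ ≤ ⟪e i, u⟫) →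
      (∀ i, t0 ≤ ⟪c i, u⟫ - ⟪e i, u⟫ / 2 ∧ ⟪c i, u⟫ + ⟪e i, u⟫ / 2 ≤ t1) →
      (∀ i j, 0 ≤ ⟪atHeight u t0 (c i) (e i) - atHeight u t0 (c j) (e j),
        atHeight u t1 (c i) (e i) - atHeight u t1 (c j) (e j)⟫) →
      eLpNorm (fun x => ∑ i, (tube δ (c i) (e i)).indicator (fun _ => (1 : ℝ)) x) (ENNReal.ofReal q) volume ≤
        ENNReal.ofReal (C * (1 / σ) ^ (2 / q) *
          (δ ^ ((d : ℝ) / q) * (Fintype.card ι : ℝ) ^ (1 - 1 / (q * d)))) := by
  classical
  obtain ⟨C, hC, H⟩ := hubs d hd q hq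
  have hd0 : (0 : ℝ) < d := by exact_mod_cast (by omega : 0 < d)
  have hinv : 0 < 1 / (d : ℝ) := by positivity
  have hq0 : 0 < q := by
    have : ((d : ℝ) + 1) / d = 1 + 1 / d := by field_simp
    rw [this] at hq; linarith
  refine ⟨C * (2 ^ (d + 6)) ^ (1 / q), by positivity, ?_⟩
  intro δ hδ hδ1 ι _ c e hunit hsep σ t0 t1 hσ ht u hu hσe hslab hmono
  rcases isEmpty_or_nonempty ι with hemp | hne
  · have : (fun x => ∑ i, (tube δ (c i) (e i)).indicator (fun _ => (1 : ℝ)) x) = fun _ => 0 := by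
      funext x; simp
    rw [this]
    simp
  have hσ1 : σ ≤ 1 := by
    obtain ⟨i⟩ := hne
    have := real_inner_le_norm (e i) u
    rw [hunit i, hu, one_mul] at this
    exact (hσe i).trans this
  have h := H δ hδ hδ1 ι c e hunit hsep (8 / σ ^ 2) 2 (by positivity) (by norm_num)
    (fun i _ => {(t0 - ⟪c i, u⟫) / ⟪e i, u⟫, (t1 - ⟪c i, u⟫) / ⟪e i, u⟫})
    (by
      intro θ _
      calc ∑ i, ((({(t0 - ⟪c i, u⟫) / ⟪e i, u⟫, (t1 - ⟪c i, u⟫) / ⟪e i, u⟫} : Finset ℝ).card : ℕ) : ℝ)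
          ≤ ∑ _i : ι, (2 : ℝ) := Finset.sum_le_sum fun i _ => by exact_mod_cast Finset.card_le_two
        _ = 2 * Fintype.card ι := by
          rw [Finset.sum_const, Finset.card_univ, nsmul_eq_mul, mul_comm])
    (fun θ hθ i j _ hang x hx =>
      mono_hub δ σ t0 t1 hδ hσ ht u hu c e hunit hσe hslab hmono θ hθ i j hang x hx)
  refine h.trans (ENNReal.ofReal_le_ofReal (mul_le_mul_of_nonneg_right ?_ (by positivity)))
  have e1 : (1 / σ) ^ (2 / q) = ((1 / σ) ^ 2) ^ (1 / q) := by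
    rw [← Real.rpow_natCast, ← Real.rpow_mul (by positivity)]
    congr 1
    push_cast
    ring
  have e0 : C * (2 ^ (d + 6)) ^ (1 / q) * (1 / σ) ^ (2 / q) = C * ((2 ^ (d + 6)) * (1 / σ) ^ 2) ^ (1 / q) := by
    rw [e1, Real.mul_rpow (by positivity) (by positivity)]; ring
  rw [e0]
  have h1 : (1 : ℝ) ≤ (1 / σ) ^ 2 := one_le_pow₀ ((one_le_div hσ).2 hσ1)
  have h2 : (1 / σ) ^ 2 = 1 / σ ^ 2 := by rw [div_pow, one_pow]
  have h6 : 1 + 2 ^ (d + 1) * (8 / σ ^ 2) * 2 ≤ 2 ^ (d + 6) * (1 / σ) ^ 2 := by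
    rw [h2] at h1 ⊢
    have h3 : (2 : ℝ) ^ (d + 6) = 64 * 2 ^ d := by rw [pow_add]; ring
    have h4 : (2 : ℝ) ^ (d + 1) * (8 / σ ^ 2) * 2 = 32 * 2 ^ d * (1 / σ ^ 2) := by rw [pow_succ]; ring
    have h5 : (1 : ℝ) ≤ 2 ^ d := one_le_pow₀ (by norm_num)
    rw [h3, h4]
    nlinarith
  gcongr

end Pool.Agent.H92.FewCrossings
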