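import Pool.Agent.H92.Step

set_option autoImplicit false

open MeasureTheory Filter Topology Set

namespace Pool.Agent.H92

section path

variable {K : Type*} [AddCommGroup K]

theorem exp_neg_eq_close {z z' : ℂ} (h : Complex.exp (-z) = Complex.exp (-z')) (hd : ‖z - z'‖ < 2 * Real.pi) :
    z = z' := by
  obtain ⟨n, hn⟩ := Complex.exp_eq_exp_iff_exists_int.1 h
  have h1 : z - z' = -(n * (2 * Real.pi * Complex.I)) := by
    linear_combination -hn
  have h2 : ‖z - z'‖ = |(n : ℝ)| * (2 * Real.pi) := by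
    rw [h1, norm_neg, norm_mul, norm_mul, norm_mul, Complex.norm_I, mul_one, Complex.norm_intCast]
    congr 1
    rw [Complex.norm_real, Real.norm_eq_abs, abs_of_pos Real.pi_pos]
    simp
  rw [h2] at hd
  have h3 : |(n : ℝ)| < 1 := by
    have hpi := Real.pi_pos
    by_contra hge
    push Not at hge
    nlinarith
  have h4 : n = 0 := by
    have : |n| < 1 := by exact_mod_cast h3
    exact Int.abs_lt_one_iff.1 this
  rw [h4] at h1
  simpa [sub_eq_zero] using h1

/-- local persistence of zeros -/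
theorem persist_local {h : K → ℂ} {l : K →+ ℝ} (hs : Summable fun x => ‖h x‖)
    (hl : ∀ x, h x ≠ 0 → 0 ≤ l x) {c : ℂ} (hc : c ≠ 0) {x : K} {φ : DualG K → ℂ}
    (hA : ∀ (z : ℂ) (ω : DualG K), 0 ≤ z.re → GG h l z ω = 0 →
      c * Complex.exp (-z) * ((ω x : Circle) : ℂ) + φ ω = 0)
    {z₀ : ℂ} {ω₀ : DualG K} (hz₀ : 0 < z₀.re) (h0 : GG h l z₀ ω₀ = 0) :
    ∃ r : ℝ, 0 < r ∧ ∀ᶠ ω in 𝓝 ω₀, ∀ z : ℂ, ‖z - z₀‖ < r →
      c * Complex.exp (-z) * ((ω x : Circle) : ℂ) + φ ω = 0 → GG h l z ω = 0 := by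
  set r : ℝ := min (1 / 2) (z₀.re / 2) with hr
  have hr0 : 0 < r := lt_min (by norm_num) (by linarith)
  have hr1 : r ≤ 1 / 2 := min_le_left _ _
  have hr2 : r ≤ z₀.re / 2 := min_le_right _ _
  have hball : ∀ z ∈ Metric.closedBall z₀ r, 0 < z.re := by
    intro z hz
    rw [Metric.mem_closedBall, dist_eq_norm] at hz
    have h2 := Complex.abs_re_le_norm (z - z₀)
    rw [Complex.sub_re] at h2
    have h3 := abs_le.1 (h2.trans hz)
    linarith [h3.1]
  -- two zeros of the f-transform are equal if close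
  have huniq : ∀ (ω : DualG K) (z z' : ℂ), ‖z - z'‖ < 2 * Real.pi →
      c * Complex.exp (-z) * ((ω x : Circle) : ℂ) + φ ω = 0 →
      c * Complex.exp (-z') * ((ω x : Circle) : ℂ) + φ ω = 0 → z = z' := by
    intro ω z z' hd h1 h2
    refine exp_neg_eq_close ?_ hd
    have hω : ((ω x : Circle) : ℂ) ≠ 0 := Circle.coe_ne_zero _
    have h3 : c * ((ω x : Circle) : ℂ) * (Complex.exp (-z) - Complex.exp (-z')) = 0 := by
      linear_combination h1 - h2
    have h4 := (mul_eq_zero.1 h3).resolve_left (mul_ne_zero hc hω)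
    exact sub_eq_zero.1 h4
  -- minimum on the circle
  have hcont : ContinuousOn (fun z => ‖GG h l z ω₀‖) (Metric.sphere z₀ r) := by
    refine ContinuousOn.norm ?_
    refine (GG_continuousOn hs hl).comp (f := fun z : ℂ => (z, ω₀)) (by fun_prop) ?_
    intro z hz
    exact ⟨(hball z (Metric.sphere_subset_closedBall hz)).le, mem_univ _⟩
  have hne : (Metric.sphere z₀ r).Nonempty := (NormedSpace.sphere_nonempty).2 hr0.le
  obtain ⟨z₁, hz₁, hmin⟩ := (isCompact_sphere z₀ r).exists_isMinOn hne hcont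
  have hmin' : ∀ z ∈ Metric.sphere z₀ r, ‖GG h l z₁ ω₀‖ ≤ ‖GG h l z ω₀‖ := fun z hz => by
    have := isMinOn_iff.1 hmin z hz
    exact this
  set m := ‖GG h l z₁ ω₀‖ with hm
  have hm0 : 0 < m := by
    rw [hm, norm_pos_iff]
    intro h1
    have hz1re := hball z₁ (Metric.sphere_subset_closedBall hz₁)
    have h2 := huniq ω₀ z₁ z₀ ?_ (hA z₁ ω₀ hz1re.le h1) (hA z₀ ω₀ hz₀.le h0)
    · rw [h2] at hz₁
      rw [Metric.mem_sphere, dist_self] at hz₁
      linarith
    · rw [Metric.mem_sphere, dist_eq_norm] at hz₁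
      rw [hz₁]
      have := Real.pi_gt_three
      linarith
  refine ⟨r, hr0, ?_⟩
  have hdd : ∀ᶠ ω in 𝓝 ω₀, dd h ω ω₀ < m / 4 := by
    have h1 := (continuous_dd hs ω₀).tendsto ω₀
    rw [dd_self] at h1
    exact (tendsto_order.1 h1).2 _ (by linarith)
  filter_upwards [hdd] with ω hω z hz hzero
  -- there is a zero in the closed ball
  obtain ⟨z', hz', hz'0⟩ : ∃ z' ∈ Metric.closedBall z₀ r, GG h l z' ω = 0 := by
    by_contra hcon
    push Not at hcon
    have hd : DiffContOnCl ℂ (fun z => (GG h l z ω)⁻¹) (Metric.ball z₀ r) := by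
      refine DiffContOnCl.inv ?_ ?_
      · refine (GG_diffContOnCl hs hl ω).mono ?_
        intro z hz
        exact hball z (Metric.ball_subset_closedBall hz)
      · intro z hz
        exact hcon z (Metric.closure_ball_subset_closedBall hz)
    have h1 : ‖(GG h l z₀ ω)⁻¹‖ ≤ (3 * m / 4)⁻¹ := by
      refine Complex.norm_le_of_forall_mem_frontier_norm_le (f := fun z => (GG h l z ω)⁻¹)
        Metric.isBounded_ball hd ?_ (subset_closure (Metric.mem_ball_self hr0))
      intro z hz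
      have hz2 : z ∈ Metric.sphere z₀ r := Metric.frontier_ball_subset_sphere hz
      rw [norm_inv]
      refine inv_anti₀ (by linarith) ?_
      have h3 := GG_sub_le hs hl (hball z (Metric.sphere_subset_closedBall hz2)).le ω ω₀
      have h4 := hmin' z hz2
      have h5 := norm_sub_norm_le (GG h l z ω₀) (GG h l z ω)
      rw [norm_sub_rev] at h5
      linarith
    have h2 := GG_sub_le hs hl hz₀.le ω ω₀
    rw [h0, sub_zero] at h2
    have h3 : 0 < ‖GG h l z₀ ω‖ := norm_pos_iff.2 (hcon z₀ (Metric.mem_closedBall_self hr0.le))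
    rw [norm_inv, inv_le_inv₀ h3 (by linarith)] at h1
    linarith
  have h1 := hA z' ω (hball z' hz').le hz'0
  have h2 : z = z' := by
    refine huniq ω z z' ?_ hzero h1
    rw [Metric.mem_closedBall, dist_eq_norm] at hz'
    have h3 : ‖z - z'‖ ≤ ‖z - z₀‖ + ‖z' - z₀‖ := by
      have : z - z' = (z - z₀) - (z' - z₀) := by ring
      rw [this]
      exact norm_sub_le _ _
    have := Real.pi_gt_three
    linarith
  rw [h2]
  exact hz'0

/-- persistence of zeros along paths -/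
theorem persist_path {h : K → ℂ} {l : K →+ ℝ} (hs : Summable fun x => ‖h x‖)
    (hl : ∀ x, h x ≠ 0 → 0 ≤ l x) {c : ℂ} (hc : c ≠ 0) {x : K} {φ : DualG K → ℂ}
    (hA : ∀ (z : ℂ) (ω : DualG K), 0 ≤ z.re → GG h l z ω = 0 →
      c * Complex.exp (-z) * ((ω x : Circle) : ℂ) + φ ω = 0)
    {T : ℝ} (hT : 0 ≤ T) {z : ℝ → ℂ} {w : ℝ → DualG K} (hz : ContinuousOn z (Icc 0 T))
    (hw : ContinuousOn w (Icc 0 T)) (hre : ∀ t ∈ Icc 0 T, 0 < (z t).re)
    (hzero : ∀ t ∈ Icc 0 T,
      c * Complex.exp (-(z t)) * (((w t) x : Circle) : ℂ) + φ (w t) = 0)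
    (h0 : GG h l (z 0) (w 0) = 0) : GG h l (z T) (w T) = 0 := by
  have hpc : PreconnectedSpace (Icc 0 T) := Subtype.preconnectedSpace isPreconnected_Icc
  have hz' : Continuous fun t : Icc 0 T => z t := continuousOn_iff_continuous_domRestrict.1 hz
  have hw' : Continuous fun t : Icc 0 T => w t := continuousOn_iff_continuous_domRestrict.1 hw
  set S : Set (Icc 0 T) := {t | GG h l (z t) (w t) = 0} with hS
  have hGc : Continuous fun t : Icc 0 T => GG h l (z t) (w t) := by
    rw [← continuousOn_univ]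
    refine (GG_continuousOn hs hl).comp (f := fun t : Icc 0 T => (z t, w t))
      (hz'.prodMk hw').continuousOn ?_
    intro t _
    exact ⟨(hre t t.2).le, mem_univ _⟩
  have hclosed : IsClosed S := isClosed_eq hGc continuous_const
  have hopen : IsOpen S := by
    rw [isOpen_iff_mem_nhds]
    intro t ht
    obtain ⟨r, hr, hev⟩ := persist_local hs hl hc hA (hre t t.2) ht
    have h1 : ∀ᶠ s : Icc 0 T in 𝓝 t, ‖z s - z t‖ < r := by
      have h2 := (hz'.tendsto t)
      have h3 := (h2.sub_const (z t)).norm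
      rw [sub_self, norm_zero] at h3
      exact (tendsto_order.1 h3).2 r hr
    have h2 := (hw'.tendsto t).eventually hev
    filter_upwards [h1, h2] with s hs1 hs2
    exact hs2 (z s) hs1 (hzero s s.2)
  have hne : S.Nonempty := ⟨⟨0, left_mem_Icc.2 hT⟩, h0⟩
  have huniv : S = univ := IsClopen.eq_univ ⟨hclosed, hopen⟩ hne
  have : (⟨T, right_mem_Icc.2 hT⟩ : Icc 0 T) ∈ S := by
    rw [huniv]
    exact mem_univ _
  exact this

/-- a zero cannot be pushed to the boundary if there are no boundary zeros -/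
theorem push_boundary {h : K → ℂ} {l : K →+ ℝ} (hs : Summable fun x => ‖h x‖)
    (hl : ∀ x, h x ≠ 0 → 0 ≤ l x) {c : ℂ} (hc : c ≠ 0) {x : K} {φ : DualG K → ℂ}
    (hA : ∀ (z : ℂ) (ω : DualG K), 0 ≤ z.re → GG h l z ω = 0 →
      c * Complex.exp (-z) * ((ω x : Circle) : ℂ) + φ ω = 0)
    {z : ℝ → ℂ} {w : ℝ → DualG K} (hz : ContinuousOn z (Icc 0 1))
    (hw : ContinuousOn w (Icc 0 1)) (hre0 : 0 < (z 0).re) (hre1 : (z 1).re ≤ 0)
    (hzero : ∀ t ∈ Icc (0 : ℝ) 1,
      c * Complex.exp (-(z t)) * (((w t) x : Circle) : ℂ) + φ (w t) = 0)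
    (h0 : GG h l (z 0) (w 0) = 0) (hb : ∀ ω, GG h l 0 ω ≠ 0) : False := by
  set S : Set ℝ := {t | t ∈ Icc (0 : ℝ) 1 ∧ (z t).re ≤ 0} with hS
  have hSc : IsClosed S := by
    have h1 : S = Icc 0 1 ∩ (fun t => (z t).re) ⁻¹' (Iic 0) := by
      ext t
      simp [hS]
    rw [h1]
    exact (Complex.continuous_re.comp_continuousOn hz).preimage_isClosed_of_isClosed
      isClosed_Icc isClosed_Iic
  have hSne : S.Nonempty := ⟨1, right_mem_Icc.2 zero_le_one, hre1⟩
  have hSb : BddBelow S := ⟨0, fun t ht => ht.1.1⟩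
  set t₁ := sInf S with ht₁
  have ht₁S : t₁ ∈ S := hSc.csInf_mem hSne hSb
  have ht₁0 : 0 < t₁ := by
    rcases ht₁S.1.1.eq_or_lt with h | h
    · exfalso
      have h2 := ht₁S.2
      rw [← h] at h2
      linarith
    · exact h
  have hpos : ∀ t, 0 ≤ t → t < t₁ → 0 < (z t).re := by
    intro t h1 h2
    by_contra hcon
    push Not at hcon
    have h3 : t ∈ S := ⟨⟨h1, h2.le.trans ht₁S.1.2⟩, hcon⟩
    exact absurd (csInf_le hSb h3) (not_le.2 h2)
  have hsub : ∀ t, t ≤ t₁ → Icc 0 t ⊆ Icc (0 : ℝ) 1 := fun t ht s hs =>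
    ⟨hs.1, hs.2.trans (ht.trans ht₁S.1.2)⟩
  have hzeros : ∀ t, 0 ≤ t → t < t₁ → GG h l (z t) (w t) = 0 := by
    intro t h1 h2
    refine persist_path hs hl hc hA h1 (hz.mono (hsub t h2.le)) (hw.mono (hsub t h2.le)) ?_ ?_ h0
    · intro s hs
      exact hpos s hs.1 (hs.2.trans_lt h2)
    · intro s hs
      exact hzero s (hsub t h2.le hs)
  -- nonneg real part on the closed interval
  have hre : ∀ t ∈ Icc 0 t₁, 0 ≤ (z t).re := by
    intro t ht
    have hcl : Icc 0 t₁ = closure (Ico 0 t₁) := (closure_Ico ht₁0.ne).symm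
    have hcont : ContinuousOn (fun t => (z t).re) (Icc 0 t₁) :=
      (Complex.continuous_re.comp_continuousOn hz).mono (hsub t₁ le_rfl)
    have hc2 : ContinuousOn (fun t => (z t).re) (closure (Ico 0 t₁)) := by rwa [← hcl]
    have h3 : MapsTo (fun t => (z t).re) (Ico 0 t₁) (Ici 0) := fun s hs => (hpos s hs.1 hs.2).le
    have h4 := h3.closure_of_continuousOn hc2
    rw [← hcl, closure_Ici] at h4
    exact h4 ht
  have hGt : GG h l (z t₁) (w t₁) = 0 := by
    have hcl : Icc 0 t₁ = closure (Ico 0 t₁) := (closure_Ico ht₁0.ne).symm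
    have hGc : ContinuousOn (fun t => GG h l (z t) (w t)) (Icc 0 t₁) := by
      refine (GG_continuousOn hs hl).comp (f := fun t : ℝ => (z t, w t))
        ((hz.mono (hsub t₁ le_rfl)).prodMk (hw.mono (hsub t₁ le_rfl))) ?_
      intro t ht
      exact ⟨hre t ht, mem_univ _⟩
    have hc2 : ContinuousOn (fun t => GG h l (z t) (w t)) (closure (Ico 0 t₁)) := by rwa [← hcl]
    have h3 : MapsTo (fun t => GG h l (z t) (w t)) (Ico 0 t₁) {0} := fun s hs => hzeros s hs.1 hs.2
    have h4 := h3.closure_of_continuousOn hc2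
    rw [← hcl, closure_singleton] at h4
    exact h4 (right_mem_Icc.2 ht₁0.le)
  have hret : (z t₁).re = 0 := le_antisymm ht₁S.2 (hre t₁ (right_mem_Icc.2 ht₁0.le))
  rw [GG_eq_re, hret] at hGt
  exact hb _ hGt

end path

end Pool.Agent.H92
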