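import Pool.Agent.H92.Basic

set_option autoImplicit false

open MeasureTheory Filter Topology Set

namespace Pool.Agent.H92

section step

variable {K : Type*} [AddCommGroup K]

/-- `G(z, ω) = Σ h(x) exp(-z λ(x)) ω(x)` -/
noncomputable def GG (h : K → ℂ) (l : K →+ ℝ) (z : ℂ) (ω : DualG K) : ℂ :=
  ∑' x, h x * Complex.exp (-z * (l x : ℂ)) * ((ω x : Circle) : ℂ)

open Classical in
/-- the part of `h` where `λ = 0` -/
noncomputable def part0 (h : K → ℂ) (l : K →+ ℝ) (x : K) : ℂ := if l x = 0 then h x else 0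

theorem GG_zero (h : K → ℂ) (l : K →+ ℝ) (ω : DualG K) : GG h l 0 ω = ft h ω := by
  unfold GG ft
  refine tsum_congr fun x => ?_
  simp

theorem GG_term_le {h : K → ℂ} {l : K →+ ℝ} (hl : ∀ x, h x ≠ 0 → 0 ≤ l x) {z : ℂ}
    (hz : 0 ≤ z.re) (ω : DualG K) (x : K) :
    ‖h x * Complex.exp (-z * (l x : ℂ)) * ((ω x : Circle) : ℂ)‖ ≤ ‖h x‖ := by
  rw [norm_mul, DualG.norm_eval, mul_one, norm_mul]
  by_cases h0 : h x = 0
  · simp [h0]
  · refine mul_le_of_le_one_right (norm_nonneg _) ?_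
    rw [Complex.norm_exp, Real.exp_le_one_iff]
    have : (-z * (l x : ℂ)).re = -(z.re * l x) := by simp
    rw [this]
    exact neg_nonpos.2 (mul_nonneg hz (hl x h0))

theorem GG_continuousOn {h : K → ℂ} {l : K →+ ℝ} (hs : Summable fun x => ‖h x‖)
    (hl : ∀ x, h x ≠ 0 → 0 ≤ l x) :
    ContinuousOn (fun p : ℂ × DualG K => GG h l p.1 p.2) ({z | 0 ≤ z.re} ×ˢ univ) := by
  unfold GG
  refine continuousOn_tsum (fun x => ?_) hs (fun x p hp => GG_term_le hl hp.1 p.2 x)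
  refine Continuous.continuousOn ?_
  have := (DualG.continuous_eval' x).comp (continuous_snd (X := ℂ) (Y := DualG K))
  simp only [Function.comp_def] at this
  fun_prop

theorem GG_diffContOnCl {h : K → ℂ} {l : K →+ ℝ} (hs : Summable fun x => ‖h x‖)
    (hl : ∀ x, h x ≠ 0 → 0 ≤ l x) (ω : DualG K) :
    DiffContOnCl ℂ (fun z => GG h l z ω) {z | 0 < z.re} := by
  constructor
  · unfold GG
    refine Complex.differentiableOn_tsum_of_summable_norm hs (fun x => ?_)
      (isOpen_lt continuous_const Complex.continuous_re) (fun x z hz => ?_)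
    · refine Differentiable.differentiableOn ?_
      fun_prop
    · exact GG_term_le hl (le_of_lt hz) ω x
  · rw [Complex.closure_setOfPred_lt_re]
    have h1 := GG_continuousOn hs hl
    refine h1.comp (g := fun p : ℂ × DualG K => GG h l p.1 p.2) (f := fun z : ℂ => (z, ω)) ?_ ?_
    · fun_prop
    · intro z hz
      exact ⟨hz, mem_univ _⟩

theorem GG_shift (h : K → ℂ) (l : K →+ ℝ) (z : ℂ) (t : ℝ) (ω : DualG K) :
    GG h l (z + t * Complex.I) ω = GG h l z (ω * expi l (-t)) := by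
  unfold GG
  refine tsum_congr fun x => ?_
  rw [DualG.mul_apply, Circle.coe_mul, expi_apply]
  have : Complex.exp (-(z + t * Complex.I) * (l x : ℂ)) =
      Complex.exp (-z * (l x : ℂ)) * Complex.exp ((-t * l x : ℝ) * Complex.I) := by
    rw [← Complex.exp_add]
    congr 1
    push_cast
    ring
  rw [this]
  ring

theorem GG_eq_re (h : K → ℂ) (l : K →+ ℝ) (z : ℂ) (ω : DualG K) :
    GG h l z ω = GG h l (z.re : ℂ) (ω * expi l (-z.im)) := by
  rw [← GG_shift, Complex.re_add_im]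

/-- distance between the terms for two characters -/
noncomputable def dd (h : K → ℂ) (ω ω' : DualG K) : ℝ :=
  ∑' x, ‖h x‖ * ‖((ω x : Circle) : ℂ) - ((ω' x : Circle) : ℂ)‖

theorem dd_term_le (h : K → ℂ) (ω ω' : DualG K) (x : K) :
    ‖(‖h x‖ * ‖((ω x : Circle) : ℂ) - ((ω' x : Circle) : ℂ)‖)‖ ≤ ‖h x‖ * 2 := by
  rw [norm_mul, norm_norm, norm_norm]
  refine mul_le_mul_of_nonneg_left ?_ (norm_nonneg _)
  refine (norm_sub_le _ _).trans ?_
  rw [DualG.norm_eval, DualG.norm_eval]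
  norm_num

theorem dd_summable {h : K → ℂ} (hs : Summable fun x => ‖h x‖) (ω ω' : DualG K) :
    Summable fun x => ‖h x‖ * ‖((ω x : Circle) : ℂ) - ((ω' x : Circle) : ℂ)‖ :=
  Summable.of_norm_bounded (hs.mul_right 2) (dd_term_le h ω ω')

theorem continuous_dd {h : K → ℂ} (hs : Summable fun x => ‖h x‖) (ω' : DualG K) :
    Continuous fun ω => dd h ω ω' := by
  unfold dd
  refine continuous_tsum (fun x => ?_) (hs.mul_right 2) (fun x ω => dd_term_le h ω ω' x)
  exact continuous_const.mul ((DualG.continuous_eval' x).sub continuous_const).norm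

theorem dd_self (h : K → ℂ) (ω : DualG K) : dd h ω ω = 0 := by
  simp [dd]

theorem GG_sub_le {h : K → ℂ} {l : K →+ ℝ} (hs : Summable fun x => ‖h x‖)
    (hl : ∀ x, h x ≠ 0 → 0 ≤ l x) {z : ℂ} (hz : 0 ≤ z.re) (ω ω' : DualG K) :
    ‖GG h l z ω - GG h l z ω'‖ ≤ dd h ω ω' := by
  have s1 : ∀ ω : DualG K, Summable fun x =>
      h x * Complex.exp (-z * (l x : ℂ)) * ((ω x : Circle) : ℂ) := fun ω =>
    Summable.of_norm_bounded hs (fun x => GG_term_le hl hz ω x)
  unfold GG dd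
  rw [← (s1 ω).tsum_sub (s1 ω')]
  have h1 : ∀ x, ‖h x * Complex.exp (-z * (l x : ℂ)) * ((ω x : Circle) : ℂ) -
      h x * Complex.exp (-z * (l x : ℂ)) * ((ω' x : Circle) : ℂ)‖ ≤
      ‖h x‖ * ‖((ω x : Circle) : ℂ) - ((ω' x : Circle) : ℂ)‖ := by
    intro x
    rw [← mul_sub, norm_mul]
    refine mul_le_mul_of_nonneg_right ?_ (norm_nonneg _)
    have := GG_term_le hl hz 1 x
    rwa [norm_mul, DualG.norm_eval, mul_one] at this
  exact tsum_of_norm_bounded (dd_summable hs ω ω').hasSum h1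

theorem part0_norm_le (h : K → ℂ) (l : K →+ ℝ) (x : K) : ‖part0 h l x‖ ≤ ‖h x‖ := by
  unfold part0
  split_ifs
  · exact le_rfl
  · simp

theorem part0_summable {h : K → ℂ} {l : K →+ ℝ} (hs : Summable fun x => ‖h x‖) :
    Summable fun x => ‖part0 h l x‖ :=
  Summable.of_nonneg_of_le (fun _ => norm_nonneg _) (part0_norm_le h l) hs

/-- uniform convergence to the `λ = 0` part -/
theorem GG_tendsto {h : K → ℂ} {l : K →+ ℝ} (hs : Summable fun x => ‖h x‖)
    (hl : ∀ x, h x ≠ 0 → 0 ≤ l x) {ε : ℝ} (hε : 0 < ε) :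
    ∃ A : ℝ, 0 ≤ A ∧ ∀ z : ℂ, A ≤ z.re → ∀ ω, ‖GG h l z ω - ft (part0 h l) ω‖ < ε := by
  classical
  -- the bounding series
  have key : Tendsto (fun σ : ℝ => ∑' x, ‖h x - part0 h l x‖ * Real.exp (-σ * l x)) atTop
      (𝓝 (∑' x : K, (0 : ℝ))) := by
    refine tendsto_tsum_of_dominated_convergence hs (fun x => ?_) ?_
    · by_cases h1 : l x = 0
      · simp [part0, h1]
      · by_cases h2 : h x = 0
        · simp [part0, h2]
        · have h3 : 0 < l x := lt_of_le_of_ne (hl x h2) (Ne.symm h1)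
          have h4 : Tendsto (fun σ : ℝ => -σ * l x) atTop atBot :=
            (tendsto_neg_atTop_atBot).atBot_mul_const h3
          have h5 := Real.tendsto_exp_atBot.comp h4
          simpa using h5.const_mul ‖h x - part0 h l x‖
    · filter_upwards [eventually_ge_atTop 0] with σ hσ x
      rw [norm_mul, norm_norm, Real.norm_eq_abs, Real.abs_exp]
      by_cases h1 : l x = 0
      · simp [part0, h1]
      · by_cases h2 : h x = 0
        · simp [part0, h2]
        · have h3 : 0 < l x := lt_of_le_of_ne (hl x h2) (Ne.symm h1)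
          have h4 : h x - part0 h l x = h x := by simp [part0, h1]
          rw [h4]
          refine mul_le_of_le_one_right (norm_nonneg _) ?_
          rw [Real.exp_le_one_iff]
          nlinarith
  rw [tsum_zero] at key
  obtain ⟨A, hA⟩ := (eventually_atTop.1 ((tendsto_order.1 key).2 ε hε))
  refine ⟨max A 0, le_max_right _ _, fun z hz ω => ?_⟩
  have hz0 : 0 ≤ z.re := (le_max_right _ _).trans hz
  have s1 : Summable fun x => h x * Complex.exp (-z * (l x : ℂ)) * ((ω x : Circle) : ℂ) :=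
    Summable.of_norm_bounded hs (fun x => GG_term_le hl hz0 ω x)
  have s2 := ft_summable (part0_summable (l := l) hs) ω
  have s3 : Summable fun x => ‖h x - part0 h l x‖ * Real.exp (-z.re * l x) := by
    refine Summable.of_norm_bounded hs (fun x => ?_)
    rw [norm_mul, norm_norm, Real.norm_eq_abs, Real.abs_exp]
    by_cases h1 : l x = 0
    · simp [part0, h1]
    · by_cases h2 : h x = 0
      · simp [part0, h2]
      · have h3 : 0 < l x := lt_of_le_of_ne (hl x h2) (Ne.symm h1)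
        have h4 : h x - part0 h l x = h x := by simp [part0, h1]
        rw [h4]
        refine mul_le_of_le_one_right (norm_nonneg _) ?_
        rw [Real.exp_le_one_iff]
        nlinarith
  have h1 : ∀ x, ‖h x * Complex.exp (-z * (l x : ℂ)) * ((ω x : Circle) : ℂ) -
      part0 h l x * ((ω x : Circle) : ℂ)‖ ≤ ‖h x - part0 h l x‖ * Real.exp (-z.re * l x) := by
    intro x
    by_cases h1 : l x = 0
    · simp [part0, h1]
    · have h4 : part0 h l x = 0 := by simp [part0, h1]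
      rw [h4, zero_mul, sub_zero, sub_zero, norm_mul, DualG.norm_eval, mul_one, norm_mul,
        Complex.norm_exp]
      have : (-z * (l x : ℂ)).re = -z.re * l x := by simp
      rw [this]
  have h2 := tsum_of_norm_bounded s3.hasSum h1
  rw [s1.tsum_sub s2] at h2
  exact h2.trans_lt (hA z.re ((le_max_left _ _).trans hz))

/-- characters that agree with `ω` on `λ = 0` -/
def CC (l : K →+ ℝ) (ω : DualG K) : Set (DualG K) := {ω' | ∀ x, l x = 0 → ω' x = ω x}

theorem isClosed_CC (l : K →+ ℝ) (ω : DualG K) : IsClosed (CC l ω) := by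
  have : CC l ω = ⋂ x : K, ⋂ _ : l x = 0, {ω' : DualG K | ω' x = ω x} := by
    ext ω'
    simp [CC]
  rw [this]
  refine isClosed_iInter fun x => isClosed_iInter fun _ => ?_
  exact isClosed_eq (DualG.continuous_eval x) continuous_const

theorem CC_mul_expi {l : K →+ ℝ} {ω ω' : DualG K} (h : ω' ∈ CC l ω) (t : ℝ) :
    ω' * expi l t ∈ CC l ω := by
  intro x hx
  rw [DualG.mul_apply, h x hx]
  have : (expi l t) x = 1 := by
    ext
    rw [expi_apply, hx]
    simp
  rw [this, mul_one]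

theorem CC_self (l : K →+ ℝ) (ω : DualG K) : ω ∈ CC l ω := fun _ _ => rfl

theorem ft_part0_congr {h : K → ℂ} {l : K →+ ℝ} {ω ω' : DualG K} (hω : ω' ∈ CC l ω) :
    ft (part0 h l) ω' = ft (part0 h l) ω := by
  unfold ft
  refine tsum_congr fun x => ?_
  by_cases h1 : l x = 0
  · rw [hω x h1]
  · simp [part0, h1]

theorem GG_lower {h : K → ℂ} {l : K →+ ℝ} (hs : Summable fun x => ‖h x‖)
    (hl : ∀ x, h x ≠ 0 → 0 ≤ l x) {ω : DualG K}
    (hnz : ∀ ω' ∈ CC l ω, ∀ σ : ℝ, 0 ≤ σ → GG h l σ ω' ≠ 0)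
    (hnz0 : ft (part0 h l) ω ≠ 0) :
    ∃ m : ℝ, 0 < m ∧ ∀ z : ℂ, 0 ≤ z.re → ∀ ω' ∈ CC l ω, m ≤ ‖GG h l z ω'‖ := by
  have hpos : 0 < ‖ft (part0 h l) ω‖ := norm_pos_iff.2 hnz0
  obtain ⟨A, hA0, hA⟩ := GG_tendsto hs hl (half_pos hpos)
  -- compact part
  have hcomp : IsCompact ((Icc (0 : ℝ) A) ×ˢ (CC l ω)) :=
    isCompact_Icc.prod (isClosed_CC l ω).isCompact
  have hcont : ContinuousOn (fun p : ℝ × DualG K => ‖GG h l (p.1 : ℂ) p.2‖)
      ((Icc (0 : ℝ) A) ×ˢ (CC l ω)) := by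
    refine ContinuousOn.norm ?_
    refine (GG_continuousOn hs hl).comp (f := fun p : ℝ × DualG K => ((p.1 : ℂ), p.2)) ?_ ?_
    · exact Continuous.continuousOn (by fun_prop)
    · intro p hp
      exact ⟨by simpa using hp.1.1, mem_univ _⟩
  have hne : ((Icc (0 : ℝ) A) ×ˢ (CC l ω)).Nonempty :=
    ⟨(0, ω), ⟨⟨le_rfl, hA0⟩, CC_self l ω⟩⟩
  obtain ⟨p, hp, hmin⟩ := hcomp.exists_isMinOn hne hcont
  have hp1 : 0 < ‖GG h l (p.1 : ℂ) p.2‖ := norm_pos_iff.2 (hnz p.2 hp.2 p.1 hp.1.1)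
  refine ⟨min ‖GG h l (p.1 : ℂ) p.2‖ (‖ft (part0 h l) ω‖ / 2), lt_min hp1 (half_pos hpos),
    fun z hz ω' hω' => ?_⟩
  rw [GG_eq_re h l z ω']
  have hω'' := CC_mul_expi hω' (-z.im)
  rcases le_total z.re A with h1 | h1
  · refine (min_le_left _ _).trans ?_
    have hq : ((z.re, ω' * expi l (-z.im)) : ℝ × DualG K) ∈ (Icc (0 : ℝ) A) ×ˢ (CC l ω) :=
      ⟨⟨hz, h1⟩, hω''⟩
    have h9 := isMinOn_iff.1 hmin _ hq
    dsimp only at h9
    exact h9
  · refine (min_le_right _ _).trans ?_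
    have h2 := hA (z.re : ℂ) (by simpa using h1) (ω' * expi l (-z.im))
    rw [ft_part0_congr hω''] at h2
    have h3 := norm_sub_norm_le (ft (part0 h l) ω) (GG h l (z.re : ℂ) (ω' * expi l (-z.im)))
    rw [norm_sub_rev] at h3
    linarith

/-- pointwise minimum principle -/
theorem step_pointwise {h : K → ℂ} {l : K →+ ℝ} (hs : Summable fun x => ‖h x‖)
    (hl : ∀ x, h x ≠ 0 → 0 ≤ l x) {ω : DualG K} {κ : ℝ} (hκ : 0 < κ)
    (hnz : ∀ ω' ∈ CC l ω, ∀ σ : ℝ, 0 ≤ σ → GG h l σ ω' ≠ 0)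
    (hnz0 : ft (part0 h l) ω ≠ 0)
    (hb : ∀ ω' ∈ CC l ω, κ ≤ ‖GG h l 0 ω'‖) :
    (∀ σ : ℝ, 0 ≤ σ → κ ≤ ‖GG h l σ ω‖) ∧ κ ≤ ‖ft (part0 h l) ω‖ := by
  obtain ⟨m, hm, hlow⟩ := GG_lower hs hl hnz hnz0
  have hne : ∀ z : ℂ, 0 ≤ z.re → GG h l z ω ≠ 0 := fun z hz =>
    norm_pos_iff.1 (hm.trans_le (hlow z hz ω (CC_self l ω)))
  have hvb : ∀ z : ℂ, 0 ≤ z.re → ‖(GG h l z ω)⁻¹‖ ≤ m⁻¹ := fun z hz => by
    rw [norm_inv]
    exact inv_anti₀ hm (hlow z hz ω (CC_self l ω))
  have hd : DiffContOnCl ℂ (fun z => (GG h l z ω)⁻¹) {z : ℂ | 0 < z.re} := by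
    refine (GG_diffContOnCl hs hl ω).inv ?_
    intro z hz
    rw [Complex.closure_setOfPred_lt_re] at hz
    exact hne z hz
  have hmain : ∀ z : ℂ, 0 ≤ z.re → κ ≤ ‖GG h l z ω‖ := by
    intro z hz
    have h1 : ‖(GG h l z ω)⁻¹‖ ≤ κ⁻¹ := by
      refine PhragmenLindelof.right_half_plane_of_bounded_on_real
        (f := fun z => (GG h l z ω)⁻¹) hd ⟨1, by norm_num, 0, ?_⟩ ?_ ?_ hz
      · refine Asymptotics.IsBigO.of_bound m⁻¹ ?_
        refine eventually_inf_principal.2 (Eventually.of_forall fun z hz => ?_)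
        have := hvb z (le_of_lt hz)
        simpa using this
      · refine ⟨m⁻¹, ?_⟩
        rw [eventually_map]
        filter_upwards [eventually_ge_atTop 0] with σ hσ
        exact hvb σ (by simpa using hσ)
      · intro t
        rw [norm_inv]
        refine inv_anti₀ hκ ?_
        have h2 : ((t : ℂ) * Complex.I) = 0 + t * Complex.I := by ring
        rw [h2, GG_shift]
        exact hb _ (CC_mul_expi (CC_self l ω) _)
    rw [norm_inv] at h1
    exact (inv_le_inv₀ (norm_pos_iff.2 (hne z hz)) hκ).1 h1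
  refine ⟨fun σ hσ => hmain σ (by simpa using hσ), ?_⟩
  refine le_of_forall_pos_le_add fun ε hε => ?_
  obtain ⟨A, hA0, hA⟩ := GG_tendsto hs hl hε
  have h1 := hA (A : ℂ) (by simp) ω
  have h2 := hmain (A : ℂ) (by simpa using hA0)
  have h3 := norm_sub_norm_le (GG h l (A : ℂ) ω) (ft (part0 h l) ω)
  linarith

end step

end Pool.Agent.H92
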