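import Pool.Agent.H92.Class

set_option autoImplicit false

open MeasureTheory Filter Topology Set

namespace Pool.Agent.H92

section core

variable {K : Type*} [AddCommGroup K]

theorem lower_of_dense {F : DualG K → ℂ} (hF : Continuous F) {κ : ℝ} {D : Set (DualG K)}
    (hD : ∀ ω, ∀ U ∈ 𝓝 ω, ∃ ω' ∈ U, ω' ∈ D) (h : ∀ ω ∈ D, κ ≤ ‖F ω‖) : ∀ ω, κ ≤ ‖F ω‖ := by
  intro ω
  by_contra hcon
  push Not at hcon
  have h1 : {ω' | ‖F ω'‖ < κ} ∈ 𝓝 ω := (isOpen_lt hF.norm continuous_const).mem_nhds hcon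
  obtain ⟨ω', h2, h3⟩ := hD ω _ h1
  exact absurd (h ω' h3) (not_le.2 h2)

theorem continuous_GG {h : K → ℂ} {l : K →+ ℝ} (hs : Summable fun x => ‖h x‖)
    (hl : ∀ x, h x ≠ 0 → 0 ≤ l x) {z : ℂ} (hz : 0 ≤ z.re) : Continuous (GG h l z) := by
  rw [← continuousOn_univ]
  refine (GG_continuousOn hs hl).comp (f := fun ω : DualG K => (z, ω)) (by fun_prop) ?_
  intro ω _
  exact ⟨hz, mem_univ _⟩

/-- the core step: lower bound and mean inequality through a scale -/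
theorem core_step {h : K → ℂ} {l : K →+ ℝ} (hs : Summable fun x => ‖h x‖)
    (hl : ∀ x, h x ≠ 0 → 0 ≤ l x) {D : Set (DualG K)}
    (hD : ∀ ω, ∀ U ∈ 𝓝 ω, ∃ ω' ∈ U, ω' ∈ D) {κ : ℝ} (hκ : 0 < κ)
    (hnz : ∀ ω ∈ D, ∀ ω' ∈ CC l ω, ∀ σ : ℝ, 0 ≤ σ → GG h l σ ω' ≠ 0)
    (hnz0 : ∀ ω ∈ D, ft (part0 h l) ω ≠ 0)
    (hb : ∀ ω, κ ≤ ‖GG h l 0 ω‖) :
    (∀ σ : ℝ, 0 ≤ σ → ∀ ω, κ ≤ ‖GG h l σ ω‖) ∧ (∀ ω, κ ≤ ‖ft (part0 h l) ω‖) ∧
    (∀ σ : ℝ, 0 ≤ σ → NN (GG h l σ) ≤ NN (GG h l 0)) ∧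
    NN (ft (part0 h l)) ≤ NN (GG h l 0) := by
  have h1 : ∀ ω ∈ D, (∀ σ : ℝ, 0 ≤ σ → κ ≤ ‖GG h l σ ω‖) ∧ κ ≤ ‖ft (part0 h l) ω‖ :=
    fun ω hω => step_pointwise hs hl hκ (hnz ω hω) (hnz0 ω hω) (fun ω' _ => hb ω')
  have h2 : ∀ σ : ℝ, 0 ≤ σ → ∀ ω, κ ≤ ‖GG h l σ ω‖ := by
    intro σ hσ
    exact lower_of_dense (continuous_GG hs hl (by simpa using hσ)) hD
      (fun ω hω => (h1 ω hω).1 σ hσ)
  have h3 : ∀ ω, κ ≤ ‖ft (part0 h l) ω‖ :=
    lower_of_dense (continuous_ft (part0_summable hs)) hD (fun ω hω => (h1 ω hω).2)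
  exact ⟨h2, h3, step_integral hs hl hκ (fun ω σ hσ => h2 σ hσ ω),
    step_integral0 hs hl hκ (fun ω σ hσ => h2 σ hσ ω) h3⟩

end core

section steps

variable {K : Type*} [Field K] [LinearOrder K] [IsStrictOrderedRing K]

/-- characters with non-vanishing lower transform are dense -/
theorem Exact.Phi_dense {m : ℕ} {t : ℕ → K} {g h : K → ℂ} {B : ℝ} (E : Exact m t g h B)
    {C : Submodule ℚ K} (hC : ∀ i, t i ∈ C → 6 * m ≤ i) {i₁ : ℕ} (hi₁ : t i₁ ∈ C)
    (hc₁ : cf i₁ ≠ 0) : ∀ ω, ∀ U ∈ 𝓝 ω, ∃ ω' ∈ U, ω' ∈ {ω | Phi t C ω ≠ 0} := by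
  classical
  intro ω U hU
  by_cases hω : Phi t C ω = 0
  swap
  · exact ⟨ω, mem_of_mem_nhds hU, hω⟩
  have hm1 : 6 * m ≤ i₁ := hC i₁ hi₁
  obtain ⟨L, hL⟩ := exists_lin (li_t_shift (6 * m) E.tpos (fun i hi n => E.tsep i (by omega) n))
    (fun i => if 6 * m + i = i₁ then 1 else 0)
  have hL1 : L (t i₁) = 1 := by
    have := hL (i₁ - 6 * m)
    have h2 : 6 * m + (i₁ - 6 * m) = i₁ := by omega
    rw [h2, if_pos rfl] at this
    exact this
  have hL0 : ∀ j, 6 * m ≤ j → j ≠ i₁ → L (t j) = 0 := by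
    intro j hj hne
    have := hL (j - 6 * m)
    have h2 : 6 * m + (j - 6 * m) = j := by omega
    rw [h2, if_neg hne] at this
    exact this
  set w : ℝ → DualG K := fun s => ω * expi L.toAddMonoidHom s with hw
  have hwc : Continuous w := continuous_const.mul (continuous_expi _)
  have hval : ∀ s : ℝ, Phi t C (w s) = (cf i₁ : ℂ) * ((ω (t i₁) : Circle) : ℂ) *
      (Complex.exp (s * Complex.I) - 1) := by
    intro s
    have h1 : Phi t C (w s) - Phi t C ω = (cf i₁ : ℂ) * ((ω (t i₁) : Circle) : ℂ) *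
      (Complex.exp (s * Complex.I) - 1) := by
      unfold Phi lowF
      rw [← (lowF_summable (Phi_b_nonneg t C) (Phi_b_summable t C) t (w s)).tsum_sub
        (lowF_summable (Phi_b_nonneg t C) (Phi_b_summable t C) t ω)]
      have h2 : ∀ j, ((if t j ∈ C then cf j else 0 : ℝ) : ℂ) * (((w s) (t j) : Circle) : ℂ) -
          ((if t j ∈ C then cf j else 0 : ℝ) : ℂ) * ((ω (t j) : Circle) : ℂ) =
          if j = i₁ then (cf i₁ : ℂ) * ((ω (t i₁) : Circle) : ℂ) *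
            (Complex.exp (s * Complex.I) - 1) else 0 := by
        intro j
        have h3 : (((w s) (t j) : Circle) : ℂ) = ((ω (t j) : Circle) : ℂ) *
            Complex.exp ((s * L (t j) : ℝ) * Complex.I) := by
          rw [hw]
          simp only
          rw [DualG.mul_apply, Circle.coe_mul, expi_apply]
          rfl
        rw [h3]
        by_cases hj : j = i₁
        · subst hj
          rw [if_pos rfl, if_pos hi₁, hL1]
          push_cast
          rw [mul_one]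
          ring
        · rw [if_neg hj]
          by_cases hjC : t j ∈ C
          · rw [hL0 j (hC j hjC) hj]
            simp
          · simp [hjC]
      simp_rw [h2]
      rw [tsum_ite_eq]
    rw [hω, sub_zero] at h1
    exact h1
  have hw0 : w 0 = ω := by
    rw [hw]
    simp only
    rw [expi_zero, mul_one]
  have hev : ∀ᶠ s in 𝓝[>] (0 : ℝ), w s ∈ U := by
    have h1 : Tendsto w (𝓝 0) (𝓝 ω) := by
      have := hwc.tendsto 0
      rwa [hw0] at this
    exact (h1.mono_left nhdsWithin_le_nhds).eventually hU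
  have hev2 : ∀ᶠ s in 𝓝[>] (0 : ℝ), s < Real.pi :=
    mem_nhdsWithin_of_mem_nhds (Iio_mem_nhds Real.pi_pos)
  obtain ⟨s, hs1, hs2, hs3⟩ := (hev.and (hev2.and self_mem_nhdsWithin)).exists
  refine ⟨w s, hs1, ?_⟩
  change Phi t C (w s) ≠ 0
  rw [hval]
  refine mul_ne_zero (mul_ne_zero (by exact_mod_cast hc₁) (Circle.coe_ne_zero _)) ?_
  intro h1
  have h2 : Complex.exp (s * Complex.I) = 1 := sub_eq_zero.1 h1
  have h3 : (Complex.exp (s * Complex.I)).im = 0 := by rw [h2]; simp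
  rw [Complex.exp_ofReal_mul_I_im] at h3
  exact (Real.sin_pos_of_pos_of_lt_pi hs3 hs2).ne' h3

theorem Phi_congr {t : ℕ → K} {w : K} {ω ω' : DualG K}
    (hω : ω' ∈ CC (lam w).toAddMonoidHom ω) : Phi t (oo w) ω' = Phi t (oo w) ω := by
  classical
  unfold Phi lowF
  refine tsum_congr fun j => ?_
  by_cases h : t j ∈ oo w
  · rw [hω (t j) (mem_oo.1 h).2]
  · simp [h]

/-- shifting the damping into the function -/
theorem GG_shift_real (h : K → ℂ) (l : K →+ ℝ) (σ₀ : ℝ) (z : ℂ) (ω : DualG K) :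
    GG (fun x => h x * Complex.exp (-(σ₀ : ℂ) * (l x : ℂ))) l z ω = GG h l (z + σ₀) ω := by
  unfold GG
  refine tsum_congr fun x => ?_
  rw [mul_assoc (h x), ← Complex.exp_add]
  congr 3
  ring

/-- step through a class without atoms -/
theorem Exact.gap_step {m : ℕ} {t : ℕ → K} {g h : K → ℂ} {B : ℝ} (E : Exact m t g h B)
    {w : K} (hw : 0 < w) (hgap : ∀ i, t i ∈ OO w → cf i ≠ 0 → t i ∈ oo w)
    (hdense : ∀ ω, ∀ U ∈ 𝓝 ω, ∃ ω' ∈ U, ω' ∈ {ω | Phi t (oo w) ω ≠ 0})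
    {σ₀ : ℝ} (hσ₀ : 0 ≤ σ₀) {κ : ℝ} (hκ : 0 < κ)
    (hb : ∀ ω, κ ≤ ‖ft (damp w (σ₀ : ℂ) h) ω‖) :
    (∀ σ : ℝ, σ₀ ≤ σ → ∀ ω, κ ≤ ‖ft (damp w (σ : ℂ) h) ω‖) ∧
    (∀ ω, κ ≤ ‖ft (res (oo w) h) ω‖) ∧
    (∀ σ : ℝ, σ₀ ≤ σ → NN (ft (damp w (σ : ℂ) h)) ≤ NN (ft (damp w (σ₀ : ℂ) h))) ∧
    NN (ft (res (oo w) h)) ≤ NN (ft (damp w (σ₀ : ℂ) h)) := by
  set l : K →+ ℝ := (lam w).toAddMonoidHom with hl
  set h' : K → ℂ := fun x => res (OO w) h x * Complex.exp (-(σ₀ : ℂ) * (l x : ℂ)) with hh'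
  have hsup : ∀ x, h' x ≠ 0 → 0 ≤ l x := by
    intro x hx
    exact res_support hw E.h0 x (left_ne_zero_of_mul hx)
  have hs' : Summable fun x => ‖h' x‖ := by
    refine Summable.of_nonneg_of_le (fun _ => norm_nonneg _) (fun x => ?_)
      (res_summable (C := OO w) E.hsum)
    by_cases h0 : res (OO w) h x = 0
    · simp [hh', h0]
    · rw [hh']
      simp only
      rw [norm_mul]
      refine mul_le_of_le_one_right (norm_nonneg _) ?_
      rw [Complex.norm_exp, Real.exp_le_one_iff]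
      have h1 : (-(σ₀ : ℂ) * (l x : ℂ)).re = -(σ₀ * l x) := by simp
      rw [h1]
      exact neg_nonpos.2 (mul_nonneg hσ₀ (res_support hw E.h0 x h0))
  have hGG : ∀ (z : ℂ) ω, GG h' l z ω = ft (damp w (z + σ₀) h) ω := by
    intro z ω
    rw [ft_damp_eq, hh', GG_shift_real]
  have hpart : part0 h' l = res (oo w) h := by
    rw [← part0_res]
    classical
    funext x
    unfold part0
    by_cases h1 : l x = 0
    · rw [if_pos h1, if_pos h1, hh']
      simp [h1]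
    · rw [if_neg h1, if_neg h1]
  have key := core_step (D := {ω | Phi t (oo w) ω ≠ 0}) hs' hsup hdense hκ ?_ ?_ ?_
  · obtain ⟨k1, k2, k3, k4⟩ := key
    rw [hpart] at k2 k4
    have hN : ∀ σ : ℝ, σ₀ ≤ σ → GG h' l ((σ - σ₀ : ℝ) : ℂ) = ft (damp w (σ : ℂ) h) := by
      intro σ _
      funext ω
      rw [hGG]
      congr 2
      push_cast
      ring
    have hN0 : GG h' l 0 = ft (damp w (σ₀ : ℂ) h) := by
      funext ω
      rw [hGG, zero_add]
    rw [hN0] at k4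
    refine ⟨?_, k2, ?_, k4⟩
    · intro σ hσ ω
      have := k1 (σ - σ₀) (by linarith) ω
      rwa [hN σ hσ] at this
    · intro σ hσ
      have := k3 (σ - σ₀) (by linarith)
      rwa [hN σ hσ, hN0] at this
  · intro ω hω ω' hω' σ hσ h0
    have h1 := E.prod_gap hw hgap (z := (σ : ℂ) + σ₀) (by simp; linarith) ω'
    rw [Phi_congr hω', ← hGG, h0, mul_zero] at h1
    exact hω h1.symm
  · intro ω hω h0
    rw [hpart] at h0
    have h1 := E.prod_res (cvx_oo hw) ω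
    rw [h0, mul_zero] at h1
    exact hω h1.symm
  · intro ω
    rw [hGG, zero_add]
    exact hb ω

/-- step through the class of an atom -/
theorem Exact.atom_step {m : ℕ} {t : ℕ → K} {g h : K → ℂ} {B : ℝ} (E : Exact m t g h B)
    {i : ℕ} (hi : 6 * m ≤ i) (hc : 0 < cf i) {κ : ℝ} (hκ : 0 < κ)
    (hb : ∀ ω, κ ≤ ‖ft (res (OO (t i)) h) ω‖) :
    (∀ ω, κ ≤ ‖ft (res (oo (t i)) h) ω‖) ∧
    NN (ft (res (oo (t i)) h)) ≤ NN (ft (res (OO (t i)) h)) := by
  classical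
  have hw := E.tpos i
  set l : K →+ ℝ := (lam (t i)).toAddMonoidHom with hl
  have hsup := res_support hw E.h0
  have hs := res_summable (C := OO (t i)) E.hsum
  have hGG0 : ∀ ω, GG (res (OO (t i)) h) l 0 ω = ft (res (OO (t i)) h) ω := GG_zero _ _
  have hprod : ∀ (z : ℂ) ω, 0 ≤ z.re → GG (res (OO (t i)) h) l z ω = 0 →
      ((cf i : ℝ) : ℂ) * Complex.exp (-z) * ((ω (t i) : Circle) : ℂ) + Phi t (oo (t i)) ω = 0 := by
    intro z ω hz h0
    have h1 := E.prod_atom hi hz ω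
    rw [ft_damp_eq, ft_damp_eq, ← hl, h0, mul_zero] at h1
    exact h1.symm
  have hnz : ∀ (z : ℂ) ω, 0 < z.re → GG (res (OO (t i)) h) l z ω ≠ 0 := by
    refine no_zero_inside hs hsup hc (x := t i) (y := t)
      (b := fun j => if t j ∈ oo (t i) then cf j else 0) (Phi_b_nonneg t _) (Phi_b_summable t _)
      ?_ ?_ hprod ?_
    · rw [E.tsum_lower hi]
      exact cf_le_tl i
    · intro α
      obtain ⟨L, hL⟩ := exists_lin
        (li_t_shift (6 * m) E.tpos (fun i hi n => E.tsep i (by omega) n))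
        (fun j => if 6 * m + j = i then 0 else α (6 * m + j))
      refine ⟨L.toAddMonoidHom, ?_, ?_⟩
      · have h1 := hL (i - 6 * m)
        have h2 : 6 * m + (i - 6 * m) = i := by omega
        rw [h2, if_pos rfl] at h1
        exact h1
      · intro j hj
        have h3 : t j ∈ oo (t i) := by
          by_contra hcon
          exact hj (if_neg hcon)
        have h4 : i < j := (E.mem_oo_iff' hi).1 h3
        have h1 := hL (j - 6 * m)
        have h2 : 6 * m + (j - 6 * m) = j := by omega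
        rw [h2, if_neg h4.ne'] at h1
        exact h1
    · intro ω h0
      rw [hGG0] at h0
      have := hb ω
      rw [h0, norm_zero] at this
      linarith
  have hdense : ∀ ω, ∀ U ∈ 𝓝 ω, ∃ ω' ∈ U, ω' ∈ {ω | Phi t (oo (t i)) ω ≠ 0} := by
    obtain ⟨j, hj1, hj2⟩ : ∃ j, i < j ∧ cf j ≠ 0 := by
      refine ⟨6 * (i + 1), by omega, ?_⟩
      rw [cf_six_mul]
      positivity
    refine E.Phi_dense (fun k hk => ?_) ((E.mem_oo_iff' hi).2 hj1) hj2
    have := (E.mem_oo_iff' hi).1 hk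
    omega
  have key := core_step (D := {ω | Phi t (oo (t i)) ω ≠ 0}) hs hsup hdense hκ ?_ ?_ ?_
  · obtain ⟨_, k2, _, k4⟩ := key
    rw [part0_res] at k2 k4
    refine ⟨k2, ?_⟩
    have hN0 : GG (res (OO (t i)) h) l 0 = ft (res (OO (t i)) h) := funext hGG0
    rw [← hN0]
    exact k4
  · intro ω _ ω' _ σ hσ
    rcases hσ.eq_or_lt with h1 | h1
    · intro h0
      rw [← h1, Complex.ofReal_zero, hGG0] at h0
      have := hb ω'
      rw [h0, norm_zero] at this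
      linarith
    · exact hnz _ _ (by simpa using h1)
  · intro ω hω h0
    rw [part0_res] at h0
    have h1 := E.prod_res (cvx_oo hw) ω
    rw [h0, mul_zero] at h1
    exact hω h1.symm
  · intro ω
    rw [hGG0]
    exact hb ω

end steps

end Pool.Agent.H92
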